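import Pool.Agent.STR.Stp

/-!
# The domains along a stair (project ISO, T9)

`Dm D N n m`: the vertices `V x i`, `-2m ≤ x - D.o i < 2n`, `0 ≤ i < N`.
-/

set_option autoImplicit false

namespace Pool.Agent.STR

open HexObs HexObs.LP
open Pool.Agent.MXR

/-- the vertices of the rings `-m, .., n - 1`. -/
noncomputable def Dm (D : Stp) (N n m : ℕ) : Finset Pt :=
  ((Finset.Ico (-(2 * m : ℤ)) (2 * n) ×ˢ Finset.Ico (0 : ℤ) N).image fun w => V (w.1 + D.o w.2) w.2)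

theorem mem_Dm {D : Stp} {N n m : ℕ} {x i : ℤ} :
    V x i ∈ Dm D N n m ↔ (-(2 * m : ℤ) ≤ x - D.o i ∧ x - D.o i < 2 * n) ∧ 0 ≤ i ∧ i < N := by
  unfold Dm
  rw [Finset.mem_image]
  constructor
  · rintro ⟨w, hw, e⟩
    rw [V_inj] at e
    rw [Finset.mem_product, Finset.mem_Ico, Finset.mem_Ico, e.2] at hw
    obtain ⟨e1, e2⟩ := e
    rw [e2] at e1
    refine ⟨⟨by linarith [hw.1.1], by linarith [hw.1.2]⟩, hw.2⟩
  · rintro ⟨h1, h2⟩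
    refine ⟨(x - D.o i, i), Finset.mem_product.2 ⟨Finset.mem_Ico.2 h1, Finset.mem_Ico.2 h2⟩, ?_⟩
    rw [V_inj]
    exact ⟨by simp, rfl⟩

theorem exists_of_mem_Dm {D : Stp} {N n m : ℕ} {v : Pt} (h : v ∈ Dm D N n m) : ∃ x i : ℤ, v = V x i ∧
    (-(2 * m : ℤ) ≤ x - D.o i ∧ x - D.o i < 2 * n) ∧ 0 ≤ i ∧ i < N := by
  unfold Dm at h
  rw [Finset.mem_image] at h
  obtain ⟨w, hw, rfl⟩ := h
  rw [Finset.mem_product, Finset.mem_Ico, Finset.mem_Ico] at hw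
  exact ⟨w.1 + D.o w.2, w.2, rfl, ⟨by linarith [hw.1.1], by linarith [hw.1.2]⟩, hw.2⟩

/-- the domain without the outer vertices of the two cut edges. -/
noncomputable def Dm0 (D : Stp) (N n m : ℕ) (i j : ℤ) : Finset Pt :=
  ((Dm D N n m).erase (V (D.o i - 1) i)).erase (V (D.o j - 1) j)

theorem mem_Dm0 {D : Stp} {N n m : ℕ} {i j x a : ℤ} : V x a ∈ Dm0 D N n m i j ↔
    ((-(2 * m : ℤ) ≤ x - D.o a ∧ x - D.o a < 2 * n) ∧ 0 ≤ a ∧ a < N) ∧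
      ¬ (x = D.o a - 1 ∧ (a = i ∨ a = j)) := by
  unfold Dm0
  rw [Finset.mem_erase, Finset.mem_erase, Ne, Ne, V_inj, V_inj, mem_Dm]
  constructor
  · rintro ⟨h1, h2, h3⟩
    refine ⟨h3, ?_⟩
    rintro ⟨e, rfl | rfl⟩
    · exact h2 ⟨e, rfl⟩
    · exact h1 ⟨e, rfl⟩
  · rintro ⟨h1, h2⟩
    refine ⟨?_, ?_, h1⟩
    · rintro ⟨e, rfl⟩
      exact h2 ⟨e, Or.inr rfl⟩
    · rintro ⟨e, rfl⟩
      exact h2 ⟨e, Or.inl rfl⟩

end Pool.Agent.STR
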