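import Pool.Agent.STR.PubFin
import Pool.Agent.MXR.Main2

/-!
# The alternating stair (project ISO, stage A): the two-point function `NU5.Wk` is a generating function of walks

`Wk_WS`: `NU5.Wk k` (rows `0`, `- lam` alternating) is the two-point function of the alternating stair.
`hasSum_Wk`: for `k` even it is the generating function of the walks modulo `2 w`, `w = (-k/2, k)` (the direction of
30 degrees).  `WS_congr`: the two-point function depends on the stair only through `n`, `b`.
-/

set_option autoImplicit false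

namespace Pool.Agent.STR

open Pool.Agent.HexTwo
open Pool.Agent.NUN (cc Xr Xl)
open Pool.Agent.NUNC (dd)

/-- **The value of a stair depends only on the period.** -/
theorem WS_congr {D D' : Stp} {n b : ℕ} (h : Two D n b) (h' : Two D' n b) (hn : 1 ≤ n) :
    (WS D hn).re = (WS D' hn).re := (h.hasSum_WS hn).unique (h'.hasSum_WS hn)

/-- the alternating stair. -/
def alt : Stp where
  d i := i % 2
  st i := by omega
  pr := rfl

theorem alt_mi (i : ℤ) : alt.mi i = decide (i % 2 = 1) := by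
  show decide ((i + 1) % 2 < i % 2) = _
  rw [decide_eq_decide]
  omega

theorem zD_alt (n : ℕ) : zD alt n = MXR.z0 n := by
  funext s
  rcases s with ⟨i, b⟩ | s
  · show zrow (alt.mi ((i : ℕ) : ℤ)) = if ((i : ℕ) : ℤ) % 2 = 1 then -EXL.Fm.lam else 0
    rw [alt_mi]
    unfold zrow
    by_cases h : ((i : ℕ) : ℤ) % 2 = 1
    · rw [if_pos h, decide_eq_true h, if_pos rfl]
    · rw [if_neg h, decide_eq_false h, if_neg (by decide)]
  · rfl

/-- **The alternating stair.** -/
theorem Wk_WS {k : ℕ} (hk : 1 ≤ k) : NU5.Wk k hk = WS alt hk := by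
  rw [MXR.Wk_eq_W]
  unfold MXR.W WS
  rw [zD_alt]

theorem two_alt {k : ℕ} (he : k % 2 = 0) : Two alt k (k / 2) := by
  refine ⟨rfl, ?_, ?_, ?_, ?_⟩
  · show (k : ℤ) % 2 = k - 2 * ((k / 2 : ℕ) : ℤ)
    omega
  · show (2 * (k : ℤ)) % 2 = 2 * k - 4 * ((k / 2 : ℕ) : ℤ)
    omega
  · rw [alt_mi]
    decide
  · rw [alt_mi, decide_eq_false_iff_not]
    omega

/-- **The walks modulo `2 w`, `w = (-k/2, k)`.** -/
theorem hasSum_Wk {k : ℕ} (hk : 1 ≤ k) (he : k % 2 = 0) :
    HasSum (fun n : ℕ => ((saws (-((k / 2 : ℕ) : ℤ), (k : ℤ)) n).ncard : ℝ) * zc ^ (n + 1)) (NU5.Wk k hk).re := by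
  rw [Wk_WS]
  exact (two_alt he).hasSum_WS hk

/-- the value of the direction of 30 degrees. -/
theorem GS_Wk {k : ℕ} (hk : 1 ≤ k) (he : k % 2 = 0) : GS (k / 2) k = (NU5.Wk k hk).re := by
  rw [GS_eq hk (by omega), Wk_WS]
  exact WS_congr (two_stD hk (by omega)) (two_alt he) hk

end Pool.Agent.STR
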