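import Pool.Agent.STR.Alt
import Pool.Agent.GLD.W0

/-!
# The straight stair (project ISO): the two-point function of the direction of 0 degrees

`W0_WS`: `GLD.W0 k` (all rows at `0`, the function of the landed law `PBC.w0_sharp`) is the two-point function of the
straight stair; `GS_zero`: the value `GS 0 k` of the direction `(0, k)`; `hasSum_W0G`: it is the generating function
of the walks modulo `2 w`, `w = (0, k)`.
-/

set_option autoImplicit false

namespace Pool.Agent.STR

open Pool.Agent.HexTwo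

/-- the straight stair. -/
def lin : Stp where
  d i := i
  st _ := Or.inl rfl
  pr := rfl

theorem lin_mi (i : ℤ) : lin.mi i = false := by
  show decide (i + 1 < i) = false
  rw [decide_eq_false_iff_not]
  omega

theorem zD_lin (n : ℕ) : zD lin n = fun _ => (0 : ℂ) := by
  funext s
  rcases s with ⟨i, b⟩ | s
  · show zrow (lin.mi ((i : ℕ) : ℤ)) = 0
    rw [lin_mi]
    rfl
  · rfl

/-- **The straight stair.** -/
theorem W0_WS {k : ℕ} (hk : 1 ≤ k) : GLD.W0 hk = WS lin hk := by
  unfold GLD.W0 WS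
  rw [zD_lin]

theorem two_lin (k : ℕ) : Two lin k 0 := by
  refine ⟨rfl, ?_, ?_, lin_mi _, lin_mi _⟩
  · show (k : ℤ) = k - 2 * ((0 : ℕ) : ℤ)
    simp
  · show (2 * (k : ℤ)) = 2 * k - 4 * ((0 : ℕ) : ℤ)
    simp

/-- the value of the direction of 0 degrees. -/
theorem GS_zero {k : ℕ} (hk : 1 ≤ k) : GS 0 k = (GLD.W0 hk).re := by
  rw [GS_eq hk (by omega), W0_WS]
  exact WS_congr (two_stD hk (by omega)) (two_lin k) hk

/-- **The walks modulo `2 w`, `w = (0, k)`.** -/
theorem hasSum_W0G {k : ℕ} (hk : 1 ≤ k) :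
    HasSum (fun n : ℕ => ((saws (0, (k : ℤ)) n).ncard : ℝ) * zc ^ (n + 1)) (GLD.W0 hk).re := by
  have h := hasSum_GS (b := 0) (m := k) (by omega)
  rw [GS_zero hk] at h
  simpa using h

end Pool.Agent.STR
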