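import Pool.Agent.MXR.Brick

/-!
# The brick wall modulo a slanted translation (project ISO, T9)

`Cs N b`: the brick wall modulo the translation `V x i ↦ V (x + N - 2 b) (i + N)`: the honeycomb cylinder with `N`
rows whose rings are closed lattice paths with `N - b` steps to the right and `b` steps to the left.
-/

set_option autoImplicit false

namespace Pool.Agent.STR

open Pool.Agent.EXL Pool.Agent.EXL.Net HexObs HexObs.LP
open Pool.Agent.NUF.Cyl (ri Nm)
open Pool.Agent.MXR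

/-- the horizontal part of the period. -/
def sh (N b : ℕ) : ℤ := (N : ℤ) - 2 * b

/-- translation by t periods. -/
def trs (N b : ℕ) (t : ℤ) (v : Pt) : Pt := (v.1 + sh N b * t, v.2 + ((N : ℤ) + b) * t)

theorem ri_trs (N b : ℕ) (t : ℤ) (v : Pt) : ri (trs N b t v) = ri v + N * t := by
  simp only [ri, trs, sh]
  have e : v.1 + ((N : ℤ) - 2 * b) * t + 2 * (v.2 + ((N : ℤ) + b) * t) = v.1 + 2 * v.2 + 3 * (N * t) := by ring
  rw [e]
  omega

theorem trs_V (N b : ℕ) (t x i : ℤ) : trs N b t (V x i) = V (x + sh N b * t) (i + N * t) := by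
  simp only [trs, V, sh, Prod.mk.injEq, true_and]
  have e : 3 * (i + (N : ℤ) * t) + 3 - (x + ((N : ℤ) - 2 * b) * t) =
      (3 * i + 3 - x) + 2 * (((N : ℤ) + b) * t) := by ring
  rw [e]
  omega

theorem trs_trs (N b : ℕ) (s t : ℤ) (v : Pt) : trs N b s (trs N b t v) = trs N b (s + t) v := by
  simp only [trs, Prod.mk.injEq]
  constructor <;> ring

theorem trs_add (N b : ℕ) (t : ℤ) (v d : Pt) : trs N b t v + d = trs N b t (v + d) := by
  simp only [trs, Prod.ext_iff, Prod.fst_add, Prod.snd_add]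
  constructor <;> ring

theorem cl_trs (N b : ℕ) (t : ℤ) (v : Pt) : cl (trs N b t v) = cl v := by
  simp only [trs, cl, sh]
  have e : v.1 + ((N : ℤ) - 2 * b) * t - (v.2 + ((N : ℤ) + b) * t) = v.1 - v.2 + 3 * (-(b : ℤ) * t) := by ring
  rw [e]
  push_cast
  have h3 : (3 : ZMod 3) = 0 := by decide
  rw [h3, zero_mul, add_zero]

/-- the representative on the cylinder with N rows. -/
def nms (N b : ℕ) (v : Pt) : Pt := trs N b (-(ri v / N)) v

theorem nms_trs (N b : ℕ) (hN : 1 ≤ N) (t : ℤ) (v : Pt) : nms N b (trs N b t v) = nms N b v := by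
  unfold nms
  rw [ri_trs, trs_trs]
  have h : (ri v + N * t) / (N : ℤ) = ri v / N + t := Int.add_mul_ediv_left _ _ (by omega)
  rw [h]
  congr 1
  ring

/-- **The slanted cylinder.** -/
def Cs (N b : ℕ) (hN : 1 ≤ N) : Nm where
  nm := nms N b
  add v d := by
    have : nms N b v + d = trs N b (-(ri v / N)) (v + d) := trs_add _ _ _ _ _
    rw [this, nms_trs N b hN]
  cl v := cl_trs _ _ _ _

variable {N b : ℕ} {hN : 1 ≤ N}

theorem nm_Vm (x i : ℤ) : (Cs N b hN).nm (V x i) = V (x - sh N b * (i / N)) (i % N) := by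
  show nms N b (V x i) = _
  unfold nms
  rw [ri_V, trs_V]
  have h := Int.mul_ediv_add_emod i N
  congr 1
  · ring
  · linarith

theorem nm_V {x i : ℤ} (h1 : 0 ≤ i) (h2 : i < N) : (Cs N b hN).nm (V x i) = V x i := by
  rw [nm_Vm, Int.emod_eq_of_lt h1 h2, Int.ediv_eq_zero_of_lt h1 h2]
  congr 1
  ring

theorem nm_iff {x i : ℤ} : (Cs N b hN).nm (V x i) = V x i ↔ 0 ≤ i ∧ i < N := by
  constructor
  · rw [nm_Vm, V_inj]
    rintro ⟨-, h⟩
    rw [← h]
    exact ⟨Int.emod_nonneg _ (by omega), Int.emod_lt_of_pos _ (by omega)⟩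
  · rintro ⟨h1, h2⟩
    exact nm_V h1 h2

theorem nb_R {x i : ℤ} (h1 : 0 ≤ i) (h2 : i < N) : (Cs N b hN).nb (V x i, dR x i) = V (x + 1) i := by
  unfold Nm.nb
  rw [V_dR, nm_V h1 h2]

theorem nb_L {x i : ℤ} (h1 : 0 ≤ i) (h2 : i < N) : (Cs N b hN).nb (V x i, dL x i) = V (x - 1) i := by
  unfold Nm.nb
  rw [V_dL, nm_V h1 h2]

theorem nb_U (x i : ℤ) : (Cs N b hN).nb (V x i, dU x i) = V (x - sh N b * (io x i / N)) (io x i % N) := by
  unfold Nm.nb
  rw [V_dU, nm_Vm]

theorem rv_R {x i : ℤ} (h1 : 0 ≤ i) (h2 : i < N) :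
    (Cs N b hN).rv (V x i, dR x i) = (V (x + 1) i, dL (x + 1) i) := by
  unfold Nm.rv
  rw [nb_R h1 h2, neg_dR]

theorem rv_L {x i : ℤ} (h1 : 0 ≤ i) (h2 : i < N) :
    (Cs N b hN).rv (V x i, dL x i) = (V (x - 1) i, dR (x - 1) i) := by
  unfold Nm.rv
  rw [nb_L h1 h2, neg_dL]

theorem dU_mod (x i : ℤ) : dU (x - sh N b * (i / N)) (i % N) = dU x i := by
  unfold dU sh
  have h := Int.mul_ediv_add_emod i N
  have e : ((x - ((N : ℤ) - 2 * b) * (i / N) - i % (N : ℤ)) % 2 = 0) = ((x - i) % 2 = 0) := by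
    rw [eq_iff_iff]
    have h1 : x - ((N : ℤ) - 2 * b) * (i / N) - i % (N : ℤ) = x - i + 2 * (b * (i / N)) := by
      linear_combination -h
    rw [h1]
    omega
  simp only [e]

theorem rv_U (x i : ℤ) : (Cs N b hN).rv (V x i, dU x i) =
    (V (x - sh N b * (io x i / N)) (io x i % N), dU (x - sh N b * (io x i / N)) (io x i % N)) := by
  unfold Nm.rv
  rw [nb_U, dU_mod, neg_dU]

end Pool.Agent.STR
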