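import Pool.Agent.STR.Word
import Pool.Agent.GLD.TwoCut

/-!
# The exact word formula of the slanted cylinder (project ISO, T9, M6')

`word_cut`: the sorted network without the two cut edges, evaluated on the arc of the two right ends, is the sum over
the words between the two cut edges; the outer ends of the cut edges may be visited.
-/

set_option autoImplicit false

namespace Pool.Agent.STR

open Pool.Agent.EXL hiding cc
open Pool.Agent.EXL.Pat Pool.Agent.EXL.Net HexObs HexObs.LP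
open Pool.Agent.NUF.Cyl (Nm)
open Pool.Agent.MXR

variable {K : Type*} [CommRing K] {D : Stp} {N b : ℕ} {hN : 1 ≤ N}

/-- the half edge of the cut in the row i, at the right end. -/
def cR (D : Stp) (i : ℤ) : Pt × Pt := (V (D.o i) i, dL (D.o i) i)

/-- the half edge of the cut in the row i, at the left end. -/
def cL' (D : Stp) (i : ℤ) : Pt × Pt := (V (D.o i - 1) i, dR (D.o i - 1) i)

theorem rv_cR {i : ℤ} (i0 : 0 ≤ i) (i1 : i < N) : (Cs N b hN).rv (cR D i) = cL' D i := rv_L i0 i1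

theorem rv_cL' {i : ℤ} (i0 : 0 ≤ i) (i1 : i < N) : (Cs N b hN).rv (cL' D i) = cR D i := by
  unfold cR cL'
  rw [rv_R i0 i1, sub_add_cancel]

theorem De_cR {i : ℤ} (i0 : 0 ≤ i) (i1 : i < N) : (Cs N b hN).De (cR D i) := ⟨De_V.2 (Or.inr (Or.inl rfl)), nm_V i0 i1⟩

theorem De_cL' {i : ℤ} (i0 : 0 ≤ i) (i1 : i < N) : (Cs N b hN).De (cL' D i) := ⟨De_V.2 (Or.inl rfl), nm_V i0 i1⟩

theorem ed_cR {i : ℤ} (i0 : 0 ≤ i) (i1 : i < N) :
    (Cs N b hN).ed (cR D i) = (Cs N b hN).ed (he (D.o i - 1, i, false)) := by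
  have h := Nm.ed_rv (C := Cs N b hN) (h := cR D i) (De_cR (b := b) (hN := hN) i0 i1).2
  rw [rv_cR i0 i1] at h
  rw [← h]
  rfl

/-- **The word formula with the outer ends.** -/
theorem word_cut (hS : D.d N = D.d 0 + sh N b) (y : K) {n m : ℕ} (hn : 1 ≤ n) {i j : ℤ} (i0 : 0 ≤ i) (i1 : i < N)
    (j0 : 0 ≤ j) (j1 : j < N) (hij : i ≠ j) :
    (CR y (Dm D N n m) * Nm.CO K (Ed N b hN (iB D N n m i j)) (Edg_Ed iB_sub))
        (HS.ind (cup (lf (D.o i) i) (lf (D.o j) j) Pat.empty)) Pat.empty =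
      (Cs N b hN).Ws y (Dm D N n m) {cL' D j} (cL' D i) := by
  classical
  have m0 : (D.o i - 1, i, false) ∈ iA D N n m :=
    (mem_iA D).2 ⟨⟨i0, i1⟩, fun h => by simp at h, fun _ => by omega⟩
  have m1 : (D.o j - 1, j, false) ∈ iA D N n m :=
    (mem_iA D).2 ⟨⟨j0, j1⟩, fun h => by simp at h, fun _ => by omega⟩
  have e1 : (Cs N b hN).ed (cR D i) ∉ Ed N b hN (iB D N n m i j) := by
    intro h
    obtain ⟨t, ht, e⟩ := mem_Ed.1 h
    rw [ed_cR i0 i1] at e
    have h1 : t = (D.o i - 1, i, false) := ed_inj D hS (iB_sub t ht) m0 e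
    subst h1
    exact ((mem_iB D).1 ht).2 ⟨rfl, by ring, Or.inl rfl⟩
  have e2 : (Cs N b hN).ed (cR D j) ∉ Ed N b hN (iB D N n m i j) := by
    intro h
    obtain ⟨t, ht, e⟩ := mem_Ed.1 h
    rw [ed_cR j0 j1] at e
    have h1 : t = (D.o j - 1, j, false) := ed_inj D hS (iB_sub t ht) m1 e
    subst h1
    exact ((mem_iB D).1 ht).2 ⟨rfl, by ring, Or.inr rfl⟩
  have eE : Ed N b hN (iA D N n m) = insert ((Cs N b hN).ed (cR D i))
      (insert ((Cs N b hN).ed (cR D j)) (Ed N b hN (iB D N n m i j))) := by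
    ext e
    rw [Finset.mem_insert, Finset.mem_insert, mem_Ed, mem_Ed, ed_cR i0 i1, ed_cR j0 j1]
    constructor
    · rintro ⟨⟨x, a, c⟩, ht, rfl⟩
      by_cases h : c = false ∧ x - D.o a = -1 ∧ (a = i ∨ a = j)
      · obtain ⟨rfl, h0, rfl | rfl⟩ := h
        · left
          have : x = D.o a - 1 := by omega
          rw [this]
        · right; left
          have : x = D.o a - 1 := by omega
          rw [this]
      · exact Or.inr (Or.inr ⟨(x, a, c), (mem_iB D).2 ⟨ht, h⟩, rfl⟩)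
    · rintro (rfl | rfl | ⟨t, ht, rfl⟩)
      · exact ⟨_, m0, rfl⟩
      · exact ⟨_, m1, rfl⟩
      · exact ⟨t, iB_sub t ht, rfl⟩
  have ab : (Cs N b hN).ed (cR D i) ≠ (Cs N b hN).ed (cR D j) := by
    rw [ed_cR i0 i1, ed_cR j0 j1]
    intro e
    have h1 := ed_inj D hS m0 m1 e
    rw [Prod.mk.injEq, Prod.mk.injEq] at h1
    exact hij h1.2.1
  have uv : (cR D i).1 ≠ (cR D j).1 := by
    intro h
    exact hij (V_inj.1 h).2
  have aA : ∀ {r : ℤ}, 0 ≤ r → r < N → (cR D r).1 ∈ Dm D N n m := by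
    intro r h1 h2
    refine mem_Dm.2 ⟨?_, h1, h2⟩
    omega
  have h1 := GLD.two_cut y (A := Dm D N n m) (Edg_Ed (hN := hN) (b := b) (iB_sub (D := D) (i := i) (j := j)))
    (Edg_Ed (hN := hN) (b := b) (n := n) (m := m) fun _ h => h)
    (a := cR D i) (b := cR D j) (De_cR i0 i1) (De_cR j0 j1) e1 e2 ab eE (aA i0 i1) (aA j0 j1) uv
    (fun w hw d hd => incl hS hw hd)
  rw [rv_cR i0 i1, rv_cR j0 j1] at h1
  exact h1

end Pool.Agent.STR
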