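import Pool.Agent.STR.Word
import Pool.Agent.MXR.Fin
import Pool.Agent.GLD.TwoCut

/-!
# The rings along a stair on sites (project ISO, T9)

`rings_eq0`: the iterated rings of the two halves, evaluated on the glued indicator of the arc of the right ends of
the rows `i`, `j`, are the sum over all words of the slanted cylinder in the rings `-m, .., n - 1` from the cut edge of
the row `i` to the cut edge of the row `j`.  `arc_right`, `arc_left`: the iterated ring of one half, evaluated at the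
empty state on the indicator of an arc, is the sum over the words of the half cylinder.
-/

set_option autoImplicit false

namespace Pool.Agent.STR

open Pool.Agent.EXL hiding cc
open Pool.Agent.EXL.Pat Pool.Agent.EXL.Net HexObs HexObs.LP
open Pool.Agent.NUF.Cyl (Nm Co_eq_glue glue_congr)
open Pool.Agent.NUN (cc Xr Xl)
open Pool.Agent.NUNC (dd)
open Pool.Agent.MXR (V dR dL dU V_inj rt lf vt Rest gS XR XL Co_lft ind_lft De_V two_ended nodup_XR nodup_XL Xr_mem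
  Xl_mem Xl_notMem Xr_notMem cc_XR dd_XR cc_XL dd_XL cc_ne_dd gS_arc iter_pres restL rest_restL CO_congr he)

variable {K : Type*} [CommRing K] {N b : ℕ} {D : Stp}

/-! ### from the sites to the labels -/

theorem gS_lft (l : List (Fin N)) (s t : NUF.St N) (q : Pat (NUF.St N)) :
    ((l.map fun a : Fin N => (Co (lf (D.o ((a : ℕ) : ℤ)) ((a : ℕ) : ℤ)) (rt (D.o ((a : ℕ) : ℤ) - 1) ((a : ℕ) : ℤ)) :
      Op Lab K)).prod)
      (HS.ind (cup (fr D N (fun _ => 0) (fun _ => -1) 0 0 s) (fr D N (fun _ => 0) (fun _ => -1) 0 0 t) Pat.empty))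
        (Fr D (fun _ => 0) (fun _ => -1) 0 0 q) = gS K l (HS.ind (cup s t Pat.empty)) q := by
  induction l generalizing q with
  | nil => exact ind_lft _ (fr_inj _ _ _ _) s t q
  | cons a l ih =>
    unfold gS at ih ⊢
    rw [List.map_cons, List.prod_cons, List.map_cons, List.prod_cons, Module.End.mul_apply, Module.End.mul_apply,
      ← funext ih]
    have e1 : fr D N (fun _ => 0) (fun _ => -1) 0 0 (Xr a) = lf (D.o ((a : ℕ) : ℤ)) ((a : ℕ) : ℤ) := by
      rw [fr_Xr, mul_zero, zero_add]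
    have e2 : fr D N (fun _ => 0) (fun _ => -1) 0 0 (Xl a) = rt (D.o ((a : ℕ) : ℤ) - 1) ((a : ℕ) : ℤ) := by
      rw [fr_Xl]
      congr 1
      ring
    rw [← e1, ← e2]
    exact Co_lft (fr D N (fun _ => 0) (fun _ => -1) 0 0) (fr_inj _ _ _ _) (Xr a) (Xl a) _ q

/-! ### the sorted network on the labels -/

variable (D) in
/-- the item of the line a at the cut. -/
def cI (a : Fin N) : ℤ × ℤ × Bool := (D.o ((a : ℕ) : ℤ) - 1, ((a : ℕ) : ℤ), false)

theorem Ed_eq {n m : ℕ} {i j : Fin N} {l : List (Fin N)} (hl : Rest l i j) :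
    (∀ t, t ∈ cA D N n m ++ l.map (cI D) ↔ t ∈ iB D N n m ((i : ℕ) : ℤ) ((j : ℕ) : ℤ)) := by
  rintro ⟨x, a, c⟩
  unfold iB
  rw [List.mem_append, List.mem_append, mem_gI, List.mem_map]
  constructor
  · rintro (h | ⟨d, hc, e⟩)
    · exact Or.inl h
    · unfold cI at e
      rw [Prod.mk.injEq, Prod.mk.injEq] at e
      obtain ⟨rfl, rfl, rfl⟩ := e
      have h1 := (hl.2 d).1 hc
      refine Or.inr ⟨by ring, rfl, ⟨by positivity, by exact_mod_cast d.2⟩, ?_, ?_⟩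
      · intro h
        exact h1.1 (Fin.ext (by exact_mod_cast h))
      · intro h
        exact h1.2 (Fin.ext (by exact_mod_cast h))
  · rintro (h | ⟨h0, rfl, ⟨h1, h2⟩, h3, h4⟩)
    · exact Or.inl h
    · obtain ⟨d, rfl⟩ := Int.eq_ofNat_of_zero_le h1
      have hc : d < N := by exact_mod_cast h2
      refine Or.inr ⟨⟨d, hc⟩, (hl.2 _).2 ⟨?_, ?_⟩, ?_⟩
      · intro e
        exact h3 (by rw [← e])
      · intro e
        exact h4 (by rw [← e])
      · unfold cI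
        rw [Prod.mk.injEq]
        exact ⟨by simp only; omega, rfl⟩

theorem Ed_congr {hN : 1 ≤ N} {l l' : List (ℤ × ℤ × Bool)} (h : ∀ t, t ∈ l ↔ t ∈ l') :
    Ed N b hN l = Ed N b hN l' := by
  ext e
  rw [mem_Ed, mem_Ed]
  simp only [h]

/-- the network of the rings with the glued function, sorted. -/
theorem sorted (hN : 1 ≤ N) (hS : D.d N = D.d 0 + sh N b) (y : K) {n m : ℕ} {i j : Fin N} {l : List (Fin N)}
    (hl : Rest l i j) (F : Pat Lab → K) :
    (rTot D y N n * lTot D y N m)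
      ((l.map fun a : Fin N => (Co (lf (D.o ((a : ℕ) : ℤ)) ((a : ℕ) : ℤ))
        (rt (D.o ((a : ℕ) : ℤ) - 1) ((a : ℕ) : ℤ)) : Op Lab K)).prod F) Pat.empty =
      (CR y (Dm D N n m) * Nm.CO K (Ed N b hN (iB D N n m ((i : ℕ) : ℤ) ((j : ℕ) : ℤ))) (Edg_Ed iB_sub)) F
        Pat.empty := by
  rw [tot_sort (hN := hN) D hS, CR_vA]
  have h1 : ∀ a : Fin N, (CoS ((Cs N b hN).ed (he (cI D a))) : Op Lab K) =
      Co (lf (D.o ((a : ℕ) : ℤ)) ((a : ℕ) : ℤ)) (rt (D.o ((a : ℕ) : ℤ) - 1) ((a : ℕ) : ℤ)) := by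
    intro a
    unfold cI
    rw [Ced_false (by positivity) (by exact_mod_cast a.2), sub_add_cancel]
    exact Co_symm _ _
  have h2 : (l.map fun a : Fin N => (Co (lf (D.o ((a : ℕ) : ℤ)) ((a : ℕ) : ℤ))
      (rt (D.o ((a : ℕ) : ℤ) - 1) ((a : ℕ) : ℤ)) : Op Lab K)) =
      (l.map (cI D)).map (fun t => (CoS ((Cs N b hN).ed (he t)) : Op Lab K)) := by
    rw [List.map_map]
    exact List.map_congr_left fun a _ => (h1 a).symm
  have hm := Ed_eq (D := D) (n := n) (m := m) hl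
  have hs : ∀ t ∈ cA D N n m ++ l.map (cI D), t ∈ iA D N n m := fun t ht => iB_sub t ((hm t).1 ht)
  have hn : (cA D N n m ++ l.map (cI D)).Nodup := by
    have h3 := nodup_iA D N n m
    unfold iA at h3
    rw [List.nodup_append] at h3 ⊢
    refine ⟨h3.1, ?_, ?_⟩
    · refine hl.1.map ?_
      intro a c e
      unfold cI at e
      rw [Prod.mk.injEq, Prod.mk.injEq] at e
      exact Fin.ext (by exact_mod_cast e.2.1)
    · intro t ht t' ht' e
      rw [List.mem_map] at ht'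
      obtain ⟨a, -, rfl⟩ := ht'
      exact h3.2.2 t ht (cI D a) (List.mem_map.2 ⟨(a : ℕ), List.mem_range.2 a.2, rfl⟩) e
  have h4 := CO_Ed (K := K) (hN := hN) hS hs hn
  rw [List.map_append, List.prod_append] at h4
  rw [h2]
  have h5 : ∀ (A B C : Op Lab K), (A * B) (C F) Pat.empty = (A * (B * C)) F Pat.empty := fun A B C => rfl
  rw [h5, h4]
  rw [CO_congr (K := K) (Edg_Ed hs) (Edg_Ed iB_sub) (Ed_congr hm)]

/-- **The rings of both halves = the sorted network.** -/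
theorem rings_eq (hN : 1 ≤ N) (hS : D.d N = D.d 0 + sh N b) (y : K) {n m : ℕ} {i j : Fin N} {l : List (Fin N)}
    (hl : Rest l i j) (s t : NUF.St N) :
    (NUG.ringF (wD D y N) cc dd (XR N))^[n] ((NUG.ringF (wD D y N) cc dd (XL N))^[m]
      (gS K l (HS.ind (cup s t Pat.empty)))) Pat.empty =
      (CR y (Dm D N n m) * Nm.CO K (Ed N b hN (iB D N n m ((i : ℕ) : ℤ) ((j : ℕ) : ℤ))) (Edg_Ed iB_sub))
        (HS.ind (cup (fr D N (fun _ => 0) (fun _ => -1) 0 0 s) (fr D N (fun _ => 0) (fun _ => -1) 0 0 t)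
          Pat.empty)) Pat.empty := by
  rw [← sorted hN hS y hl, tot_eq]
  have e : (fun q => ((l.map fun a : Fin N => (Co (lf (D.o ((a : ℕ) : ℤ)) ((a : ℕ) : ℤ))
      (rt (D.o ((a : ℕ) : ℤ) - 1) ((a : ℕ) : ℤ)) : Op Lab K)).prod)
        (HS.ind (cup (fr D N (fun _ => 0) (fun _ => -1) 0 0 s) (fr D N (fun _ => 0) (fun _ => -1) 0 0 t) Pat.empty))
          (Fr D (fun _ => 0) (fun _ => -1) 0 0 q)) =
      gS K l (HS.ind (cup s t Pat.empty)) := funext fun q => gS_lft l s t q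
  rw [e]
  rfl

/-! ### the cut edges -/

variable (D) in
/-- the half edge of the row `i` at the first vertex of the right part. -/
def bR (i : ℤ) : Pt × Pt := (V (D.o i) i, dL (D.o i) i)

variable (D) in
/-- the half edge of the row `i` at the last vertex of the left part. -/
def bL (i : ℤ) : Pt × Pt := (V (D.o i - 1) i, dR (D.o i - 1) i)

theorem De_bR (hN : 1 ≤ N) {i : ℤ} (h1 : 0 ≤ i) (h2 : i < N) : (Cs N b hN).De (bR D i) :=
  ⟨De_V.2 (Or.inr (Or.inl rfl)), nm_V h1 h2⟩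

theorem De_bL (hN : 1 ≤ N) {i : ℤ} (h1 : 0 ≤ i) (h2 : i < N) : (Cs N b hN).De (bL D i) :=
  ⟨De_V.2 (Or.inl rfl), nm_V h1 h2⟩

theorem rv_bR (hN : 1 ≤ N) {i : ℤ} (h1 : 0 ≤ i) (h2 : i < N) : (Cs N b hN).rv (bR D i) = bL D i := by
  unfold bR bL
  rw [rv_L h1 h2]

theorem rv_bL (hN : 1 ≤ N) {i : ℤ} (h1 : 0 ≤ i) (h2 : i < N) : (Cs N b hN).rv (bL D i) = bR D i := by
  unfold bR bL
  rw [rv_R h1 h2, sub_add_cancel]

theorem ed_bR (hN : 1 ≤ N) {i : ℤ} (h1 : 0 ≤ i) (h2 : i < N) :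
    (Cs N b hN).ed (bR D i) = (Cs N b hN).ed (he (D.o i - 1, i, false)) := by
  rw [← Nm.ed_rv (h := bR D i) (De_bR hN h1 h2).2, rv_bR hN h1 h2]
  rfl

theorem mem_cut {n m : ℕ} {i : ℤ} (h1 : 0 ≤ i) (h2 : i < N) : (D.o i - 1, i, false) ∈ iA D N n m :=
  (mem_iA D).2 ⟨⟨h1, h2⟩, fun h => by simp at h, fun _ => by omega⟩

theorem cut_notMem (hN : 1 ≤ N) (hS : D.d N = D.d 0 + sh N b) {n m : ℕ} {i j a : ℤ} (h1 : 0 ≤ a) (h2 : a < N)
    (h : a = i ∨ a = j) :
    (Cs N b hN).ed (he (D.o a - 1, a, false)) ∉ Ed N b hN (iB D N n m i j) := by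
  intro h3
  obtain ⟨t, ht, e⟩ := mem_Ed.1 h3
  have h4 : t = (D.o a - 1, a, false) := ed_inj D hS (iB_sub t ht) (mem_cut h1 h2) e
  subst h4
  exact ((mem_iB D).1 ht).2 ⟨rfl, by ring, h⟩

theorem Ed_insert (hN : 1 ≤ N) {n m : ℕ} {i j : ℤ} (i0 : 0 ≤ i) (i1 : i < N) (j0 : 0 ≤ j)
    (j1 : j < N) : Ed N b hN (iA D N n m) = insert ((Cs N b hN).ed (he (D.o i - 1, i, false)))
      (insert ((Cs N b hN).ed (he (D.o j - 1, j, false))) (Ed N b hN (iB D N n m i j))) := by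
  ext e
  rw [Finset.mem_insert, Finset.mem_insert, mem_Ed, mem_Ed]
  constructor
  · rintro ⟨⟨x, a, c⟩, ht, rfl⟩
    by_cases h : c = false ∧ x - D.o a = -1 ∧ (a = i ∨ a = j)
    · obtain ⟨rfl, h0, rfl | rfl⟩ := h
      · have : x = D.o a - 1 := by omega
        subst this
        exact Or.inl rfl
      · have : x = D.o a - 1 := by omega
        subst this
        exact Or.inr (Or.inl rfl)
    · exact Or.inr (Or.inr ⟨(x, a, c), (mem_iB D).2 ⟨ht, h⟩, rfl⟩)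
  · rintro (rfl | rfl | ⟨t, ht, rfl⟩)
    · exact ⟨_, mem_cut i0 i1, rfl⟩
    · exact ⟨_, mem_cut j0 j1, rfl⟩
    · exact ⟨t, iB_sub t ht, rfl⟩

/-- **The rings of both halves = the words of the slanted cylinder.** -/
theorem rings_eq0 (hN : 1 ≤ N) (hS : D.d N = D.d 0 + sh N b) (y : K) {n m : ℕ} (hn : 1 ≤ n) {i j : Fin N}
    (hij : i ≠ j) {l : List (Fin N)} (hl : Rest l i j) :
    (NUG.ringF (wD D y N) cc dd (XR N))^[n] ((NUG.ringF (wD D y N) cc dd (XL N))^[m]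
      (gS K l (HS.ind (cup (Xr i) (Xr j) Pat.empty)))) Pat.empty =
      (Cs N b hN).Ws y (Dm D N n m) {bL D ((j : ℕ) : ℤ)} (bL D ((i : ℕ) : ℤ)) := by
  have i0 : (0 : ℤ) ≤ ((i : ℕ) : ℤ) := by positivity
  have i1 : ((i : ℕ) : ℤ) < N := by exact_mod_cast i.2
  have j0 : (0 : ℤ) ≤ ((j : ℕ) : ℤ) := by positivity
  have j1 : ((j : ℕ) : ℤ) < N := by exact_mod_cast j.2
  have hne : ((i : ℕ) : ℤ) ≠ ((j : ℕ) : ℤ) := fun e => hij (Fin.ext (by exact_mod_cast e))
  rw [rings_eq hN hS y hl, fr_Xr, fr_Xr, mul_zero, zero_add, zero_add]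
  have h1 := GLD.two_cut y (A := Dm D N n m) (E := Ed N b hN (iB D N n m ((i : ℕ) : ℤ) ((j : ℕ) : ℤ)))
    (E' := Ed N b hN (iA D N n m)) (Edg_Ed iB_sub) (Edg_Ed fun _ h => h)
    (a := bR D ((i : ℕ) : ℤ)) (b := bR D ((j : ℕ) : ℤ)) (De_bR hN i0 i1) (De_bR hN j0 j1)
    (by rw [ed_bR hN i0 i1]; exact cut_notMem hN hS i0 i1 (Or.inl rfl))
    (by rw [ed_bR hN j0 j1]; exact cut_notMem hN hS j0 j1 (Or.inr rfl))
    (by
      rw [ed_bR hN i0 i1, ed_bR hN j0 j1]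
      intro e
      have h := ed_inj D hS (mem_cut (n := n) (m := m) i0 i1) (mem_cut j0 j1) e
      rw [Prod.mk.injEq, Prod.mk.injEq] at h
      exact hne h.2.1)
    (by rw [ed_bR hN i0 i1, ed_bR hN j0 j1]; exact Ed_insert hN i0 i1 j0 j1)
    (mem_Dm.2 ⟨by constructor <;> omega, i0, i1⟩) (mem_Dm.2 ⟨by constructor <;> omega, j0, j1⟩)
    (by
      unfold bR
      intro e
      simp only at e
      rw [V_inj] at e
      exact hne e.2)
    (fun w hw d hd => incl hS hw hd)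
  rw [rv_bR hN i0 i1, rv_bR hN j0 j1] at h1
  exact h1

/-! ### the half cylinders -/

theorem Dm0_right (n : ℕ) (i j : ℤ) : Dm0 D N n 0 i j = Dm D N n 0 := by
  unfold Dm0
  have h : ∀ a : ℤ, V (D.o a - 1) a ∉ Dm D N n 0 := by
    intro a
    rw [mem_Dm]
    push_cast
    omega
  rw [Finset.erase_eq_of_notMem (h i), Finset.erase_eq_of_notMem (h j)]

/-- **The iterated ring of the right half on an arc.** -/
theorem arc_right (hN : 1 ≤ N) (hS : D.d N = D.d 0 + sh N b) (y : K) {i j : Fin N} (hij : i ≠ j) (n : ℕ) :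
    (NUG.ringF (wD D y N) cc dd (XR N))^[n] (HS.ind (cup (Xr i) (Xr j) Pat.empty)) Pat.empty =
      (Cs N b hN).Ws y (Dm D N n 0) {bL D ((j : ℕ) : ℤ)} (bL D ((i : ℕ) : ℤ)) := by
  have h1 := rings_eq hN hS y (n := n) (m := 0) (rest_restL i j) (Xr i) (Xr j)
  rw [fr_Xr, fr_Xr, mul_zero, zero_add, zero_add] at h1
  have h2 := word (hN := hN) D hS y (n := n) (m := 0) (i := ((i : ℕ) : ℤ)) (j := ((j : ℕ) : ℤ)) (by positivity)
    (by exact_mod_cast i.2) (by positivity) (by exact_mod_cast j.2)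
    (fun e => hij (Fin.ext (by exact_mod_cast e)))
  rw [Dm0_right] at h2
  rw [h2] at h1
  unfold bL
  rw [← h1]
  refine (iter_pres (NUG.pres_ringF _ (nodup_XR _) (cc_ne_dd _) (cc_XR _) (dd_XR _)) n (fun p hp => ?_) _
    (NUF.ax_empty _)).symm
  exact gS_arc (K := K) (fun a ha => ((rest_restL i j).2 a).1 ha) false (fun a => NUF.ax_out hp (Xl_notMem a))

/-- the word formula, arcs of the left half. -/
theorem word_left (hN : 1 ≤ N) (hS : D.d N = D.d 0 + sh N b) (y : K) {m : ℕ} {i j : ℤ} (i0 : 0 ≤ i) (i1 : i < N)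
    (j0 : 0 ≤ j) (j1 : j < N) (hij : i ≠ j) :
    (CR y (Dm D N 0 m) * Nm.CO K (Ed N b hN (iB D N 0 m i j)) (Edg_Ed iB_sub))
        (HS.ind (cup (rt (D.o i - 1) i) (rt (D.o j - 1) j) Pat.empty)) Pat.empty =
      (Cs N b hN).Ws y (Dm D N 0 m) {bR D j} (bR D i) := by
  classical
  have a1 : V (D.o i) i ∉ Dm D N 0 m := by
    rw [mem_Dm]
    push_cast
    omega
  have a2 : V (D.o j) j ∉ Dm D N 0 m := by
    rw [mem_Dm]
    push_cast
    omega
  have hne : bR D i ≠ bR D j := by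
    unfold bR
    rw [Ne, Prod.mk.injEq, V_inj]
    exact fun h => hij h.1.2
  have hne' : (Cs N b hN).rv (bR D i) ≠ bR D j := by
    rw [rv_bR hN i0 i1]
    unfold bR bL
    rw [Ne, Prod.mk.injEq, V_inj]
    exact fun h => hij h.1.2
  have h1 := two_ended y (E := Ed N b hN (iB D N 0 m i j)) (Edg_Ed iB_sub) (De_bR (D := D) (b := b) hN i0 i1) (De_bR (D := D) hN j0 j1) a1 a2 hne hne'
    (by rw [ed_bR hN i0 i1]; exact cut_notMem hN hS i0 i1 (Or.inl rfl))
    (by rw [ed_bR hN j0 j1]; exact cut_notMem hN hS j0 j1 (Or.inr rfl)) (Ed N b hN (iA D N 0 m))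
    (Edg_Ed fun _ h => h) (by rw [ed_bR hN i0 i1, ed_bR hN j0 j1]; exact Ed_insert hN i0 i1 j0 j1)
  rw [rv_bR hN i0 i1, rv_bR hN j0 j1] at h1
  refine h1.trans ?_
  refine Nm.main y {bR D j} _ (Dm D N 0 m) rfl _ (Edg_Ed fun _ h => h)
    (bR D i) (De_bR hN i0 i1) a1 ?_ ?_ ?_ ?_
  · rw [ed_bR hN i0 i1]
    exact mem_Ed.2 ⟨_, mem_cut i0 i1, rfl⟩
  · intro w hw d hd
    exact incl hS hw hd
  · intro h hh
    rw [Finset.mem_singleton] at hh
    rw [hh]
    exact a2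
  · rw [Finset.mem_singleton]
    exact hne

/-- **The iterated ring of the left half on an arc.** -/
theorem arc_left (hN : 1 ≤ N) (hS : D.d N = D.d 0 + sh N b) (y : K) {i j : Fin N} (hij : i ≠ j) (m : ℕ) :
    (NUG.ringF (wD D y N) cc dd (XL N))^[m] (HS.ind (cup (Xl i) (Xl j) Pat.empty)) Pat.empty =
      (Cs N b hN).Ws y (Dm D N 0 m) {bR D ((j : ℕ) : ℤ)} (bR D ((i : ℕ) : ℤ)) := by
  have h1 := rings_eq hN hS y (n := 0) (m := m) (rest_restL i j) (Xl i) (Xl j)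
  have e : ∀ z : ℤ, 2 * (-1) + z + 1 = z - 1 := fun z => by ring
  rw [fr_Xl, fr_Xl, e, e] at h1
  have h2 := word_left hN hS y (m := m) (i := ((i : ℕ) : ℤ)) (j := ((j : ℕ) : ℤ)) (by positivity)
    (by exact_mod_cast i.2) (by positivity) (by exact_mod_cast j.2)
    (fun e => hij (Fin.ext (by exact_mod_cast e)))
  rw [h2] at h1
  rw [← h1]
  refine (iter_pres (NUG.pres_ringF _ (nodup_XL _) (cc_ne_dd _) (cc_XL _) (dd_XL _)) m (fun p hp => ?_) _
    (NUF.ax_empty _)).symm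
  exact gS_arc (K := K) (fun a ha => ((rest_restL i j).2 a).1 ha) true (fun a => NUF.ax_out hp (Xr_notMem a))

end Pool.Agent.STR
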