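import Pool.Agent.STR.Brick

/-!
# Stairs (project ISO, T9)

A stair is a path `d : ℤ → ℤ` with steps `±1`; a row with a step `+1` is normal, a row with a step `-1` is mirrored.
-/

set_option autoImplicit false

namespace Pool.Agent.STR

/-- stairs. -/
structure Stp where
  d : ℤ → ℤ
  st : ∀ i, d (i + 1) = d i + 1 ∨ d (i + 1) = d i - 1
  pr : d 0 % 2 = 0

namespace Stp

variable (D : Stp)

/-- the row is mirrored. -/
def mi (i : ℤ) : Bool := decide (D.d (i + 1) < D.d i)

/-- the left end of the cell of the ring 0 in the row i. -/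
def o (i : ℤ) : ℤ := min (D.d i) (D.d (i + 1))

theorem cases (i : ℤ) : (D.mi i = false ∧ D.o i = D.d i ∧ D.d (i + 1) = D.d i + 1) ∨
    (D.mi i = true ∧ D.o i = D.d i - 1 ∧ D.d (i + 1) = D.d i - 1) := by
  rcases D.st i with h | h
  · left
    refine ⟨?_, ?_, h⟩
    · unfold mi
      rw [decide_eq_false_iff_not]
      omega
    · unfold o
      omega
  · right
    refine ⟨?_, ?_, h⟩
    · unfold mi
      rw [decide_eq_true_iff]
      omega
    · unfold o
      omega

theorem par (i : ℤ) : (D.d i - i) % 2 = 0 := by
  induction i using Int.induction_on with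
  | zero =>
    have := D.pr
    omega
  | succ i ih =>
    have := D.st i
    omega
  | pred i ih =>
    have h := D.st (-(i : ℤ) - 1)
    have e : -(i : ℤ) - 1 + 1 = -i := by ring
    rw [e] at h
    omega

end Stp

end Pool.Agent.STR
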