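import Pool.Agent.MXR.Cell
import Pool.Agent.NUNC.Front
import Pool.Agent.STR.Stp

/-!
# The weights of the lines of a stair (project ISO, T9)

`wD D y N`: the line of the row `i` has the normal cell if `D` steps up at `i` and the mirrored cell otherwise.
The ring of a stair is `NUG.ringF (wD D y N) cc dd (XR N)` (right side), `NUG.ringF (wD D y N) cc dd (XL N)` (left
side) with `XR`, `XL` of `MXR/Fin`.
-/

set_option autoImplicit false

namespace Pool.Agent.STR

open Pool.Agent.EXL hiding cc
open Pool.Agent.NUN (cc Xr Xl)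
open Pool.Agent.MXR

variable {K : Type*} [CommRing K] {N : ℕ} {D : Stp}

/-- the weights of the lines. -/
def wD (D : Stp) (y : K) (N : ℕ) : NUF.St N → Wt K
  | Sum.inl (i, _) => cellW y (D.mi ((i : ℕ) : ℤ))
  | Sum.inr _ => hexW y

theorem wD_Xr (y : K) (i : Fin N) : wD D y N (Xr i) = cellW y (D.mi ((i : ℕ) : ℤ)) := rfl

theorem wD_Xl (y : K) (i : Fin N) : wD D y N (Xl i) = cellW y (D.mi ((i : ℕ) : ℤ)) := rfl

end Pool.Agent.STR
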