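import Pool.Agent.MXR.Hex
import Pool.Agent.STR.Wts

/-!
# The rows of a stair are rhombi of the angles π / 8 and π / 4 (project ISO, T9)
-/

set_option autoImplicit false

namespace Pool.Agent.STR

open Pool.Agent.EXL hiding cc
open Pool.Agent.EXL.Pat Pool.Agent.EXL.Net
open HexObs (xc)
open Pool.Agent.NUN (cc Xr Xl)
open Pool.Agent.NUNC (dd)
open Pool.Agent.EXL.Fm (lam)
open Pool.Agent.MXR

/-- the rapidity of a row: `0` for a normal row, `- lam` for a mirrored row. -/
noncomputable def zrow (b : Bool) : ℂ := if b then -lam else 0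

/-- **The rapidities of the lines.** -/
noncomputable def zD (D : Stp) (N : ℕ) : NUF.St N → ℂ
  | Sum.inl (i, _) => zrow (D.mi ((i : ℕ) : ℤ))
  | Sum.inr _ => 0

variable {N : ℕ} {D : Stp}

theorem zD_Xr (i : Fin N) : zD D N (Xr i) = zrow (D.mi ((i : ℕ) : ℤ)) := rfl

theorem zD_Xl (i : Fin N) : zD D N (Xl i) = zrow (D.mi ((i : ℕ) : ℤ)) := rfl

theorem zrow_wt (b : Bool) : rwt (Real.pi / 8 - zrow b) = (cellW xc b).map Complex.ofRealHom := by
  rw [cellW_map]
  unfold zrow cellW
  cases b
  · simp only [Bool.false_eq_true, if_false]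
    rw [sub_zero, rwt_hex]
    rfl
  · simp only [if_true]
    have e : (Real.pi : ℂ) / 8 - -lam = Real.pi / 4 := by
      unfold Fm.lam
      ring
    rw [e, rwt_hexM]
    rfl

/-- **The weights of the lines are the rhombus weights of the rapidities.** -/
theorem zD_wt (j : NUF.St N) :
    rwt (Real.pi / 8 - zD D N j) = (wD D xc N j).map Complex.ofRealHom := by
  rcases j with ⟨i, b⟩ | s
  · exact zrow_wt _
  · show rwt (Real.pi / 8 - 0) = (hexW xc).map Complex.ofRealHom
    rw [sub_zero, rwt_hex, hexW_map]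
    rfl

/-- **The weights of the lines are positive.** -/
theorem wD_WP {x : ℝ} (hx : 0 < x) (j : NUF.St N) : UNI.Mv.WP (wD D x N j) := by
  rcases j with ⟨i, b⟩ | s
  · exact cellW_WP hx _
  · exact NUG.hexW_WP hx

end Pool.Agent.STR
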