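import Pool.Agent.STR.MajS
import Pool.Agent.STR.Fin
import Pool.Agent.MXD.ArcD

/-!
# The two-point function of a stair is the sum over the words of the slanted cylinder (project ISO, T9, row M3')

For every stair `D`, `N ≥ 3` rows and every translation `(N - 2 b, N)` of the stair both rings have the majorant
property (`majB`), hence they are regular and their functionals exist, are unique and positive.  For `N = 2 k` the
two-point function `WS D hk` of the cut rows `0` and `k` is the limit (the supremum) of the sums over the words of the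
cylinder `Cs (2 k) b` in the rings `-m, .., m - 1` from the cut edge of the row `0` to the cut edge of the row `k`.
-/

set_option autoImplicit false

namespace Pool.Agent.STR

open Pool.Agent.EXL hiding cc
open Pool.Agent.EXL.Pat Pool.Agent.EXL.Net HexObs HexObs.LP Filter Topology
open Pool.Agent.NUF
open Pool.Agent.NUF.Cyl (Nm)
open Pool.Agent.NUN (cc Xr Xl)
open Pool.Agent.NUNC (dd)
open Pool.Agent.MXR (V dR dL V_inj XR XL gS Rest rowI rowJ prs r0 rk rest_rows)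

variable {N b k : ℕ} {D : Stp}

/-- two of the rows `0`, `1`, `2` have the same type. -/
theorem exists_same (D : Stp) (h3 : 3 ≤ N) : ∃ i j : Fin N, i ≠ j ∧ D.mi ((i : ℕ) : ℤ) = D.mi ((j : ℕ) : ℤ) := by
  have h01 : (⟨0, by omega⟩ : Fin N) ≠ ⟨1, by omega⟩ := by
    rw [Ne, Fin.mk.injEq]
    omega
  have h02 : (⟨0, by omega⟩ : Fin N) ≠ ⟨2, by omega⟩ := by
    rw [Ne, Fin.mk.injEq]
    omega
  have h12 : (⟨1, by omega⟩ : Fin N) ≠ ⟨2, by omega⟩ := by
    rw [Ne, Fin.mk.injEq]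
    omega
  by_cases e1 : D.mi (((0 : ℕ) : ℕ) : ℤ) = D.mi (((1 : ℕ) : ℕ) : ℤ)
  · exact ⟨_, _, h01, e1⟩
  · by_cases e2 : D.mi (((0 : ℕ) : ℕ) : ℤ) = D.mi (((2 : ℕ) : ℕ) : ℤ)
    · exact ⟨_, _, h02, e2⟩
    · refine ⟨_, _, h12, ?_⟩
      show D.mi (((1 : ℕ) : ℕ) : ℤ) = D.mi (((2 : ℕ) : ℕ) : ℤ)
      cases a0 : D.mi (((0 : ℕ) : ℕ) : ℤ) <;> cases a1 : D.mi (((1 : ℕ) : ℕ) : ℤ) <;>
        cases a2 : D.mi (((2 : ℕ) : ℕ) : ℤ) <;> simp_all

theorem fin_rg (i : Fin N) : (0 : ℤ) ≤ ((i : ℕ) : ℤ) ∧ ((i : ℕ) : ℤ) < (N : ℤ) :=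
  ⟨by positivity, by exact_mod_cast i.2⟩

/-- **The rings of a stair have the majorant property** if two rows have the same type. -/
theorem majB_of_same (hS : D.d N = D.d 0 + sh N b) {i j : Fin N} (hij : i ≠ j)
    (h : D.mi ((i : ℕ) : ℤ) = D.mi ((j : ℕ) : ℤ)) : MajB D N := by
  have hN : 1 ≤ N := by have := i.2; omega
  refine majB_of_arc hij hij (B := 1 / Real.cos (3 * Real.pi / 8)) (B' := 1 / Real.cos (3 * Real.pi / 8))
    (fun n _ => ?_) fun n _ => ?_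
  · rw [arc_right hN hS xc hij n]
    exact MXD.arcR0 D hN hS (fin_rg i) (fin_rg j) h n
  · rw [arc_left hN hS xc hij n]
    exact MXD.arcL0 D hN hS (fin_rg i) (fin_rg j) h n

/-- **The rings of a stair with at least three rows have the majorant property.** -/
theorem majB (h3 : 3 ≤ N) (hS : D.d N = D.d 0 + sh N b) : MajB D N := by
  obtain ⟨i, j, hij, h⟩ := exists_same D h3
  exact majB_of_same hS hij h

/-! ### words -/

theorem two_k (hk : 1 ≤ k) : 1 ≤ 2 * k := by omega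

theorem r0_ne_rk (hk : 1 ≤ k) : r0 hk ≠ rk hk := by
  intro e
  have := congrArg Fin.val e
  unfold r0 rk at this
  simp at this
  omega

/-- the sum over the words of the cylinder `Cs (2 k) b` in the rings `-m, .., n - 1` from the cut edge of the row `0`
to the cut edge of the row `k`. -/
noncomputable def Wn (D : Stp) (b : ℕ) (hk : 1 ≤ k) (n m : ℕ) : ℝ :=
  (Cs (2 * k) b (two_k hk)).Ws xc (Dm D (2 * k) n m) {bL D (k : ℤ)} (bL D 0)

/-- **The iterated rings are the words.** -/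
theorem RS_eq (hk : 1 ≤ k) (hS : D.d ((2 * k : ℕ) : ℤ) = D.d 0 + sh (2 * k) b) {n m : ℕ} (hn : 1 ≤ n) :
    RS D hk n m = Wn D b hk n m :=
  rings_eq0 (K := ℝ) (two_k hk) hS xc hn (r0_ne_rk hk) (rest_rows hk)

theorem Dm_mono2 {n n' m m' : ℕ} (h : n ≤ n') (h' : m ≤ m') : Dm D N n m ⊆ Dm D N n' m' := by
  intro v hv
  obtain ⟨x, i, rfl, ⟨h1, h2⟩, h3, h4⟩ := exists_of_mem_Dm hv
  exact mem_Dm.2 ⟨⟨by omega, by omega⟩, h3, h4⟩

theorem arr_mono {C : Nm} {A B : Finset Pt} {p : Pt × Pt} {t : List Bool} (h : A ⊆ B) (ht : C.Arr A p t) :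
    C.Arr B p t := ⟨fun i h1 h2 => h (ht.mem i h1 h2), ht.inj⟩

theorem Ws_mono {C : Nm} {A B : Finset Pt} (h : A ⊆ B) (T : Finset (Pt × Pt)) (p : Pt × Pt) {x : ℝ} (hx : 0 ≤ x) :
    C.Ws x A T p ≤ C.Ws x B T p := by
  unfold Nm.Ws
  refine Finset.sum_le_sum_of_subset_of_nonneg ?_ fun t _ _ => pow_nonneg hx _
  intro t ht
  rw [Finset.mem_filter, Nm.mem_arr] at ht ⊢
  exact ⟨arr_mono h ht.1, ht.2⟩

theorem Wn_mono2 (hk : 1 ≤ k) {n n' m m' : ℕ} (h : n ≤ n') (h' : m ≤ m') : Wn D b hk n m ≤ Wn D b hk n' m' :=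
  Ws_mono (Dm_mono2 h h') _ _ xc_pos.le

theorem Wn_mono (hk : 1 ≤ k) : Monotone fun m => Wn D b hk m m := fun _ _ h => Wn_mono2 hk h h

theorem Wn_nn (hk : 1 ≤ k) (n m : ℕ) : 0 ≤ Wn D b hk n m := Finset.sum_nonneg fun _ _ => pow_nonneg xc_pos.le _

/-- **The two-point function is the limit of the words.** -/
theorem Wn_lim (hk : 2 ≤ k) (hS : D.d ((2 * k : ℕ) : ℤ) = D.d 0 + sh (2 * k) b) :
    Tendsto (fun m => Wn D b (by omega : 1 ≤ k) m m) atTop (𝓝 (WS D (by omega : 1 ≤ k)).re) := by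
  have h1 := (WS_real (D := D) (by omega : 1 ≤ k) (majB (by omega) hS)).2.2
  refine h1.congr' ?_
  filter_upwards [eventually_ge_atTop 1] with m hm
  exact RS_eq _ hS hm

/-- the value is real and non-negative. -/
theorem WS_real' (hk : 2 ≤ k) (hS : D.d ((2 * k : ℕ) : ℤ) = D.d 0 + sh (2 * k) b) :
    WS D (by omega : 1 ≤ k) = ((WS D (by omega : 1 ≤ k)).re : ℂ) ∧ 0 ≤ (WS D (by omega : 1 ≤ k)).re :=
  ⟨(WS_real (D := D) (by omega : 1 ≤ k) (majB (by omega) hS)).1,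
    (WS_real (D := D) (by omega : 1 ≤ k) (majB (by omega) hS)).2.1⟩

theorem Wn_le (hk : 2 ≤ k) (hS : D.d ((2 * k : ℕ) : ℤ) = D.d 0 + sh (2 * k) b) (n m : ℕ) :
    Wn D b (by omega : 1 ≤ k) n m ≤ (WS D (by omega : 1 ≤ k)).re := by
  refine (Wn_mono2 _ (le_max_left n m) (le_max_right n m)).trans ?_
  exact (Wn_mono _).ge_of_tendsto (Wn_lim hk hS) (max n m)

/-- **The two-point function is the supremum of the words.** -/
theorem WS_iSup (hk : 2 ≤ k) (hS : D.d ((2 * k : ℕ) : ℤ) = D.d 0 + sh (2 * k) b) :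
    ENNReal.ofReal (WS D (by omega : 1 ≤ k)).re = ⨆ m, ENNReal.ofReal (Wn D b (by omega : 1 ≤ k) m m) := by
  refine tendsto_nhds_unique ?_ (tendsto_atTop_iSup fun a b h => ENNReal.ofReal_le_ofReal (Wn_mono _ h))
  exact (ENNReal.continuous_ofReal.tendsto _).comp (Wn_lim hk hS)

end Pool.Agent.STR
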