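import Pool.Agent.STR.PubO
import Pool.Agent.STR.Alt

/-!
# The two-point function of two edges of different kinds (project ISO, T9, k odd)

* `cls_CsO`: the classes of `Cs (2 n) (2 b + 1)` are the classes modulo `per u`, `u = (-b - 1, n)`;
* `hasSum_strO`: a limit of the sums over the words of the rings is the generating function of the walks;
* **`TwoO.hasSum_WS`**: a stair with `2 n` rows whose row `0` is normal and whose row `n` is mirrored, `d 0 = 0`,
  `d n = n - 2 b`, `d (2 n) = 2 n - 4 b - 2`: its two-point function is the generating function of the walks `sawsO`;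
* **`hasSum_WkO`**: `NU5.Wk k`, `k` odd, `k ≥ 3`, for the alternating stair (direction of 30 degrees).
-/

set_option autoImplicit false

namespace Pool.Agent.STR

open Pool.Agent.EXL hiding cc
open Pool.Agent.EXL.Pat Pool.Agent.EXL.Net HexObs HexObs.LP Filter Topology
open Pool.Agent.NUF.Cyl (Nm ri pL)
open Pool.Agent.NUN (cc Xr Xl)
open Pool.Agent.NUNC (dd)
open Pool.Agent.MXR
open Pool.Agent.HexTwo (ps ps_A ps_B ClsO pEO per sawsO zc hasSum_genO)

/-- **the classes of the slanted cylinder, odd period.** -/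
theorem cls_CsO {n b : ℕ} (h : 1 ≤ 2 * n) :
    ClsO (Cs (2 * n) (2 * b + 1) h) (per (-(b : ℤ) - 1, (n : ℤ))) := by
  intro u v hu hv
  obtain ⟨x, i, rfl⟩ := exists_V hu
  obtain ⟨y, j, rfl⟩ := exists_V hv
  rw [nm_Vm, nm_Vm, V_inj, ps_V, ps_V]
  have hi := Int.mul_ediv_add_emod i ((2 * n : ℕ) : ℤ)
  have hj := Int.mul_ediv_add_emod j ((2 * n : ℕ) : ℤ)
  have hn0 : ((2 * n : ℕ) : ℤ) ≠ 0 := by omega
  unfold STR.sh per
  constructor
  · rintro ⟨h1, h2⟩
    refine ⟨i / ((2 * n : ℕ) : ℤ) - j / ((2 * n : ℕ) : ℤ), ?_⟩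
    obtain ⟨s, hs⟩ : ∃ s, s = i / ((2 * n : ℕ) : ℤ) - j / ((2 * n : ℕ) : ℤ) := ⟨_, rfl⟩
    rw [← hs]
    have e1 : i = j + ((2 * n : ℕ) : ℤ) * s := by
      rw [hs]
      linear_combination hj - hi + h2
    have e2 : x = y + (((2 * n : ℕ) : ℤ) - 2 * ((2 * b + 1 : ℕ) : ℤ)) * s := by
      rw [hs]
      linear_combination h1
    have e3 : x - i = (y - j) + 2 * (s * (2 * (-(b : ℤ) - 1) + 1)) := by
      rw [e1, e2]
      push_cast
      ring
    unfold HexTwo.sh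
    refine Prod.ext ?_ (Prod.ext ?_ ?_)
    · show (x - i) / 2 = (y - j) / 2 + s * (2 * (-(b : ℤ) - 1) + 1)
      rw [e3]
      omega
    · show i = j + s * (2 * (n : ℤ))
      rw [e1]
      push_cast
      ring
    · show decide ((x - i) % 2 ≠ 0) = decide ((y - j) % 2 ≠ 0)
      rw [e3]
      congr 1
      rw [eq_iff_iff]
      omega
  · rintro ⟨s, hs⟩
    unfold HexTwo.sh at hs
    have h1 : (x - i) / 2 = (y - j) / 2 + s * (2 * (-(b : ℤ) - 1) + 1) := congrArg Prod.fst hs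
    have h2 : i = j + s * (2 * (n : ℤ)) := congrArg (fun p : HexTwo.V => p.2.1) hs
    have h3 : decide ((x - i) % 2 ≠ 0) = decide ((y - j) % 2 ≠ 0) := congrArg (fun p : HexTwo.V => p.2.2) hs
    have h4 : (x - i) % 2 = (y - j) % 2 := by
      rw [decide_eq_decide] at h3
      omega
    have e1 : i = j + ((2 * n : ℕ) : ℤ) * s := by
      push_cast
      rw [h2]
      ring
    have e2 : x - i = y - j + 2 * (s * (2 * (-(b : ℤ) - 1) + 1)) := by omega
    have e3 : i / ((2 * n : ℕ) : ℤ) = j / ((2 * n : ℕ) : ℤ) + s := by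
      rw [e1, Int.add_mul_ediv_left _ _ hn0]
    have e4 : i % ((2 * n : ℕ) : ℤ) = j % ((2 * n : ℕ) : ℤ) := by
      rw [e1, Int.add_mul_emod_self_left]
    refine ⟨?_, e4⟩
    rw [e3]
    have e5 : x = y + i - j + 2 * (s * (2 * (-(b : ℤ) - 1) + 1)) := by linarith
    rw [e5, e1]
    push_cast
    ring

variable {D : Stp}

/-- the last half edge. -/
theorem pEO_V {n b : ℕ} (h : 1 ≤ 2 * n) : pEO (Cs (2 * n) (2 * b + 1) h) (-(b : ℤ) - 1, (n : ℤ)) =
    (V ((n : ℤ) - 2 * b - 2) n, dR ((n : ℤ) - 2 * b - 2) n) := by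
  unfold pEO
  have e1 : _root_.EXL.A (-(b : ℤ) - 1) (n : ℤ) = V ((n : ℤ) - 2 * b - 2) n := by
    rw [← V_A]
    congr 1
    ring
  simp only [e1]
  rw [nm_V (by omega) (by push_cast; omega)]
  refine Prod.ext rfl ?_
  show ((1, 0) : Pt) = dR ((n : ℤ) - 2 * b - 2) n
  unfold dR
  rw [if_pos (by omega)]

/-- **a limit of the sums over the words of the rings is the generating function of the walks.** -/
theorem hasSum_strO {n b : ℕ} (h : 1 ≤ 2 * n) (D : Stp) {W : ℝ}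
    (hW : Tendsto (fun m => (Cs (2 * n) (2 * b + 1) h).Ws xc (Dm D (2 * n) m m)
      {(V ((n : ℤ) - 2 * b - 2) n, dR ((n : ℤ) - 2 * b - 2) n)} (V (-1) 0, dR (-1) 0)) atTop (𝓝 W)) :
    HasSum (fun k : ℕ => ((sawsO (-(b : ℤ) - 1, (n : ℤ)) k).ncard : ℝ) * zc ^ (k + 1)) W := by
  refine hasSum_genO (C := Cs (2 * n) (2 * b + 1) h) (u := (-(b : ℤ) - 1, (n : ℤ))) (cls_CsO h)
    (Ω := fun m => Dm D (2 * n) m m) (fun _ _ h => Dm_mono h) (fun F hF => Dm_exh F hF) ?_
  rw [pEO_V h, pL_V]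
  exact hW

/-- the stairs from `0` over `(n - 2 b, n)` to `(2 n - 4 b - 2, 2 n)` whose row `0` is normal and whose row `n` is
mirrored. -/
structure TwoO (D : Stp) (n b : ℕ) : Prop where
  d0 : D.d 0 = 0
  dn : D.d (n : ℤ) = n - 2 * b
  d2 : D.d (2 * n : ℤ) = 2 * n - 4 * b - 2
  m0 : D.mi 0 = false
  mn : D.mi (n : ℤ) = true

namespace TwoO

variable {n b : ℕ} (h : TwoO D n b)
include h

theorem hS : D.d ((2 * n : ℕ) : ℤ) = D.d 0 + sh (2 * n) (2 * b + 1) := by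
  have := h.d2
  push_cast at this ⊢
  rw [this, h.d0]
  unfold sh
  push_cast
  ring

theorem o0 : D.o 0 = 0 := by
  rcases D.cases 0 with ⟨-, h2, -⟩ | ⟨h1, -, -⟩
  · rw [h2, h.d0]
  · rw [h.m0] at h1
    exact absurd h1 (by decide)

theorem on : D.o (n : ℤ) = n - 2 * b - 1 := by
  rcases D.cases (n : ℤ) with ⟨h1, -, -⟩ | ⟨-, h2, -⟩
  · rw [h.mn] at h1
    exact absurd h1 (by decide)
  · rw [h2, h.dn]

/-- **The walks between edges of different kinds.** -/
theorem hasSum_WS (hn : 2 ≤ n) : HasSum (fun k : ℕ => ((sawsO (-(b : ℤ) - 1, (n : ℤ)) k).ncard : ℝ) * zc ^ (k + 1))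
    (WS D (by omega : 1 ≤ n)).re := by
  have h1 := Wn_lim hn h.hS
  unfold Wn bL at h1
  rw [h.o0, h.on, zero_sub, show (n : ℤ) - 2 * b - 1 - 1 = n - 2 * b - 2 by ring] at h1
  exact hasSum_strO (two_k (by omega)) D h1

end TwoO

theorem two_altO {k : ℕ} (he : k % 2 = 1) : TwoO alt k ((k - 1) / 2) := by
  refine ⟨rfl, ?_, ?_, ?_, ?_⟩
  · show (k : ℤ) % 2 = k - 2 * (((k - 1) / 2 : ℕ) : ℤ)
    omega
  · show (2 * (k : ℤ)) % 2 = 2 * k - 4 * (((k - 1) / 2 : ℕ) : ℤ) - 2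
    omega
  · rw [alt_mi]
    decide
  · rw [alt_mi, decide_eq_true_iff]
    omega

/-- **The walks between edges of different kinds in the direction of 30 degrees.** -/
theorem hasSum_WkO {k : ℕ} (hk : 2 ≤ k) (he : k % 2 = 1) :
    HasSum (fun n : ℕ => ((sawsO (-(((k - 1) / 2 : ℕ) : ℤ) - 1, (k : ℤ)) n).ncard : ℝ) * zc ^ (n + 1))
      (NU5.Wk k (by omega)).re := by
  rw [Wk_WS]
  exact (two_altO he).hasSum_WS hk

end Pool.Agent.STR
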