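import Pool.Agent.STR.LimG
import Pool.Agent.STR.Hex
import Pool.Agent.MXR.Main

/-!
# The majorant of the rings of a stair, regularity, positivity (project ISO, T9, row M3')

`MajB D N`: both rings of the stair `D` with `N` rows have the majorant property.  It follows from one bounded arc
on each side (`majB_of_arc`).  Consequences: regularity, the functionals, positivity, the pairing dominates the
finite cylinders, the limit of the iterated rings.
-/

set_option autoImplicit false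

namespace Pool.Agent.STR

open Pool.Agent.EXL hiding cc
open Pool.Agent.EXL.Pat Pool.Agent.EXL.Net HexObs Filter Topology
open Pool.Agent.NUF
open Pool.Agent.NUN (cc Xr Xl)
open Pool.Agent.NUNC (dd)
open Pool.Agent.MXR (MajW IsF majW_of_arc isF_VR isF_of_isR pair_le posC_pU XR XL gS Rest rowI rowJ prs rows_R rows_L prs_append
  r0 rk rest_rows glu_prs nodup_XR nodup_XL cc_XR dd_XR cc_XL dd_XL cc_ne_dd Xr_notMem Xr_mem Xl_mem gS_nn ind_nn)

variable {N : ℕ} {D : Stp}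

/-- **The majorant property** of the two rings of the stair. -/
structure MajB (D : Stp) (N : ℕ) : Prop where
  R : MajW (wD D xc N) cc dd (XR N)
  L : MajW (wD D xc N) cc dd (XL N)

theorem Xr_inj {a c : Fin N} (h : Xr a = Xr c) : a = c := by
  unfold Xr at h
  simpa using h

theorem Xl_inj {a c : Fin N} (h : Xl a = Xl c) : a = c := by
  unfold Xl at h
  simpa using h

theorem majW_R_of {i j : Fin N} (hij : i ≠ j) {B : ℝ} (hB : ∀ n, 1 ≤ n →
    (NUG.ringF (wD D xc N) cc dd (XR N))^[n] (HS.ind (cup (Xr i) (Xr j) Pat.empty)) Pat.empty ≤ B) :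
    MajW (wD D xc N) cc dd (XR N) :=
  majW_of_arc (wD_WP xc_pos) (nodup_XR _) (cc_ne_dd _) (cc_XR _) (dd_XR _) (Xr_mem _) (Xr_mem _)
    (fun e => hij (Xr_inj e)) hB

theorem majW_L_of {i j : Fin N} (hij : i ≠ j) {B : ℝ} (hB : ∀ n, 1 ≤ n →
    (NUG.ringF (wD D xc N) cc dd (XL N))^[n] (HS.ind (cup (Xl i) (Xl j) Pat.empty)) Pat.empty ≤ B) :
    MajW (wD D xc N) cc dd (XL N) :=
  majW_of_arc (wD_WP xc_pos) (nodup_XL _) (cc_ne_dd _) (cc_XL _) (dd_XL _) (Xl_mem _) (Xl_mem _)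
    (fun e => hij (Xl_inj e)) hB

/-- **The majorant property from one bounded arc on each side.** -/
theorem majB_of_arc {i j i' j' : Fin N} (hij : i ≠ j) (hij' : i' ≠ j') {B B' : ℝ} (hB : ∀ n, 1 ≤ n →
    (NUG.ringF (wD D xc N) cc dd (XR N))^[n] (HS.ind (cup (Xr i) (Xr j) Pat.empty)) Pat.empty ≤ B)
    (hB' : ∀ n, 1 ≤ n →
      (NUG.ringF (wD D xc N) cc dd (XL N))^[n] (HS.ind (cup (Xl i') (Xl j') Pat.empty)) Pat.empty ≤ B') :
    MajB D N := ⟨majW_R_of hij hB, majW_L_of hij' hB'⟩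

theorem XR_disj (N : ℕ) : ∀ x ∈ XR N, x ∉ XL N := by
  intro x hx
  obtain ⟨a, -, rfl⟩ := List.mem_map.1 hx
  exact Xr_notMem a

namespace MajB

variable (h : MajB D N)
include h

/-- **Regularity of the right ring.** -/
theorem regR : NUT2.RegR cc dd (zD D N) (XR N) :=
  h.R.regR (wD_WP xc_pos) (fun s _ => zD_wt s) (cc_ne_dd _) (cc_XR _)

/-- **Regularity of the left ring.** -/
theorem regL : NUT2.RegR cc dd (zD D N) (XL N) :=
  h.L.regR (wD_WP xc_pos) (fun s _ => zD_wt s) (cc_ne_dd _) (cc_XL _)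

theorem isF_R : IsF (wD D xc N) cc dd (XR N) (NUT2.VR cc dd (zD D N) (XR N)) :=
  isF_VR (wD_WP xc_pos) h.R (fun s _ => zD_wt s) (nodup_XR _) (cc_ne_dd _) (cc_XR _) (dd_XR _)

theorem isF_L : IsF (wD D xc N) cc dd (XL N) (NUT2.VR cc dd (zD D N) (XL N)) :=
  isF_VR (wD_WP xc_pos) h.L (fun s _ => zD_wt s) (nodup_XL _) (cc_ne_dd _) (cc_XL _) (dd_XL _)

/-- Positivity of the functional of the right ring. -/
theorem posC_R : NUG.PosC (NUT2.VR cc dd (zD D N) (XR N)) :=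
  h.isF_R.posC (wD_WP xc_pos) h.R (nodup_XR _) (cc_ne_dd _) (cc_XR _) (dd_XR _)

/-- Positivity of the functional of the left ring. -/
theorem posC_L : NUG.PosC (NUT2.VR cc dd (zD D N) (XL N)) :=
  h.isF_L.posC (wD_WP xc_pos) h.L (nodup_XL _) (cc_ne_dd _) (cc_XL _) (dd_XL _)

/-- **The pairing of the two functionals dominates the finite cylinders.** -/
theorem rings_le {F : Pat (NUF.St N) → ℝ} (hF : ∀ p, 0 ≤ F p) (n m : ℕ) :
    (NUG.ringF (wD D xc N) cc dd (XR N))^[n] ((NUG.ringF (wD D xc N) cc dd (XL N))^[m] F) Pat.empty ≤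
      (NUT2.VR cc dd (zD D N) (XR N) fun p => NUT2.VR cc dd (zD D N) (XL N) fun q => (F (un p q) : ℂ)).re :=
  pair_le (wD_WP xc_pos) (wD_WP xc_pos) (nodup_XR _) (nodup_XL _) (XR_disj _) (cc_ne_dd _) (cc_XR _)
    (dd_XR _) (cc_XL _) (dd_XL _) h.R h.L h.isF_R h.isF_L hF n m

/-- **The limit of the iterated rings.** -/
theorem rings_lim (F : Pat (NUF.St N) → ℝ) :
    Tendsto (fun m => (((NUG.ringF (wD D xc N) cc dd (XR N))^[m]
      ((NUG.ringF (wD D xc N) cc dd (XL N))^[m] F) Pat.empty : ℝ) : ℂ)) atTop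
      (𝓝 (NUG.pU (NUT2.VR cc dd (zD D N) (XR N)) (NUT2.VR cc dd (zD D N) (XL N)) fun p => (F p : ℂ))) :=
  pU_lim_real (wD_WP xc_pos) (wD_WP xc_pos) h.R h.L h.isF_R h.isF_L (nodup_XR _) (nodup_XL _) (XR_disj _)
    (cc_ne_dd _) (cc_XR _) (dd_XR _) (cc_XL _) (dd_XL _) F

end MajB

/-! ### The two-point function -/

variable {k : ℕ}

/-- **The two-point function of the two ring functionals of the stair**, `2 k` rows, cut rows `0` and `k`. -/
noncomputable def WS (D : Stp) (hk : 1 ≤ k) : ℂ :=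
  NU5.WR cc dd (zD D (2 * k)) (prs (rowI k)) (prs (rowJ k)) (Xr (r0 hk)) (Xl (r0 hk)) (Xr (rk hk)) (Xl (rk hk))

/-- the function of the cut. -/
noncomputable def FS (hk : 1 ≤ k) : Pat (NUF.St (2 * k)) → ℝ :=
  gS ℝ (rowI k ++ rowJ k) (HS.ind (cup (Xr (r0 hk)) (Xr (rk hk)) Pat.empty))

theorem FS_nn (hk : 1 ≤ k) (p : Pat (NUF.St (2 * k))) : 0 ≤ FS hk p := gS_nn _ (fun _ => ind_nn _ _) p

theorem WS_eq (hk : 1 ≤ k) :
    WS D hk = NUG.pU (NUT2.VR cc dd (zD D (2 * k)) (XR (2 * k))) (NUT2.VR cc dd (zD D (2 * k)) (XL (2 * k)))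
      (fun q => ((FS hk q : ℝ) : ℂ)) := by
  rw [NUG.pU_apply]
  unfold WS NU5.WR
  rw [rows_R, rows_L, ← prs_append]
  refine congrArg _ (funext fun p => congrArg _ (funext fun p' => ?_))
  refine glu_prs _ _ _ (fun q => ?_) _
  unfold NU5.arc
  by_cases h : q = cup (Xr (r0 hk)) (Xr (rk hk)) Pat.empty
  · rw [h, HS.ind_self, HS.ind_self, Complex.ofReal_one]
  · rw [HS.ind_ne h, HS.ind_ne h, Complex.ofReal_zero]

/-- the iterated rings of the cut. -/
noncomputable def RS (D : Stp) (hk : 1 ≤ k) (n m : ℕ) : ℝ :=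
  (NUG.ringF (wD D xc (2 * k)) cc dd (XR (2 * k)))^[n]
    ((NUG.ringF (wD D xc (2 * k)) cc dd (XL (2 * k)))^[m] (FS hk)) Pat.empty

theorem RS_nn (hk : 1 ≤ k) (n m : ℕ) : 0 ≤ RS D hk n m :=
  NUG.posOp_iter (MXR.posOp_ringF (wD_WP xc_pos)) n _
    (NUG.posOp_iter (MXR.posOp_ringF (wD_WP xc_pos)) m _ (FS_nn hk)) _

/-- **The two-point function is the limit of the iterated rings.** -/
theorem WS_lim_rings (hk : 1 ≤ k) (h : MajB D (2 * k)) :
    Tendsto (fun m => ((RS D hk m m : ℝ) : ℂ)) atTop (𝓝 (WS D hk)) := by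
  rw [WS_eq]
  exact h.rings_lim (FS hk)

/-- the value is real and non-negative. -/
theorem WS_real (hk : 1 ≤ k) (h : MajB D (2 * k)) : WS D hk = ((WS D hk).re : ℂ) ∧ 0 ≤ (WS D hk).re ∧
    Tendsto (fun m => RS D hk m m) atTop (𝓝 (WS D hk).re) := by
  have h1 := WS_lim_rings hk h
  have h2 : Tendsto (fun m => RS D hk m m) atTop (𝓝 (WS D hk).re) :=
    (Complex.continuous_re.tendsto (WS D hk)).comp h1
  have h3 : Tendsto (fun m => ((RS D hk m m : ℝ) : ℂ).im) atTop (𝓝 (WS D hk).im) :=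
    (Complex.continuous_im.tendsto (WS D hk)).comp h1
  have h4 : (WS D hk).im = 0 := by
    refine tendsto_nhds_unique h3 ?_
    simp
  refine ⟨?_, ge_of_tendsto' h2 (fun m => RS_nn hk m m), h2⟩
  apply Complex.ext
  · rw [Complex.ofReal_re]
  · rw [Complex.ofReal_im, h4]

theorem RS_le (hk : 1 ≤ k) (h : MajB D (2 * k)) (n m : ℕ) : RS D hk n m ≤ (WS D hk).re := by
  rw [WS_eq, NUG.pU_apply]
  exact h.rings_le (FS_nn hk) n m

end Pool.Agent.STR
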