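import Pool.Agent.STR.PubDef
import Pool.Agent.PB.CylPub

/-!
# Walks modulo a period and words (helper69): the dictionary

`C` is any system of representatives whose classes are the classes modulo `2 w` (`Cls C w`).
* `card_words`: the words with `n + 1` letters are the walks `saws w n`;
* **`hasSum_gen`**: a limit of the sums over the words of growing domains is the generating function of the walks.
-/

set_option autoImplicit false

namespace Pool.Agent.HexTwo

open HexObs HexObs.LP ENNReal Filter Topology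
open Pool.Agent.NUF.Cyl (Nm ri ri_A ri_B pL)
open Pool.Agent.CylSaw (co co_A co_B vt_iff vt_cases dir_A dir_B A_1 A_2 A_3 B_1 B_2 B_3 Vt_A' Vt_B' turn_ne' turn_cases'
  step_cases de_back gf_len' gf_disj)

/-- the vertex of the plane lattice. -/
def ps (v : Pt) : V := (co v, ri v, decide ((v.1 - v.2) % 3 = 0))

theorem ps_A (j r : ℤ) : ps (_root_.EXL.A j r) = (j, r, false) := by
  unfold ps
  rw [co_A, ri_A]
  refine Prod.ext rfl (Prod.ext rfl ?_)
  simp only [_root_.EXL.A, decide_eq_false_iff_not]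
  omega

theorem ps_B (j r : ℤ) : ps (_root_.EXL.B j r) = (j, r, true) := by
  unfold ps
  rw [co_B, ri_B]
  refine Prod.ext rfl (Prod.ext rfl ?_)
  simp only [_root_.EXL.B, decide_eq_true_eq]
  omega

theorem ps_inj {u v : Pt} (hu : Vt u) (hv : Vt v) (h : ps u = ps v) : u = v := by
  rcases vt_cases hu with e | e <;> rcases vt_cases hv with e' | e'
  · rw [e, e', ps_A, ps_A] at h
    have h1 : co u = co v := congrArg Prod.fst h
    have h2 : ri u = ri v := congrArg (fun p : V => p.2.1) h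
    rw [e, e', h1, h2]
  · rw [e, e', ps_A, ps_B] at h
    have h1 := congrArg (fun p : V => p.2.2) h
    exact absurd h1 (by simp)
  · rw [e, e', ps_A, ps_B] at h
    have h1 := congrArg (fun p : V => p.2.2) h
    exact absurd h1 (by simp)
  · rw [e, e', ps_B, ps_B] at h
    have h1 : co u = co v := congrArg Prod.fst h
    have h2 : ri u = ri v := congrArg (fun p : V => p.2.1) h
    rw [e, e', h1, h2]

theorem adj_step {v d : Pt} (h : De (v, d)) : hex.Adj (ps v) (ps (v + d)) := by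
  obtain ⟨h1, h2, h3⟩ := h
  simp only at h1 h2 h3
  rcases vt_cases h2 with hv | hv
  · rw [hv] at h3 ⊢
    left
    rcases dir_A h1 h3 with rfl | rfl | rfl
    · rw [A_1, ps_A, ps_B]
      exact ⟨rfl, rfl, Or.inl ⟨rfl, rfl⟩⟩
    · rw [A_2, ps_A, ps_B]
      exact ⟨rfl, rfl, Or.inr (Or.inl ⟨rfl, rfl⟩)⟩
    · rw [A_3, ps_A, ps_B]
      exact ⟨rfl, rfl, Or.inr (Or.inr ⟨rfl, rfl⟩)⟩
  · rw [hv] at h3 ⊢
    right
    rcases dir_B h1 h3 with rfl | rfl | rfl
    · rw [B_1, ps_A, ps_B]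
      exact ⟨rfl, rfl, Or.inl ⟨rfl, rfl⟩⟩
    · rw [B_2, ps_A, ps_B]
      refine ⟨rfl, rfl, Or.inr (Or.inl ⟨?_, rfl⟩)⟩
      simp only
      ring
    · rw [B_3, ps_A, ps_B]
      refine ⟨rfl, rfl, Or.inr (Or.inr ⟨rfl, ?_⟩)⟩
      simp only
      ring

theorem adj_lift {v : Pt} (hv : Vt v) {y : V} (h : hex.Adj (ps v) y) : ∃ d, De (v, d) ∧ y = ps (v + d) := by
  obtain ⟨y1, y2, y3⟩ := y
  have dv : ∀ d : Pt, d ∈ dirs → ∀ w : Pt, v + d = w → Vt w → De (v, d) := fun d hd w e hw =>
    ⟨hd, hv, by show Vt (v + d); rw [e]; exact hw⟩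
  rcases vt_cases hv with e | e
  · rw [e] at h
    rw [ps_A] at h
    rcases h with h | h
    · obtain ⟨-, h2, h3⟩ := h
      simp only at h2 h3
      subst h2
      rcases h3 with ⟨rfl, rfl⟩ | ⟨rfl, rfl⟩ | ⟨rfl, rfl⟩
      · have e1 : v + (1, 0) = _root_.EXL.B (co v) (ri v) := by
          conv_lhs => rw [e]
          exact A_1 _ _
        refine ⟨(1, 0), dv _ (by decide) _ e1 (Vt_B' _ _), ?_⟩
        rw [e1, ps_B]
      · have e1 : v + (-1, 1) = _root_.EXL.B (co v - 1) (ri v) := by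
          conv_lhs => rw [e]
          exact A_2 _ _
        refine ⟨(-1, 1), dv _ (by decide) _ e1 (Vt_B' _ _), ?_⟩
        rw [e1, ps_B]
      · have e1 : v + (0, -1) = _root_.EXL.B (co v) (ri v - 1) := by
          conv_lhs => rw [e]
          exact A_3 _ _
        refine ⟨(0, -1), dv _ (by decide) _ e1 (Vt_B' _ _), ?_⟩
        rw [e1, ps_B]
    · exact absurd h.2.1 (by simp)
  · rw [e] at h
    rw [ps_B] at h
    rcases h with h | h
    · exact absurd h.1 (by simp)
    · obtain ⟨h1, -, h3⟩ := h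
      simp only at h1 h3
      subst h1
      rcases h3 with ⟨h3, h4⟩ | ⟨h3, h4⟩ | ⟨h3, h4⟩
      · have e1 : v + (-1, 0) = _root_.EXL.A (co v) (ri v) := by
          conv_lhs => rw [e]
          exact B_1 _ _
        refine ⟨(-1, 0), dv _ (by decide) _ e1 (Vt_A' _ _), ?_⟩
        rw [e1, ps_A, h3, h4]
      · have e1 : v + (1, -1) = _root_.EXL.A (co v + 1) (ri v) := by
          conv_lhs => rw [e]
          exact B_2 _ _
        refine ⟨(1, -1), dv _ (by decide) _ e1 (Vt_A' _ _), ?_⟩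
        rw [e1, ps_A, h4, h3, sub_add_cancel]
      · have e1 : v + (0, 1) = _root_.EXL.A (co v) (ri v + 1) := by
          conv_lhs => rw [e]
          exact B_3 _ _
        refine ⟨(0, 1), dv _ (by decide) _ e1 (Vt_A' _ _), ?_⟩
        rw [e1, ps_A, h3, h4, sub_add_cancel]

/-! ### translations -/

theorem sh_sh (p q : ℤ × ℤ) (v : V) : sh p (sh q v) = sh (p + q) v := by
  unfold sh
  refine Prod.ext ?_ (Prod.ext ?_ rfl)
  · simp only [Prod.fst_add]
    ring
  · simp only [Prod.snd_add]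
    ring

theorem sh_zero (v : V) : sh 0 v = v := by
  unfold sh
  simp

theorem sh_inj {p q : ℤ × ℤ} {v : V} (h : sh p v = sh q v) : p = q := by
  unfold sh at h
  have h1 := congrArg Prod.fst h
  have h2 := congrArg (fun p : V => p.2.1) h
  simp only at h1 h2
  exact Prod.ext (by omega) (by omega)

/-! ### words -/

/-- the vertex number i of a word. -/
def wv (t : List Bool) (i : ℕ) : V := ps (vx (pL 0).1 (pL 0).2 t i)

/-- the words. -/
def Wd (w : ℤ × ℤ) (n : ℕ) : Set (List Bool) :=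
  {t | t.length = n + 1 ∧ (∀ i j, 1 ≤ i → i < j → j ≤ t.length → ∀ s : ℤ, wv t i ≠ sh ((2 * s) • w) (wv t j)) ∧
    (∃ s : ℤ, wv t t.length = sh ((2 * s + 1) • w) (0, 0, false)) ∧ dx (pL 0).2 t t.length = (-1, 1)}

theorem de_w (t : List Bool) (i : ℕ) : De (vx (pL 0).1 (pL 0).2 t i, dx (pL 0).2 t i) := CylSaw.de_w t i

theorem vx_s (t : List Bool) (i : ℕ) : vx (pL 0).1 (pL 0).2 t (i + 1) =
    vx (pL 0).1 (pL 0).2 t i + dx (pL 0).2 t i := rfl

theorem dx_s (t : List Bool) (i : ℕ) : dx (pL 0).2 t (i + 1) = turn (tf t i) (dx (pL 0).2 t i) := rfl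

theorem wv_zero (t : List Bool) : wv t 0 = (-1, 0, true) := by
  unfold wv
  have e : vx (pL 0).1 (pL 0).2 t 0 = _root_.EXL.B (-1) 0 := rfl
  rw [e, ps_B]

theorem wv_one (t : List Bool) : wv t 1 = (0, 0, false) := by
  unfold wv
  have e : vx (pL 0).1 (pL 0).2 t 1 = _root_.EXL.B (-1) 0 + (1, -1) := rfl
  rw [e, B_2, ps_A]
  rfl

theorem wv_adj (t : List Bool) (i : ℕ) : hex.Adj (wv t i) (wv t (i + 1)) := by
  unfold wv
  rw [vx_s]
  exact adj_step (de_w t i)

/-- no step back. -/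
theorem wv_ne_back (t : List Bool) (i : ℕ) : wv t (i + 2) ≠ wv t i := by
  intro e
  unfold wv at e
  have e' := ps_inj (de_w t (i + 2)).2.1 (de_w t i).2.1 e
  have h1 : vx (pL 0).1 (pL 0).2 t i = vx (pL 0).1 (pL 0).2 t (i + 1) + -dx (pL 0).2 t i := by
    rw [vx_s, add_neg_cancel_right]
  have h2 : vx (pL 0).1 (pL 0).2 t (i + 2) = vx (pL 0).1 (pL 0).2 t (i + 1) + dx (pL 0).2 t (i + 1) := rfl
  rw [h1, h2] at e'
  have h3 := add_left_cancel e'
  rw [dx_s] at h3
  exact turn_ne' _ (de_w t i).1 _ h3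

/-- the black end of the cut edge behind its white end. -/
theorem back_end {v : Pt} (hv : Vt v) {p : ℤ × ℤ} (h : ps v = sh p (0, 0, false)) :
    De (v, ((-1, 1) : Pt)) ∧ ps (v + (-1, 1)) = sh p (-1, 0, true) := by
  rcases vt_cases hv with e | e
  · rw [e, ps_A] at h
    have h1 : co v = 0 + p.1 := congrArg Prod.fst h
    have h2 : ri v = 0 + p.2 := congrArg (fun p : V => p.2.1) h
    refine ⟨⟨(by decide : ((-1, 1) : Pt) ∈ dirs), hv, ?_⟩, ?_⟩
    · show Vt (v + (-1, 1))
      rw [e, A_2]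
      exact Vt_B' _ _
    · rw [e, A_2, ps_B, h1, h2]
      unfold sh
      refine Prod.ext ?_ rfl
      simp only
      ring
  · rw [e, ps_B] at h
    have := congrArg (fun p : V => p.2.2) h
    simp [sh] at this

/-- the white end of the cut edge before its black end. -/
theorem front_end {v : Pt} (hv : De (v, ((-1, 1) : Pt))) {p : ℤ × ℤ} (h : ps (v + (-1, 1)) = sh p (-1, 0, true)) :
    ps v = sh p (0, 0, false) := by
  obtain ⟨-, h1, h2⟩ := hv
  simp only at h1 h2
  rcases vt_cases h1 with e | e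
  · rw [e, A_2, ps_B] at h
    have h3 : co v - 1 = -1 + p.1 := congrArg Prod.fst h
    have h4 : ri v = 0 + p.2 := congrArg (fun p : V => p.2.1) h
    rw [e, ps_A]
    unfold sh
    refine Prod.ext ?_ (Prod.ext h4 rfl)
    simp only
    omega
  · exfalso
    rw [vt_iff] at h2
    rw [e] at h2
    simp only [_root_.EXL.B, Prod.fst_add, Prod.snd_add] at h2
    omega

/-! ### the classes -/

/-- the classes of C are the classes modulo 2 w. -/
def Cls (C : Nm) (w : ℤ × ℤ) : Prop :=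
  ∀ u v : Pt, Vt u → Vt v → (C.nm u = C.nm v ↔ ∃ t : ℤ, ps u = sh ((2 * t) • w) (ps v))

/-- the half edge of the last step. -/
def pE (C : Nm) (w : ℤ × ℤ) : Pt × Pt := (C.nm (_root_.EXL.B (w.1 - 1) w.2), (1, -1))

theorem rv_iff {C : Nm} {w : ℤ × ℤ} (hC : Cls C w) (t : List Bool) : C.rv (C.le (pL 0) t) = pE C w ↔
    (∃ s : ℤ, wv t t.length = sh ((2 * s + 1) • w) (0, 0, false)) ∧ dx (pL 0).2 t t.length = (-1, 1) := by
  have e1 : C.rv (C.le (pL 0) t) = (C.nm (vx (pL 0).1 (pL 0).2 t t.length + dx (pL 0).2 t t.length),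
      -dx (pL 0).2 t t.length) := by
    unfold Nm.rv Nm.le Nm.nb
    simp only
    rw [C.add]
  have hw : ∀ s : ℤ, ((2 * s) • w : ℤ × ℤ) + w = (2 * s + 1) • w := fun s => by rw [add_smul, one_smul]
  have hB : ps (_root_.EXL.B (w.1 - 1) w.2) = sh w (-1, 0, true) := by
    rw [ps_B]
    unfold sh
    refine Prod.ext ?_ (Prod.ext ?_ rfl)
    · simp only
      ring
    · simp only
      ring
  rw [e1]
  unfold pE
  constructor
  · intro h
    have h2 : -dx (pL 0).2 t t.length = (1, -1) := congrArg Prod.snd h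
    have h3 : dx (pL 0).2 t t.length = (-1, 1) := by
      rw [← neg_neg (dx (pL 0).2 t t.length), h2]
      rfl
    have h4 := congrArg Prod.fst h
    simp only at h4
    rw [h3] at h4
    have hd := de_w t t.length
    rw [h3] at hd
    obtain ⟨s, hs⟩ := (hC _ _ hd.2.2 (Vt_B' _ _)).1 h4
    rw [hB, sh_sh, hw] at hs
    exact ⟨⟨s, front_end hd hs⟩, h3⟩
  · rintro ⟨⟨s, h1⟩, h2⟩
    have hd := de_w t t.length
    rw [h2] at hd
    obtain ⟨-, h3⟩ := back_end hd.2.1 h1
    rw [h2]
    refine Prod.ext ?_ rfl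
    simp only
    refine (hC _ _ hd.2.2 (Vt_B' _ _)).2 ⟨s, ?_⟩
    rw [hB, sh_sh, hw]
    exact h3

/-- **the words of the domains.** -/
theorem mem_words {C : Nm} {w : ℤ × ℤ} (hC : Cls C w) {Ω : ℕ → Finset Pt}
    (hΩ : ∀ F : Finset Pt, (∀ v ∈ F, Vt v ∧ C.nm v = v) → ∃ m, F ⊆ Ω m) (t : List Bool) :
    ((∃ m, C.Arr (Ω m) (pL 0) t) ∧ C.rv (C.le (pL 0) t) = pE C w) ↔ ∃ n, t ∈ Wd w n := by
  have hnm : ∀ i j, C.nm (vx (pL 0).1 (pL 0).2 t i) = C.nm (vx (pL 0).1 (pL 0).2 t j) ↔
      ∃ s : ℤ, wv t i = sh ((2 * s) • w) (wv t j) := fun i j => hC _ _ (de_w t i).2.1 (de_w t j).2.1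
  rw [rv_iff hC]
  constructor
  · rintro ⟨⟨m, hm⟩, h1, h2⟩
    have hl : t.length ≠ 0 := by
      intro h0
      rw [h0] at h2
      have : dx (pL 0).2 t 0 = (1, -1) := rfl
      rw [this] at h2
      exact absurd h2 (by decide)
    obtain ⟨n, hn⟩ := Nat.exists_eq_succ_of_ne_zero hl
    refine ⟨n, hn, fun i j hi hij hj s hs => ?_, h1, h2⟩
    have := hm.inj i j hi hij hj
    rw [Ne, hnm] at this
    exact this ⟨s, hs⟩
  · rintro ⟨n, hn, h0, h1, h2⟩
    refine ⟨?_, h1, h2⟩
    classical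
    obtain ⟨m, hm⟩ := hΩ ((Finset.range (t.length + 1)).image fun i => C.nm (vx (pL 0).1 (pL 0).2 t i)) (by
      intro v hv
      rw [Finset.mem_image] at hv
      obtain ⟨i, -, rfl⟩ := hv
      exact ⟨Nm.vt_nm.2 (de_w t i).2.1, C.idem _⟩)
    refine ⟨m, fun i h3 h4 => hm ?_, fun i j hi hij hj => ?_⟩
    · rw [Finset.mem_image]
      exact ⟨i, Finset.mem_range.2 (by omega), rfl⟩
    · rw [Ne, hnm]
      rintro ⟨s, hs⟩
      exact h0 i j hi hij hj s hs

/-! ### the bijection -/

/-- the walk of a word. -/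
def wk (n : ℕ) (t : List Bool) (i : Fin (n + 1)) : V := wv t (i.val + 1)

theorem wne {w : ℤ × ℤ} {n : ℕ} {t : List Bool} (ht : t ∈ Wd w n) : ∀ i j, 1 ≤ i → 1 ≤ j → i ≤ n + 1 → j ≤ n + 1 →
    ∀ s : ℤ, wv t i = sh ((2 * s) • w) (wv t j) → i = j := by
  intro i j hi hj hi' hj' s e
  obtain ⟨h1, h2, -, -⟩ := ht
  rcases lt_trichotomy i j with h | h | h
  · exact absurd e (h2 i j hi h (by omega) s)
  · exact h
  · refine absurd ?_ (h2 j i hj h (by omega) (-s))
    rw [e, sh_sh, show 2 * -s = -(2 * s) by ring, neg_smul, neg_add_cancel, sh_zero]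

theorem wk_mem {w : ℤ × ℤ} {n : ℕ} {t : List Bool} (ht : t ∈ Wd w n) : wk n t ∈ saws w n := by
  have hne := wne ht
  obtain ⟨h1, h2, ⟨s0, h3⟩, h4⟩ := ht
  rw [h1] at h3 h4
  refine ⟨wv_one t, ⟨s0, h3⟩, ?_, ?_⟩
  · intro i j s hij
    have := hne (i.val + 1) (j.val + 1) (by omega) (by omega) (by omega) (by omega) s hij
    exact Fin.ext (by omega)
  · intro i
    have hi := i.2
    have e1 : wk n t i.castSucc = wv t (i.val + 1) := rfl
    have e2 : wk n t i.succ = wv t (i.val + 2) := rfl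
    rw [e1, e2]
    refine ⟨wv_adj t _, fun q e => ?_⟩
    unfold cut at e
    rw [Sym2.eq_iff] at e
    rcases Int.even_or_odd' q with ⟨s, hs | hs⟩
    · -- the first cut edge
      rw [hs] at e
      rcases e with ⟨a1, a2⟩ | ⟨a1, a2⟩
      · rw [← wv_one t] at a2
        have := hne _ _ (by omega) le_rfl (by omega) (by omega) s a2
        omega
      · have a1' := a1
        rw [← wv_one t] at a1
        have a4 := hne _ _ (by omega) le_rfl (by omega) (by omega) s a1
        rw [a4] at a1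
        have a5 : i.val = 0 := by omega
        have a6 : ((2 * s) • w : ℤ × ℤ) = 0 := by
          have : sh ((2 * s) • w) (wv t 1) = sh 0 (wv t 1) := by
            rw [sh_zero]
            exact a1.symm
          exact sh_inj this
        rw [a5, a6, sh_zero] at a2
        refine wv_ne_back t 0 ?_
        rw [wv_zero]
        exact a2
    · -- the second cut edge
      rw [hs] at e
      have hsub : ((2 * s + 1) • w : ℤ × ℤ) = (2 * (s - s0)) • w + (2 * s0 + 1) • w := by
        rw [← add_smul]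
        congr 1
        ring
      have hend : sh ((2 * s + 1) • w) (0, 0, false) = sh ((2 * (s - s0)) • w) (wv t (n + 1)) := by
        rw [h3, sh_sh, hsub]
      rcases e with ⟨a1, a2⟩ | ⟨a1, a2⟩
      · have a2' := a2
        rw [hend] at a2
        have a4 := hne _ _ (by omega) (by omega) (by omega) (by omega) _ a2
        have a5 : i.val + 1 = n := by omega
        rw [a5] at a1
        have a6 : De (vx (pL 0).1 (pL 0).2 t (n + 1), -dx (pL 0).2 t n) := de_back (de_w t n)
        have a7 : vx (pL 0).1 (pL 0).2 t (n + 1) + -dx (pL 0).2 t n = vx (pL 0).1 (pL 0).2 t n := by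
          rw [vx_s, add_neg_cancel_right]
        have a8 : i.val + 2 = n + 1 := by omega
        rw [a8] at a2'
        obtain ⟨b1, b2⟩ := back_end (de_w t (n + 1)).2.1 a2'
        have b3 : ps (vx (pL 0).1 (pL 0).2 t (n + 1) + (-1, 1)) = ps (vx (pL 0).1 (pL 0).2 t n) := by
          rw [b2, ← a1]
          rfl
        have b4 := ps_inj b1.2.2 (de_w t n).2.1 b3
        rw [← a7] at b4
        have b5 := add_left_cancel b4
        rw [← h4, dx_s] at b5
        exact turn_ne' _ (de_w t n).1 _ b5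
      · rw [hend] at a1
        have := hne _ _ (by omega) (by omega) (by omega) (by omega) _ a1
        omega

theorem wk_inj {w : ℤ × ℤ} {n : ℕ} {s t : List Bool} (hs : s ∈ Wd w n) (ht : t ∈ Wd w n) (h : wk n s = wk n t) :
    s = t := by
  obtain ⟨s1, -, -, s4⟩ := hs
  obtain ⟨t1, -, -, t4⟩ := ht
  have key : ∀ i, i ≤ n → vx (pL 0).1 (pL 0).2 s i = vx (pL 0).1 (pL 0).2 t i ∧
      dx (pL 0).2 s i = dx (pL 0).2 t i ∧ (∀ j, j < i → tf s j = tf t j) := by
    intro i
    induction i with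
    | zero => exact fun _ => ⟨rfl, rfl, fun j hj => absurd hj (by omega)⟩
    | succ i ih =>
      intro hi
      obtain ⟨a1, a2, a3⟩ := ih (by omega)
      have b1 : vx (pL 0).1 (pL 0).2 s (i + 1) = vx (pL 0).1 (pL 0).2 t (i + 1) := by
        rw [vx_s, vx_s, a1, a2]
      have b2 : wv s (i + 2) = wv t (i + 2) := congrFun h ⟨i + 1, by omega⟩
      have b3 : dx (pL 0).2 s (i + 1) = dx (pL 0).2 t (i + 1) := by
        have b4 : vx (pL 0).1 (pL 0).2 s (i + 2) = vx (pL 0).1 (pL 0).2 t (i + 2) :=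
          ps_inj (de_w s (i + 2)).2.1 (de_w t (i + 2)).2.1 b2
        rw [show i + 2 = i + 1 + 1 by ring, vx_s s (i + 1), vx_s t (i + 1), b1] at b4
        exact add_left_cancel b4
      refine ⟨b1, b3, fun j hj => ?_⟩
      rcases Nat.lt_succ_iff_lt_or_eq.1 hj with hj' | rfl
      · exact a3 j hj'
      · rw [dx_s, dx_s, a2] at b3
        exact CylSaw.turn_inj _ (de_w t _).1 _ _ b3
  obtain ⟨a1, a2, a3⟩ := key n le_rfl
  refine CylSaw.tf_ext (by omega) fun i hi => ?_
  rcases Nat.lt_or_ge i n with hj | hj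
  · exact a3 i hj
  · have hin : i = n := by omega
    subst hin
    rw [s1] at s4
    rw [t1] at t4
    rw [← t4, dx_s, dx_s, a2] at s4
    exact CylSaw.turn_inj _ (de_w t _).1 _ _ s4

theorem wk_surj {w : ℤ × ℤ} (hw0 : w ≠ 0) {n : ℕ} {x : Fin (n + 1) → V} (hx : x ∈ saws w n) :
    ∃ t ∈ Wd w n, wk n t = x := by
  obtain ⟨h2, ⟨s0, h3⟩, h1, h4⟩ := hx
  have hinj : ∀ i j, x i = x j → i = j := fun i j e => h1 i j 0 (by rw [mul_zero, zero_smul, sh_zero]; exact e)
  have key : ∀ j, j ≤ n → ∃ t : List Bool, t.length = j ∧ ∀ i (hi : i ≤ j) (hn : i ≤ n),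
      wv t (i + 1) = x ⟨i, by omega⟩ := by
    intro j
    induction j with
    | zero =>
      intro _
      refine ⟨[], rfl, fun i hi hn => ?_⟩
      have : i = 0 := by omega
      subst this
      rw [wv_one]
      exact h2.symm
    | succ j ih =>
      intro hj
      obtain ⟨t, t1, t2⟩ := ih (by omega)
      obtain ⟨a2, a3⟩ := h4 ⟨j, by omega⟩
      have e1 : x (Fin.castSucc ⟨j, by omega⟩) = wv t (j + 1) := (t2 j le_rfl (by omega)).symm
      have e2 : x (Fin.succ ⟨j, by omega⟩) = x ⟨j + 1, by omega⟩ := rfl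
      rw [e1, e2] at a2 a3
      obtain ⟨d, d1, d2⟩ := adj_lift (v := vx (pL 0).1 (pL 0).2 t (j + 1)) (de_w t (j + 1)).2.1 a2
      have hst : De (vx (pL 0).1 (pL 0).2 t j + dx (pL 0).2 t j, d) := d1
      rcases step_cases (de_w t j) hst with b1 | ⟨b, b1⟩
      · exfalso
        have b2 : x ⟨j + 1, by omega⟩ = wv t j := by
          rw [d2, b1, vx_s, add_neg_cancel_right]
          rfl
        rcases Nat.eq_zero_or_pos j with hj0 | hj0
        · subst hj0
          rw [wv_zero] at b2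
          apply a3 0
          rw [wv_one, b2]
          unfold cut
          rw [zero_smul, sh_zero, sh_zero]
          exact Sym2.eq_swap
        · have b3 := t2 (j - 1) (by omega) (by omega)
          rw [Nat.sub_add_cancel hj0] at b3
          rw [b3] at b2
          have b4 := congrArg Fin.val (hinj _ _ b2)
          simp only at b4
          omega
      · refine ⟨t ++ [b], by simp [t1], fun i hi hn => ?_⟩
        unfold wv
        rcases Nat.lt_or_ge i (j + 1) with hij | hij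
        · rw [vx_append (by omega)]
          exact t2 i (by omega) hn
        · have hij' : i = j + 1 := by omega
          subst hij'
          rw [vx_s, vx_append (by omega), dx_s, dx_append (by omega)]
          have b4 : tf (t ++ [b]) j = b := by
            have := tf_append_right (t := t) (s := [b]) 0
            rw [add_zero, t1] at this
            rw [this]
            rfl
          rw [b4, ← b1]
          exact d2.symm
  obtain ⟨t, t1, t2⟩ := key n le_rfl
  have hlast : wv t (n + 1) = sh ((2 * s0 + 1) • w) (0, 0, false) := (t2 n le_rfl le_rfl).trans h3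
  obtain ⟨c1, c2⟩ := back_end (v := vx (pL 0).1 (pL 0).2 t (n + 1)) (de_w t (n + 1)).2.1 hlast
  have hst : De (vx (pL 0).1 (pL 0).2 t n + dx (pL 0).2 t n, ((-1, 1) : Pt)) := c1
  have hn0 : n ≠ 0 := by
    rintro rfl
    rw [wv_one] at hlast
    have h5 : ((2 * s0 + 1) • w : ℤ × ℤ) = 0 := by
      refine sh_inj (v := (0, 0, false)) ?_
      rw [sh_zero]
      exact hlast.symm
    rw [smul_eq_zero] at h5
    rcases h5 with h5 | h5
    · omega
    · exact hw0 h5
  obtain ⟨m, hm⟩ := Nat.exists_eq_succ_of_ne_zero hn0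
  rcases step_cases (de_w t n) hst with b1 | ⟨b, b1⟩
  · exfalso
    have b2 : wv t n = sh ((2 * s0 + 1) • w) (-1, 0, true) := by
      rw [← c2, b1, vx_s, add_neg_cancel_right]
      rfl
    have a1 := (h4 ⟨m, by omega⟩).2 (2 * s0 + 1)
    apply a1
    have e1 : x (Fin.castSucc ⟨m, by omega⟩) = wv t n :=
      (t2 m (by omega) (by omega)).symm.trans (congrArg (wv t) hm.symm)
    have e2 : x (Fin.succ ⟨m, by omega⟩) = wv t (n + 1) := by
      rw [t2 n le_rfl le_rfl]
      exact congrArg x (Fin.ext (by simp [hm]))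
    rw [e1, e2, b2, hlast]
    rfl
  · have hv : ∀ i, i ≤ n + 1 → wv (t ++ [b]) i = wv t i := fun i hi => by
      unfold wv
      rw [vx_append (by omega)]
    have htf : tf (t ++ [b]) n = b := by
      have := tf_append_right (t := t) (s := [b]) 0
      rw [add_zero, t1] at this
      rw [this]
      rfl
    have hll : (t ++ [b]).length = n + 1 := by simp [t1]
    refine ⟨t ++ [b], ⟨hll, ?_, ⟨s0, ?_⟩, ?_⟩, ?_⟩
    · intro i j hi hij hj s
      rw [hll] at hj
      rw [hv i (by omega), hv j hj]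
      have f1 := t2 (i - 1) (by omega) (by omega)
      have f2 := t2 (j - 1) (by omega) (by omega)
      rw [Nat.sub_add_cancel hi] at f1
      rw [Nat.sub_add_cancel (by omega : 1 ≤ j)] at f2
      rw [f1, f2]
      intro e
      have := congrArg Fin.val (h1 _ _ s e)
      simp only at this
      omega
    · rw [hll, hv _ le_rfl]
      exact hlast
    · rw [hll, dx_s, dx_append (by omega), htf]
      exact b1.symm
    · funext i
      have := t2 i.val (by omega) (by omega)
      unfold wk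
      rw [hv _ (by omega), this]

/-- **The words are the walks.** -/
theorem card_words {w : ℤ × ℤ} (hw0 : w ≠ 0) (n : ℕ) : (Wd w n).ncard = (saws w n).ncard :=
  Set.ncard_congr (fun t _ => wk n t) (fun _ ht => wk_mem ht) (fun _ _ hs ht h => wk_inj hs ht h)
    (fun _ hx => by
      obtain ⟨t, ht, e⟩ := wk_surj hw0 hx
      exact ⟨t, ht, e⟩)

/-! ### the sum -/

theorem zc_eq : zc = xc := CylSaw.zc_eq

/-- **a limit of the sums over the words is the generating function of the walks.** -/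
theorem hasSum_gen {C : Nm} {w : ℤ × ℤ} (hw0 : w ≠ 0) (hC : Cls C w) {Ω : ℕ → Finset Pt} (hmono : Monotone Ω)
    (hΩ : ∀ F : Finset Pt, (∀ v ∈ F, Vt v ∧ C.nm v = v) → ∃ m, F ⊆ Ω m) {W : ℝ}
    (hW : Tendsto (fun m => C.Ws xc (Ω m) {pE C w} (pL 0)) atTop (𝓝 W)) :
    HasSum (fun n : ℕ => ((saws w n).ncard : ℝ) * zc ^ (n + 1)) W := by
  classical
  obtain ⟨Fm, hFm⟩ : ∃ Fm : ℕ → Finset (List Bool), Fm = fun m => (C.arr (Ω m) (pL 0)).filter
      (fun t => C.rv (C.le (pL 0) t) ∈ ({pE C w} : Finset (Pt × Pt))) := ⟨_, rfl⟩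
  have hmem : ∀ m t, t ∈ Fm m ↔ C.Arr (Ω m) (pL 0) t ∧ C.rv (C.le (pL 0) t) = pE C w := by
    intro m t
    rw [hFm, Finset.mem_filter, Nm.mem_arr, Finset.mem_singleton]
  have hgf : ∀ m, gf (Fm m : Set (List Bool)) = ENNReal.ofReal (C.Ws xc (Ω m) {pE C w} (pL 0)) := by
    intro m
    rw [gf_finset, hFm]
    rfl
  have hmF : Monotone fun m => (Fm m : Set (List Bool)) := by
    intro m m' h t ht
    rw [Finset.mem_coe, hmem] at ht ⊢
    exact ⟨GLD.arr_mono (hmono h) ht.1, ht.2⟩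
  have hU : (⋃ n, Wd w n) = ⋃ m, (Fm m : Set (List Bool)) := by
    ext t
    rw [Set.mem_iUnion, Set.mem_iUnion, ← mem_words hC hΩ]
    constructor
    · rintro ⟨⟨m, hm⟩, h⟩
      exact ⟨m, (hmem m t).2 ⟨hm, h⟩⟩
    · rintro ⟨m, hm⟩
      rw [Finset.mem_coe, hmem] at hm
      exact ⟨⟨m, hm.1⟩, hm.2⟩
  have hWm : Monotone fun m => C.Ws xc (Ω m) {pE C w} (pL 0) := fun _ _ h => GLD.Ws_mono (hmono h) _ _ xc_pos.le
  have hle : ∀ m, C.Ws xc (Ω m) {pE C w} (pL 0) ≤ W := fun m => hWm.ge_of_tendsto hW m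
  have hW0 : 0 ≤ W := le_trans (Finset.sum_nonneg fun _ _ => pow_nonneg xc_pos.le _) (hle 0)
  have hall : gf (⋃ n, Wd w n) = ENNReal.ofReal W := by
    refine le_antisymm ?_ ?_
    · refine gf_le_of_mono_union _ hmF hU.le fun m => ?_
      rw [hgf]
      exact ENNReal.ofReal_le_ofReal (hle m)
    · have h1 : Tendsto (fun m => ENNReal.ofReal (C.Ws xc (Ω m) {pE C w} (pL 0))) atTop (𝓝 (ENNReal.ofReal W)) :=
        (ENNReal.continuous_ofReal.tendsto W).comp hW
      refine le_of_tendsto' h1 fun m => ?_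
      rw [← hgf, hU]
      exact gf_mono (Set.subset_iUnion (fun m => (Fm m : Set (List Bool))) m)
  have hd : ∀ i j : ℕ, i ≠ j → Disjoint (Wd w i) (Wd w j) := by
    intro i j hij
    rw [Set.disjoint_left]
    intro t h1 h2
    have := h1.1.symm.trans h2.1
    omega
  rw [gf_disj hd] at hall
  have h2 : ∀ n, gf (Wd w n) = ENNReal.ofReal (((saws w n).ncard : ℝ) * zc ^ (n + 1)) := fun n => by
    rw [gf_len' (n := n + 1) fun t ht => ht.1, card_words hw0, zc_eq]
  simp only [h2] at hall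
  have hnn : ∀ n : ℕ, 0 ≤ ((saws w n).ncard : ℝ) * zc ^ (n + 1) := fun n => by
    rw [zc_eq]
    exact mul_nonneg (Nat.cast_nonneg _) (pow_nonneg xc_pos.le _)
  have h3 : Summable fun n : ℕ => ((saws w n).ncard : ℝ) * zc ^ (n + 1) := by
    have h4 := ENNReal.summable_toReal (f := fun n : ℕ => ENNReal.ofReal (((saws w n).ncard : ℝ) * zc ^ (n + 1)))
      (by rw [hall]; exact ENNReal.ofReal_ne_top)
    refine h4.congr fun n => ?_
    rw [ENNReal.toReal_ofReal (hnn n)]
  have h5 := ENNReal.ofReal_tsum_of_nonneg hnn h3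
  rw [hall] at h5
  have h6 : ∑' n : ℕ, ((saws w n).ncard : ℝ) * zc ^ (n + 1) = W :=
    (ENNReal.ofReal_eq_ofReal_iff (tsum_nonneg hnn) hW0).1 h5
  rw [← h6]
  exact h3.hasSum

end Pool.Agent.HexTwo
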