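import Mathlib.Combinatorics.SimpleGraph.Basic
import Mathlib.Data.Sym.Sym2
import Mathlib.Data.Set.Card
import Mathlib.Analysis.SpecialFunctions.Pow.Real
import Mathlib.Topology.Algebra.InfiniteSum.Real

/-!
# Self-avoiding walks of the honeycomb lattice modulo a period: the public definitions (helper69)

The honeycomb lattice: the white vertex `(j, r, false)` in the column `j` and the row `r` has the three black neighbours
`(j, r, true)`, `(j - 1, r, true)`, `(j, r - 1, true)`.  A translation `w` is given by its numbers of columns and rows.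
-/

set_option autoImplicit false

namespace Pool.Agent.HexTwo

/-- Vertices: column, row, colour (`false` = white, `true` = black). -/
abbrev V : Type := ℤ × ℤ × Bool

/-- `u` is white, `v` is black, and they are neighbours. -/
def WB (u v : V) : Prop :=
  u.2.2 = false ∧ v.2.2 = true ∧
    ((v.1 = u.1 ∧ v.2.1 = u.2.1) ∨ (v.1 = u.1 - 1 ∧ v.2.1 = u.2.1) ∨ (v.1 = u.1 ∧ v.2.1 = u.2.1 - 1))

/-- The honeycomb lattice. -/
def hex : SimpleGraph V where
  Adj u v := WB u v ∨ WB v u
  symm := ⟨fun _ _ h => h.symm⟩
  loopless := ⟨fun u h => by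
    rcases h with h | h <;> exact absurd (h.1.symm.trans h.2.1) (by decide)⟩

/-- The vertex `v` moved by `w`. -/
def sh (w : ℤ × ℤ) (v : V) : V := (v.1 + w.1, v.2.1 + w.2, v.2.2)

/-- The edge `e` between the black vertex `(-1, 0)` and the white vertex `(0, 0)`, moved by `w`. -/
def cut (w : ℤ × ℤ) : Sym2 V := s(sh w (-1, 0, true), sh w (0, 0, false))

/-- The self-avoiding walks with `n` steps on the cylinder (honeycomb lattice modulo `2 w`) from the white end of `e` to
the white end of `e + w` that use neither `e` nor `e + w`, given by their lifts to the plane from `(0, 0, false)`: no two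
vertices of the lift differ by a multiple of `2 w`, the last vertex is the white end of `e + w` modulo `2 w`. -/
def saws (w : ℤ × ℤ) (n : ℕ) : Set (Fin (n + 1) → V) :=
  {x | x 0 = (0, 0, false) ∧ (∃ t : ℤ, x (Fin.last n) = sh ((2 * t + 1) • w) (0, 0, false)) ∧
    (∀ (i j : Fin (n + 1)) (t : ℤ), x i = sh ((2 * t) • w) (x j) → i = j) ∧
    ∀ i : Fin n, hex.Adj (x i.castSucc) (x i.succ) ∧ ∀ t : ℤ, s(x i.castSucc, x i.succ) ≠ cut (t • w)}

/-- The critical fugacity of the honeycomb lattice (Nienhuis; Duminil-Copin and Smirnov). -/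
noncomputable def zc : ℝ := 1 / √(2 + √2)

end Pool.Agent.HexTwo
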