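import Pool.Agent.STR.PubDef

/-!
# Self-avoiding walks of the honeycomb lattice modulo a period, every type of edge: the public definitions (helper60)

`saws3 k w n`: as `saws w n` for the edge number `k` (`k = 0, 1, 2`) of the white vertex `(0, 0)`; `saws w n` is the
case `k = 0`.  `qf w` is the square of the length of the translation `w` (the columns and the rows are translations of
length 1 that form an angle of 60 degrees).  `Cone k w`: the translation `w` is not within 30 degrees of the edge
number `k`, i.e. the angle between `w` and the edge is larger than 30 degrees.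
-/

set_option autoImplicit false

namespace Pool.Agent.HexTwo

/-- The black ends of the three edges of the white vertex `(0, 0, false)`. -/
def blk : Fin 3 → V
  | 0 => (-1, 0, true)
  | 1 => (0, 0, true)
  | 2 => (0, -1, true)

/-- The edge number `k` of the white vertex `(0, 0, false)`, moved by `w`. -/
def cut3 (k : Fin 3) (w : ℤ × ℤ) : Sym2 V := s(sh w (blk k), sh w (0, 0, false))

/-- The self-avoiding walks with `n` steps on the cylinder (honeycomb lattice modulo `2 w`) from the white end of the
edge `e` number `k` to the white end of `e + w` that use neither `e` nor `e + w`, given by their lifts to the plane from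
`(0, 0, false)`: no two vertices of the lift differ by a multiple of `2 w`, the last vertex is the white end of `e + w`
modulo `2 w`. -/
def saws3 (k : Fin 3) (w : ℤ × ℤ) (n : ℕ) : Set (Fin (n + 1) → V) :=
  {x | x 0 = (0, 0, false) ∧ (∃ t : ℤ, x (Fin.last n) = sh ((2 * t + 1) • w) (0, 0, false)) ∧
    (∀ (i j : Fin (n + 1)) (t : ℤ), x i = sh ((2 * t) • w) (x j) → i = j) ∧
    ∀ i : Fin n, hex.Adj (x i.castSucc) (x i.succ) ∧ ∀ t : ℤ, s(x i.castSucc, x i.succ) ≠ cut3 k (t • w)}

/-- The square of the length of a translation. -/
def qf (w : ℤ × ℤ) : ℤ := w.1 ^ 2 + w.1 * w.2 + w.2 ^ 2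

/-- The angle between the edge number `k` and the translation `w` is larger than 30 degrees. -/
def Cone : Fin 3 → ℤ × ℤ → Prop
  | 0, w => 0 < w.2 * (w.1 + w.2)
  | 1, w => w.1 * w.2 < 0
  | 2, w => 0 < w.1 * (w.1 + w.2)

end Pool.Agent.HexTwo
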