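import Pool.Agent.STR.PubDef

/-!
# Self-avoiding walks of the honeycomb lattice between two edges of different kinds: the public definitions (helper60)

The edge `e` joins the black vertex `(-1, 0)` and the white vertex `(0, 0)`; the edge `e'` joins the white and the black
vertex of the column `u.1` and the row `u.2`.  The middle of `e'` is the middle of `e` moved by `w = u + (1/2, 0)`, and the
two edges are mirror images of each other.
-/

set_option autoImplicit false

namespace Pool.Agent.HexTwo

/-- The period `2 w = 2 u + (1, 0)`. -/
def per (u : ℤ × ℤ) : ℤ × ℤ := (2 * u.1 + 1, 2 * u.2)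

/-- The edge between the white and the black vertex `(0, 0)`, moved by `u`. -/
def cutO (u : ℤ × ℤ) : Sym2 V := s(sh u (0, 0, false), sh u (0, 0, true))

/-- The self-avoiding walks with `n` steps on the cylinder (honeycomb lattice modulo `per u`) from the white end of `e`
to the black end of `e'` that use neither `e` nor `e'`, given by their lifts to the plane from `(0, 0, false)`: no two
vertices of the lift differ by a multiple of `per u`, the last vertex is the black end of `e'` modulo `per u`. -/
def sawsO (u : ℤ × ℤ) (n : ℕ) : Set (Fin (n + 1) → V) :=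
  {x | x 0 = (0, 0, false) ∧ (∃ t : ℤ, x (Fin.last n) = sh (t • per u + u) (0, 0, true)) ∧
    (∀ (i j : Fin (n + 1)) (t : ℤ), x i = sh (t • per u) (x j) → i = j) ∧
    ∀ i : Fin n, hex.Adj (x i.castSucc) (x i.succ) ∧
      ∀ t : ℤ, s(x i.castSucc, x i.succ) ≠ cut (t • per u) ∧ s(x i.castSucc, x i.succ) ≠ cutO (t • per u + u)}

end Pool.Agent.HexTwo
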