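import Pool.Agent.STR.PubDef3
import Mathlib.Tactic.Linarith
import Mathlib.Tactic.Ring

/-!
# The symmetries of the walks modulo a period (project ISO, T9)

`red`: the numbers of the walks of every edge type `k` and every translation `w` in the cone of `k` are those of
`saws (-b, m)` with `b + 1 ≤ m`, `qf (-b, m) = qf w`.  `exists_cone`: every translation `≠ 0` is in a cone.
-/

set_option autoImplicit false

namespace Pool.Agent.HexTwo

theorem saws3_zero (w : ℤ × ℤ) (n : ℕ) : saws3 0 w n = saws w n := rfl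

theorem sh_zero (v : V) : sh (0 : ℤ × ℤ) v = v := by
  simp [sh]

/-- symmetries of the lattice. -/
structure Mor (φ : V → V) (L : ℤ × ℤ → ℤ × ℤ) (k k' : Fin 3) : Prop where
  inj : Function.Injective φ
  adj : ∀ u v, hex.Adj u v → hex.Adj (φ u) (φ v)
  tr : ∀ w v, φ (sh w v) = sh (L w) (φ v)
  smul : ∀ (t : ℤ) (w : ℤ × ℤ), L (t • w) = t • L w
  zero : φ (0, 0, false) = (0, 0, false)
  cut : φ (blk k) = blk k'

theorem Mor.maps {φ : V → V} {L : ℤ × ℤ → ℤ × ℤ} {k k' : Fin 3} (h : Mor φ L k k') {w : ℤ × ℤ} {n : ℕ}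
    {x : Fin (n + 1) → V} (hx : x ∈ saws3 k w n) : (fun i => φ (x i)) ∈ saws3 k' (L w) n := by
  obtain ⟨h1, ⟨t, h2⟩, h3, h4⟩ := hx
  refine ⟨?_, ⟨t, ?_⟩, ?_, ?_⟩
  · simp only [h1, h.zero]
  · simp only [h2, h.tr, h.smul, h.zero]
  · intro i j t e
    apply h3 i j t
    apply h.inj
    rw [h.tr, h.smul]
    exact e
  · intro i
    refine ⟨h.adj _ _ (h4 i).1, fun t e => (h4 i).2 t ?_⟩
    have e1 : cut3 k' (t • L w) = Sym2.map φ (cut3 k (t • w)) := by
      unfold cut3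
      rw [Sym2.map_mk, h.tr, h.tr, h.smul, h.zero, h.cut]
    rw [e1] at e
    apply Sym2.map.injective h.inj
    rw [Sym2.map_mk]
    exact e

theorem Mor.card {φ ψ : V → V} {L M : ℤ × ℤ → ℤ × ℤ} {k k' : Fin 3} (h : Mor φ L k k') (h' : Mor ψ M k' k)
    (h1 : ∀ v, φ (ψ v) = v) (h2 : ∀ w, M (L w) = w) (w : ℤ × ℤ) (n : ℕ) :
    (saws3 k' (L w) n).ncard = (saws3 k w n).ncard := by
  have e : (fun (x : Fin (n + 1) → V) i => φ (x i)) '' saws3 k w n = saws3 k' (L w) n := by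
    ext y
    constructor
    · rintro ⟨x, hx, rfl⟩
      exact h.maps hx
    · intro hy
      refine ⟨fun i => ψ (y i), ?_, funext fun i => h1 _⟩
      have := h'.maps hy
      rwa [h2] at this
  rw [← e]
  refine Set.ncard_image_of_injective _ fun x y hxy => funext fun i => h.inj ?_
  exact congrFun hxy i

/-! ### the reflection in the line of the edge number 0 -/

/-- the reflection of the vertices. -/
def rfv : V → V
  | (j, r, false) => (j, -j - r, false)
  | (j, r, true) => (j, -j - r - 1, true)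

/-- the reflection of the translations. -/
def rft (w : ℤ × ℤ) : ℤ × ℤ := (w.1, -w.1 - w.2)

theorem rfv_rfv (v : V) : rfv (rfv v) = v := by
  obtain ⟨j, r, _ | _⟩ := v <;> simp only [rfv, Prod.mk.injEq, true_and, and_true] <;> ring

theorem adj_iff {j r j' r' : ℤ} : hex.Adj (j, r, false) (j', r', true) ↔
    (j' = j ∧ r' = r) ∨ (j' = j - 1 ∧ r' = r) ∨ (j' = j ∧ r' = r - 1) := by
  show WB _ _ ∨ WB _ _ ↔ _
  unfold WB
  simp

theorem not_adj {j r j' r' : ℤ} (b : Bool) : ¬ hex.Adj (j, r, b) (j', r', b) := by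
  show ¬ (WB _ _ ∨ WB _ _)
  unfold WB
  cases b <;> simp

theorem adj_of {φ : V → V} (hc : ∀ v, (φ v).2.2 = v.2.2) (h : ∀ j r j' r', hex.Adj (j, r, false) (j', r', true) →
    hex.Adj (φ (j, r, false)) (φ (j', r', true))) (u v : V) (huv : hex.Adj u v) : hex.Adj (φ u) (φ v) := by
  obtain ⟨j, r, b⟩ := u
  obtain ⟨j', r', b'⟩ := v
  cases b <;> cases b'
  · exact absurd huv (not_adj _)
  · exact h _ _ _ _ huv
  · exact (h _ _ _ _ huv.symm).symm
  · exact absurd huv (not_adj _)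

theorem rfv_adj (u v : V) (huv : hex.Adj u v) : hex.Adj (rfv u) (rfv v) := by
  refine adj_of (fun v => ?_) (fun j r j' r' h => ?_) u v huv
  · obtain ⟨j, r, _ | _⟩ := v <;> rfl
  · rw [adj_iff] at h
    show hex.Adj (j, -j - r, false) (j', -j' - r' - 1, true)
    rw [adj_iff]
    omega

theorem mor_rf : Mor rfv rft 0 0 where
  inj := Function.LeftInverse.injective rfv_rfv
  adj := rfv_adj
  tr w v := by
    obtain ⟨j, r, _ | _⟩ := v <;> simp only [rfv, sh, rft, Prod.mk.injEq, true_and, and_true] <;> ring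
  smul t w := by
    simp only [rft, Prod.smul_fst, Prod.smul_snd, smul_eq_mul, Prod.smul_mk, Prod.mk.injEq, true_and]
    ring
  zero := rfl
  cut := rfl

theorem card_rf (w : ℤ × ℤ) (n : ℕ) : (saws3 0 (rft w) n).ncard = (saws3 0 w n).ncard :=
  mor_rf.card mor_rf rfv_rfv (fun w => by simp [rft]) w n

/-! ### the rotation by 120 degrees -/

/-- the rotation of the vertices around the white vertex `(0, 0)`. -/
def rov : V → V
  | (j, r, false) => (r, -j - r, false)
  | (j, r, true) => (r, -j - r - 1, true)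

/-- the inverse rotation. -/
def riv : V → V
  | (j, r, false) => (-j - r, j, false)
  | (j, r, true) => (-j - r - 1, j, true)

/-- the rotation of the translations. -/
def rot (w : ℤ × ℤ) : ℤ × ℤ := (w.2, -w.1 - w.2)

/-- the inverse rotation of the translations. -/
def rit (w : ℤ × ℤ) : ℤ × ℤ := (-w.1 - w.2, w.1)

theorem rov_riv (v : V) : rov (riv v) = v := by
  obtain ⟨j, r, _ | _⟩ := v <;> simp only [rov, riv, Prod.mk.injEq, true_and, and_true] <;> ring

theorem riv_rov (v : V) : riv (rov v) = v := by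
  obtain ⟨j, r, _ | _⟩ := v <;> simp only [rov, riv, Prod.mk.injEq, true_and, and_true] <;> ring

theorem rov_adj (u v : V) (huv : hex.Adj u v) : hex.Adj (rov u) (rov v) := by
  refine adj_of (fun v => ?_) (fun j r j' r' h => ?_) u v huv
  · obtain ⟨j, r, _ | _⟩ := v <;> rfl
  · rw [adj_iff] at h
    show hex.Adj (r, -j - r, false) (r', -j' - r' - 1, true)
    rw [adj_iff]
    omega

theorem riv_adj (u v : V) (huv : hex.Adj u v) : hex.Adj (riv u) (riv v) := by
  refine adj_of (fun v => ?_) (fun j r j' r' h => ?_) u v huv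
  · obtain ⟨j, r, _ | _⟩ := v <;> rfl
  · rw [adj_iff] at h
    show hex.Adj (-j - r, j, false) (-j' - r' - 1, j', true)
    rw [adj_iff]
    omega

theorem mor_ro (k : Fin 3) : Mor rov rot k (k + 1) where
  inj := Function.LeftInverse.injective riv_rov
  adj := rov_adj
  tr w v := by
    obtain ⟨j, r, _ | _⟩ := v <;> simp only [rov, sh, rot, Prod.mk.injEq, true_and, and_true] <;> ring
  smul t w := by
    simp only [rot, Prod.smul_fst, Prod.smul_snd, smul_eq_mul, Prod.smul_mk, Prod.mk.injEq, true_and]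
    ring
  zero := rfl
  cut := by fin_cases k <;> rfl

theorem mor_ri (k : Fin 3) : Mor riv rit (k + 1) k where
  inj := Function.LeftInverse.injective rov_riv
  adj := riv_adj
  tr w v := by
    obtain ⟨j, r, _ | _⟩ := v <;> simp only [riv, sh, rit, Prod.mk.injEq, and_true] <;> ring
  smul t w := by
    simp only [rit, Prod.smul_fst, Prod.smul_snd, smul_eq_mul, Prod.smul_mk, Prod.mk.injEq, and_true]
    ring
  zero := rfl
  cut := by fin_cases k <;> rfl

theorem rot_rit (w : ℤ × ℤ) : rot (rit w) = w := by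
  simp only [rot, rit]
  refine Prod.ext rfl ?_
  simp only
  ring

theorem rit_rot (w : ℤ × ℤ) : rit (rot w) = w := by
  simp only [rot, rit]
  refine Prod.ext ?_ rfl
  simp only
  ring

theorem card_ro (k : Fin 3) (w : ℤ × ℤ) (n : ℕ) : (saws3 (k + 1) (rot w) n).ncard = (saws3 k w n).ncard :=
  (mor_ro k).card (mor_ri k) rov_riv rit_rot w n

theorem card_ri (k : Fin 3) (w : ℤ × ℤ) (n : ℕ) : (saws3 (k + 1) w n).ncard = (saws3 k (rit w) n).ncard := by
  rw [← card_ro k (rit w), rot_rit]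

/-! ### the reversal of the translation -/

theorem saws3_neg (k : Fin 3) (w : ℤ × ℤ) (n : ℕ) : saws3 k (-w) n = saws3 k w n := by
  have key : ∀ u : ℤ × ℤ, saws3 k (-u) n ⊆ saws3 k u n := by
    rintro u x ⟨h1, ⟨t, h2⟩, h3, h4⟩
    refine ⟨h1, ⟨-t - 1, ?_⟩, fun i j t e => h3 i j (-t) ?_, fun i => ⟨(h4 i).1, fun t => ?_⟩⟩
    · rw [h2]
      congr 1
      rw [smul_neg, ← neg_smul]
      congr 1
      ring
    · rw [e]
      congr 1
      rw [smul_neg, ← neg_smul]
      congr 1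
      ring
    · have := (h4 i).2 (-t)
      rwa [smul_neg, neg_smul, neg_neg] at this
  apply Set.Subset.antisymm (key w)
  have := key (-w)
  rwa [neg_neg] at this

/-! ### all directions -/

theorem qf_neg (w : ℤ × ℤ) : qf (-w) = qf w := by
  simp only [qf, Prod.fst_neg, Prod.snd_neg]
  ring

theorem qf_rft (w : ℤ × ℤ) : qf (rft w) = qf w := by
  simp only [qf, rft]
  ring

theorem qf_rit (w : ℤ × ℤ) : qf (rit w) = qf w := by
  simp only [qf, rit]
  ring

theorem cone_rit (k : Fin 3) {w : ℤ × ℤ} (h : Cone (k + 1) w) : Cone k (rit w) := by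
  obtain ⟨j, r⟩ := w
  fin_cases k
  · have h' : j * r < 0 := h
    show 0 < j * (-j - r + j)
    nlinarith
  · have h' : 0 < j * (j + r) := h
    show (-j - r) * j < 0
    nlinarith
  · have h' : 0 < r * (j + r) := h
    show 0 < (-j - r) * (-j - r + j)
    nlinarith

/-- the half cone of the edge number 0. -/
theorem red_zero' {w : ℤ × ℤ} (h1 : 0 < w.2) (h2 : 0 < w.1 + w.2) : ∃ b m : ℕ, b + 1 ≤ m ∧
    qf (-(b : ℤ), (m : ℤ)) = qf w ∧ ∀ n, (saws3 0 w n).ncard = (saws (-(b : ℤ), (m : ℤ)) n).ncard := by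
  obtain ⟨j, r⟩ := w
  simp only at h1 h2
  rcases le_or_gt j 0 with h | h
  · obtain ⟨b, hb⟩ := Int.eq_ofNat_of_zero_le (show 0 ≤ -j by omega)
    obtain ⟨m, hm⟩ := Int.eq_ofNat_of_zero_le h1.le
    have e : ((j, r) : ℤ × ℤ) = (-(b : ℤ), (m : ℤ)) := Prod.ext (by simp only; omega) hm
    refine ⟨b, m, by omega, by rw [e], fun n => by rw [e, saws3_zero]⟩
  · obtain ⟨b, hb⟩ := Int.eq_ofNat_of_zero_le h.le
    obtain ⟨m, hm⟩ := Int.eq_ofNat_of_zero_le h2.le
    have e : -rft ((j, r) : ℤ × ℤ) = (-(b : ℤ), (m : ℤ)) := by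
      simp only [rft]
      refine Prod.ext ?_ ?_
      · show -j = -(b : ℤ)
        omega
      · show -(-j - r) = (m : ℤ)
        omega
    refine ⟨b, m, by omega, ?_, fun n => ?_⟩
    · rw [← e, qf_neg, qf_rft]
    · rw [← saws3_zero, ← e, saws3_neg, card_rf]

theorem red_zero {w : ℤ × ℤ} (h : Cone 0 w) : ∃ b m : ℕ, b + 1 ≤ m ∧
    qf (-(b : ℤ), (m : ℤ)) = qf w ∧ ∀ n, (saws3 0 w n).ncard = (saws (-(b : ℤ), (m : ℤ)) n).ncard := by
  have h' : 0 < w.2 * (w.1 + w.2) := h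
  rcases pos_and_pos_or_neg_and_neg_of_mul_pos h' with ⟨h1, h2⟩ | ⟨h1, h2⟩
  · exact red_zero' h1 h2
  · obtain ⟨b, m, h3, h4, h5⟩ := red_zero' (w := -w) (by simp only [Prod.snd_neg]; omega)
      (by simp only [Prod.fst_neg, Prod.snd_neg]; omega)
    refine ⟨b, m, h3, by rw [h4, qf_neg], fun n => ?_⟩
    rw [← h5, saws3_neg]

/-- **Every edge type and every translation of its cone.** -/
theorem red (k : Fin 3) {w : ℤ × ℤ} (h : Cone k w) : ∃ b m : ℕ, b + 1 ≤ m ∧
    qf (-(b : ℤ), (m : ℤ)) = qf w ∧ ∀ n, (saws3 k w n).ncard = (saws (-(b : ℤ), (m : ℤ)) n).ncard := by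
  have h1 : ∀ {w : ℤ × ℤ}, Cone 1 w → ∃ b m : ℕ, b + 1 ≤ m ∧ qf (-(b : ℤ), (m : ℤ)) = qf w ∧
      ∀ n, (saws3 1 w n).ncard = (saws (-(b : ℤ), (m : ℤ)) n).ncard := by
    intro w hw
    obtain ⟨b, m, h3, h4, h5⟩ := red_zero (cone_rit 0 hw)
    refine ⟨b, m, h3, by rw [h4, qf_rit], fun n => ?_⟩
    rw [← h5]
    exact card_ri 0 w n
  have h2 : ∀ {w : ℤ × ℤ}, Cone 2 w → ∃ b m : ℕ, b + 1 ≤ m ∧ qf (-(b : ℤ), (m : ℤ)) = qf w ∧
      ∀ n, (saws3 2 w n).ncard = (saws (-(b : ℤ), (m : ℤ)) n).ncard := by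
    intro w hw
    obtain ⟨b, m, h3, h4, h5⟩ := h1 (cone_rit 1 hw)
    refine ⟨b, m, h3, by rw [h4, qf_rit], fun n => ?_⟩
    rw [← h5]
    exact card_ri 1 w n
  fin_cases k
  · exact red_zero h
  · exact h1 h
  · exact h2 h

/-- **Every translation is in the cone of an edge.** -/
theorem exists_cone {w : ℤ × ℤ} (hw : w ≠ 0) : ∃ k, Cone k w := by
  obtain ⟨j, r⟩ := w
  by_contra hc
  have h0 : ¬ 0 < r * (j + r) := fun h => hc ⟨0, h⟩
  have h1 : ¬ j * r < 0 := fun h => hc ⟨1, h⟩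
  have h2 : ¬ 0 < j * (j + r) := fun h => hc ⟨2, h⟩
  have h3 : j * j + r * r ≤ 0 := by nlinarith
  have h4 : j = 0 := by nlinarith [mul_self_nonneg j, mul_self_nonneg r]
  have h5 : r = 0 := by nlinarith [mul_self_nonneg j, mul_self_nonneg r]
  exact hw (by rw [h4, h5]; rfl)

theorem qf_pos {w : ℤ × ℤ} (hw : w ≠ 0) : 0 < qf w := by
  obtain ⟨j, r⟩ := w
  have h : 0 ≤ (2 * j + r) ^ 2 + 3 * r ^ 2 := by positivity
  by_contra hc
  have h1 : qf (j, r) ≤ 0 := by omega
  simp only [qf] at h1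
  have h2 : r = 0 := by nlinarith [sq_nonneg (2 * j + r), sq_nonneg r]
  subst h2
  have h3 : j = 0 := by nlinarith [sq_nonneg j]
  exact hw (by rw [h3]; rfl)

end Pool.Agent.HexTwo
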