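import Pool.Agent.STR.Stair
import Pool.Agent.STR.Sym3

/-!
# From a law of the two-point functions of the stairs to a law for every edge and every direction (project ISO, T9)

`two_point3`: a law of `WS (stD m b)` for all `b < m` gives the law of the generating functions of the walks modulo
`2 w` for every type of edge and every translation of its cone.  `two_point_dir`: the same for the multiples of one
translation.
-/

set_option autoImplicit false

namespace Pool.Agent.STR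

open Pool.Agent.HexTwo Filter Topology

/-- the two-point function of the direction `(-b, m)`. -/
noncomputable def GS (b m : ℕ) : ℝ := if h : 1 ≤ m ∧ b ≤ m then (WS (stD m b h.1 h.2) h.1).re else 0

theorem GS_eq {b m : ℕ} (hm : 1 ≤ m) (hb : b ≤ m) : GS b m = (WS (stD m b hm hb) hm).re := by
  unfold GS
  rw [dif_pos ⟨hm, hb⟩]

theorem hasSum_GS {b m : ℕ} (h : b + 1 ≤ m) :
    HasSum (fun k : ℕ => ((saws (-(b : ℤ), (m : ℤ)) k).ncard : ℝ) * zc ^ (k + 1)) (GS b m) := by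
  rw [GS_eq (by omega) (by omega)]
  exact (two_stD (by omega) h).hasSum_WS (by omega)

/-- the generating function of every edge type and every translation of its cone. -/
theorem hasSum3 (k : Fin 3) {w : ℤ × ℤ} (h : Cone k w) : ∃ b m : ℕ, b + 1 ≤ m ∧ qf (-(b : ℤ), (m : ℤ)) = qf w ∧
    HasSum (fun n : ℕ => ((saws3 k w n).ncard : ℝ) * zc ^ (n + 1)) (GS b m) := by
  obtain ⟨b, m, h1, h2, h3⟩ := red k h
  refine ⟨b, m, h1, h2, ?_⟩
  have h4 := hasSum_GS h1
  simp only [← h3] at h4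
  exact h4

/-- **All edges, all directions, one constant.** -/
theorem two_point3 {a δ A C : ℝ} (h : ∀ b m : ℕ, b + 1 ≤ m →
      |GS b m * (qf (-(b : ℤ), (m : ℤ)) : ℝ) ^ a - A| ≤ C * (qf (-(b : ℤ), (m : ℤ)) : ℝ) ^ δ) :
    ∀ (k : Fin 3) (w : ℤ × ℤ), Cone k w → ∃ G : ℝ,
      HasSum (fun n : ℕ => ((saws3 k w n).ncard : ℝ) * zc ^ (n + 1)) G ∧
      |G * (qf w : ℝ) ^ a - A| ≤ C * (qf w : ℝ) ^ δ := by
  intro k w hw
  obtain ⟨b, m, h1, h2, h3⟩ := hasSum3 k hw
  refine ⟨GS b m, h3, ?_⟩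
  rw [← h2]
  exact h b m h1

/-- **One direction: the multiples of a translation.** -/
theorem two_point_dir {a A : ℝ} {b m : ℕ} (hb : b + 1 ≤ m)
    (h : Tendsto (fun j : ℕ => GS (j * b) (j * m) * (qf (-((j * b : ℕ) : ℤ), ((j * m : ℕ) : ℤ)) : ℝ) ^ a)
      atTop (𝓝 A)) :
    ∃ G : ℕ → ℝ, (∀ j : ℕ, 1 ≤ j → HasSum (fun n : ℕ =>
        ((saws ((j : ℤ) • (-(b : ℤ), (m : ℤ))) n).ncard : ℝ) * zc ^ (n + 1)) (G j)) ∧
      Tendsto (fun j : ℕ => G j * (qf ((j : ℤ) • (-(b : ℤ), (m : ℤ))) : ℝ) ^ a) atTop (𝓝 A) := by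
  have e : ∀ j : ℕ, (j : ℤ) • (-(b : ℤ), (m : ℤ)) = (-((j * b : ℕ) : ℤ), ((j * m : ℕ) : ℤ)) := by
    intro j
    simp only [Prod.smul_mk, smul_eq_mul, mul_neg]
    push_cast
    rfl
  refine ⟨fun j => GS (j * b) (j * m), fun j hj => ?_, ?_⟩
  · rw [e]
    exact hasSum_GS (by nlinarith)
  · simp only [e]
    exact h

end Pool.Agent.STR
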