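import Pool.Agent.STR.Pub
import Pool.Agent.STR.Dom

/-!
# The slanted cylinder and the walks modulo a period (helper69)

* `cls_Cs`: the classes of `Cs (2 n) (2 b)` are the classes modulo `2 w`, `w = (-b, n)`;
* **`hasSum_str`**: a limit of the sums over the words of the rings `-m, .., m - 1` of a stair is the generating function
  of the walks `saws (-b, n)`.
-/

set_option autoImplicit false

namespace Pool.Agent.STR

open HexObs HexObs.LP Filter Topology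
open Pool.Agent.NUF.Cyl (Nm ri pL)
open Pool.Agent.MXR
open Pool.Agent.HexTwo (ps ps_A ps_B Cls pE saws zc hasSum_gen)

theorem V_A (j r : ℤ) : V (r + 2 * j) r = _root_.EXL.A j r := by
  simp only [V, _root_.EXL.A, Prod.mk.injEq]
  omega

theorem V_B (j r : ℤ) : V (r + 2 * j + 1) r = _root_.EXL.B j r := by
  simp only [V, _root_.EXL.B, Prod.mk.injEq]
  omega

theorem ps_V (x i : ℤ) : ps (V x i) = ((x - i) / 2, i, decide ((x - i) % 2 ≠ 0)) := by
  rcases Int.emod_two_eq_zero_or_one (x - i) with h | h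
  · have e : x = i + 2 * ((x - i) / 2) := by omega
    conv_lhs => rw [e]
    rw [V_A, ps_A, h]
    rfl
  · have e : x = i + 2 * ((x - i) / 2) + 1 := by omega
    conv_lhs => rw [e]
    rw [V_B, ps_B, h]
    rfl

/-- **the classes of the slanted cylinder.** -/
theorem cls_Cs {n b : ℕ} (h : 1 ≤ 2 * n) : Cls (Cs (2 * n) (2 * b) h) (-(b : ℤ), (n : ℤ)) := by
  intro u v hu hv
  obtain ⟨x, i, rfl⟩ := exists_V hu
  obtain ⟨y, j, rfl⟩ := exists_V hv
  rw [nm_Vm, nm_Vm, V_inj, ps_V, ps_V]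
  have hi := Int.mul_ediv_add_emod i ((2 * n : ℕ) : ℤ)
  have hj := Int.mul_ediv_add_emod j ((2 * n : ℕ) : ℤ)
  have hn0 : ((2 * n : ℕ) : ℤ) ≠ 0 := by omega
  unfold STR.sh
  constructor
  · rintro ⟨h1, h2⟩
    refine ⟨i / ((2 * n : ℕ) : ℤ) - j / ((2 * n : ℕ) : ℤ), ?_⟩
    obtain ⟨s, hs⟩ : ∃ s, s = i / ((2 * n : ℕ) : ℤ) - j / ((2 * n : ℕ) : ℤ) := ⟨_, rfl⟩
    rw [← hs]
    have e1 : i = j + ((2 * n : ℕ) : ℤ) * s := by
      rw [hs]
      linear_combination hj - hi + h2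
    have e2 : x = y + (((2 * n : ℕ) : ℤ) - 2 * ((2 * b : ℕ) : ℤ)) * s := by
      rw [hs]
      linear_combination h1
    have e3 : x - i = (y - j) + 2 * (-(2 * s * b)) := by
      rw [e1, e2]
      push_cast
      ring
    unfold HexTwo.sh
    refine Prod.ext ?_ (Prod.ext ?_ ?_)
    · show (x - i) / 2 = (y - j) / 2 + ((2 * s) • ((-(b : ℤ), (n : ℤ)) : ℤ × ℤ)).1
      rw [Prod.smul_fst, smul_eq_mul, e3, show 2 * s * -(b : ℤ) = -(2 * s * b) by ring]
      omega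
    · show i = j + ((2 * s) • ((-(b : ℤ), (n : ℤ)) : ℤ × ℤ)).2
      rw [Prod.smul_snd, smul_eq_mul, e1]
      push_cast
      ring
    · show decide ((x - i) % 2 ≠ 0) = decide ((y - j) % 2 ≠ 0)
      rw [e3]
      congr 1
      rw [eq_iff_iff]
      omega
  · rintro ⟨s, hs⟩
    unfold HexTwo.sh at hs
    have h1 : (x - i) / 2 = (y - j) / 2 + ((2 * s) • ((-(b : ℤ), (n : ℤ)) : ℤ × ℤ)).1 := congrArg Prod.fst hs
    have h2 : i = j + ((2 * s) • ((-(b : ℤ), (n : ℤ)) : ℤ × ℤ)).2 := congrArg (fun p : HexTwo.V => p.2.1) hs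
    have h3 : decide ((x - i) % 2 ≠ 0) = decide ((y - j) % 2 ≠ 0) := congrArg (fun p : HexTwo.V => p.2.2) hs
    rw [Prod.smul_fst, smul_eq_mul] at h1
    rw [Prod.smul_snd, smul_eq_mul] at h2
    simp only at h1 h2
    have h4 : (x - i) % 2 = (y - j) % 2 := by
      rw [decide_eq_decide] at h3
      omega
    have e1 : i = j + ((2 * n : ℕ) : ℤ) * s := by
      push_cast
      rw [h2]
      ring
    have e2 : x - i = y - j + 2 * (2 * s * -(b : ℤ)) := by omega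
    have e3 : i / ((2 * n : ℕ) : ℤ) = j / ((2 * n : ℕ) : ℤ) + s := by
      rw [e1, Int.add_mul_ediv_left _ _ hn0]
    have e4 : i % ((2 * n : ℕ) : ℤ) = j % ((2 * n : ℕ) : ℤ) := by
      rw [e1, Int.add_mul_emod_self_left]
    refine ⟨?_, e4⟩
    rw [e3]
    have e5 : x = y + i - j + 2 * (2 * s * -(b : ℤ)) := by linarith
    rw [e5, e1]
    push_cast
    ring

variable {D : Stp} {N : ℕ}

theorem Dm_mono {m m' : ℕ} (h : m ≤ m') : Dm D N m m ⊆ Dm D N m' m' := by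
  intro v hv
  obtain ⟨x, i, rfl, h1, h2⟩ := exists_of_mem_Dm hv
  rw [mem_Dm]
  exact ⟨⟨by omega, by omega⟩, h2⟩

/-- the rings exhaust the cylinder. -/
theorem Dm_exh {b : ℕ} {hN : 1 ≤ N} (F : Finset Pt) (hF : ∀ v ∈ F, Vt v ∧ (Cs N b hN).nm v = v) :
    ∃ m, F ⊆ Dm D N m m := by
  classical
  induction F using Finset.induction_on with
  | empty => exact ⟨0, Finset.empty_subset _⟩
  | insert v F hv ih =>
    obtain ⟨m, hm⟩ := ih fun u hu => hF u (Finset.mem_insert_of_mem hu)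
    obtain ⟨h1, h2⟩ := hF v (Finset.mem_insert_self _ _)
    obtain ⟨x, i, rfl⟩ := exists_V h1
    have h3 := nm_iff.1 h2
    refine ⟨m + (x - D.o i).natAbs + 1, Finset.insert_subset ?_ (hm.trans (Dm_mono (by omega)))⟩
    rw [mem_Dm]
    refine ⟨⟨?_, ?_⟩, h3⟩ <;> push_cast <;>
      rcases abs_cases (x - D.o i) with ⟨h4, h5⟩ | ⟨h4, h5⟩ <;> rw [h4] <;> linarith

/-- the first half edge. -/
theorem pL_V : pL 0 = (V (-1) 0, dR (-1) 0) := rfl

/-- the last half edge. -/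
theorem pE_V {n b : ℕ} (h : 1 ≤ 2 * n) : pE (Cs (2 * n) (2 * b) h) (-(b : ℤ), (n : ℤ)) =
    (V ((n : ℤ) - 2 * b - 1) n, dR ((n : ℤ) - 2 * b - 1) n) := by
  unfold pE
  have e1 : _root_.EXL.B (-(b : ℤ) - 1) (n : ℤ) = V ((n : ℤ) - 2 * b - 1) n := by
    rw [← V_B]
    congr 1
    ring
  simp only [e1]
  rw [nm_V (by omega) (by push_cast; omega)]
  refine Prod.ext rfl ?_
  show ((1, -1) : Pt) = dR ((n : ℤ) - 2 * b - 1) n
  unfold dR
  rw [if_neg (by omega)]

/-- **a limit of the sums over the words of the rings is the generating function of the walks.** -/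
theorem hasSum_str {n b : ℕ} (hn : 1 ≤ n) (h : 1 ≤ 2 * n) (D : Stp) {W : ℝ}
    (hW : Tendsto (fun m => (Cs (2 * n) (2 * b) h).Ws xc (Dm D (2 * n) m m)
      {(V ((n : ℤ) - 2 * b - 1) n, dR ((n : ℤ) - 2 * b - 1) n)} (V (-1) 0, dR (-1) 0)) atTop (𝓝 W)) :
    HasSum (fun k : ℕ => ((saws (-(b : ℤ), (n : ℤ)) k).ncard : ℝ) * zc ^ (k + 1)) W := by
  refine hasSum_gen (C := Cs (2 * n) (2 * b) h) (w := (-(b : ℤ), (n : ℤ))) ?_ (cls_Cs h)
    (Ω := fun m => Dm D (2 * n) m m) (fun _ _ h => Dm_mono h) (fun F hF => Dm_exh F hF) ?_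
  · intro e
    have := congrArg Prod.snd e
    simp only [Prod.snd_zero] at this
    omega
  · rw [pE_V h, pL_V]
    exact hW

end Pool.Agent.STR
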