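import Pool.Agent.STR.LimS
import Pool.Agent.STR.PubS

/-!
# The two-point function of a stair is the generating function of the walks modulo 2 w (project ISO, T9, M6')

`hasSum_WS`: for a stair with `2 n` rows whose rows `0` and `n` are normal, `d 0 = 0`, `d n = n - 2 b`,
`d (2 n) = 2 n - 4 b`, the two-point function `WS D` is the generating function of the self-avoiding walks of the
honeycomb lattice modulo `2 w`, `w = (-b, n)`.
-/

set_option autoImplicit false

namespace Pool.Agent.STR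

open Pool.Agent.EXL hiding cc
open Pool.Agent.EXL.Pat Pool.Agent.EXL.Net HexObs Filter Topology
open Pool.Agent.NUN (cc Xr Xl)
open Pool.Agent.NUNC (dd)
open Pool.Agent.HexTwo (saws zc)
open Pool.Agent.MXR (V dR dL XR XL Rest rowI rowJ r0 rk rest_rows)

variable {N b : ℕ} {D : Stp}

/-- the stairs from `0` over `(n - 2 b, n)` to `(2 n - 4 b, 2 n)` whose rows `0` and `n` are normal. -/
structure Two (D : Stp) (n b : ℕ) : Prop where
  d0 : D.d 0 = 0
  dn : D.d (n : ℤ) = n - 2 * b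
  d2 : D.d (2 * n : ℤ) = 2 * n - 4 * b
  m0 : D.mi 0 = false
  mn : D.mi (n : ℤ) = false

namespace Two

variable {n : ℕ} (h : Two D n b)
include h

theorem hS : D.d ((2 * n : ℕ) : ℤ) = D.d 0 + sh (2 * n) (2 * b) := by
  have := h.d2
  push_cast at this ⊢
  rw [this, h.d0]
  unfold sh
  push_cast
  ring

theorem o0 : D.o 0 = 0 := by
  rcases D.cases 0 with ⟨-, h2, -⟩ | ⟨h1, -, -⟩
  · rw [h2, h.d0]
  · rw [h.m0] at h1
    exact absurd h1 (by decide)

theorem on : D.o (n : ℤ) = n - 2 * b := by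
  rcases D.cases (n : ℤ) with ⟨-, h2, -⟩ | ⟨h1, -, -⟩
  · rw [h2, h.dn]
  · rw [h.mn] at h1
    exact absurd h1 (by decide)

theorem maj (hn : 1 ≤ n) : MajB D (2 * n) := by
  refine majB_of_same (b := 2 * b) h.hS (r0_ne_rk hn) ?_
  have e0 : (((r0 hn : Fin (2 * n)) : ℕ) : ℤ) = 0 := rfl
  have e1 : (((rk hn : Fin (2 * n)) : ℕ) : ℤ) = n := rfl
  rw [e0, e1, h.m0, h.mn]

/-- **The walks modulo `2 w`, `w = (-b, n)`.** -/
theorem hasSum_WS (hn : 1 ≤ n) :
    HasSum (fun k : ℕ => ((saws (-(b : ℤ), (n : ℤ)) k).ncard : ℝ) * zc ^ (k + 1)) (WS D hn).re := by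
  have h1 : Tendsto (fun m => Wn D (2 * b) hn m m) atTop (𝓝 (WS D hn).re) := by
    refine (WS_real hn (h.maj hn)).2.2.congr' ?_
    filter_upwards [eventually_ge_atTop 1] with m hm
    exact RS_eq hn h.hS hm
  unfold Wn bL at h1
  rw [h.o0, h.on, zero_sub] at h1
  exact hasSum_str hn (two_k hn) D h1

end Two

end Pool.Agent.STR
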