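import Pool.Agent.STR.PubDefO
import Pool.Agent.STR.Pub

/-!
# Walks between two edges of different kinds modulo a period, and words (helper60, after helper69)

`C` is any system of representatives whose classes are the classes modulo `per u` (`ClsO C (per u)`).
* `card_wordsO`: the words with `n + 1` letters are the walks `sawsO u n`;
* **`hasSum_genO`**: a limit of the sums over the words of growing domains is the generating function of the walks.
-/

set_option autoImplicit false

namespace Pool.Agent.HexTwo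

open HexObs HexObs.LP ENNReal Filter Topology
open Pool.Agent.NUF.Cyl (Nm ri ri_A ri_B pL)
open Pool.Agent.CylSaw (co co_A co_B vt_iff vt_cases dir_A dir_B A_1 A_2 A_3 B_1 B_2 B_3 Vt_A' Vt_B' turn_ne' turn_cases'
  step_cases de_back gf_len' gf_disj)

/-! ### words -/

/-- the words. -/
def WdO (u : ℤ × ℤ) (n : ℕ) : Set (List Bool) :=
  {t | t.length = n + 1 ∧ (∀ i j, 1 ≤ i → i < j → j ≤ t.length → ∀ s : ℤ, wv t i ≠ sh (s • per u) (wv t j)) ∧
    (∃ s : ℤ, wv t t.length = sh (s • per u + u) (0, 0, true)) ∧ dx (pL 0).2 t t.length = (-1, 0)}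

/-- the white end of the last edge behind its black end. -/
theorem back_endO {v : Pt} (hv : Vt v) {p : ℤ × ℤ} (h : ps v = sh p (0, 0, true)) :
    De (v, ((-1, 0) : Pt)) ∧ ps (v + (-1, 0)) = sh p (0, 0, false) := by
  rcases vt_cases hv with e | e
  · rw [e, ps_A] at h
    have := congrArg (fun p : V => p.2.2) h
    simp [sh] at this
  · rw [e, ps_B] at h
    have h1 : co v = 0 + p.1 := congrArg Prod.fst h
    have h2 : ri v = 0 + p.2 := congrArg (fun p : V => p.2.1) h
    refine ⟨⟨(by decide : ((-1, 0) : Pt) ∈ dirs), hv, ?_⟩, ?_⟩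
    · show Vt (v + (-1, 0))
      rw [e, B_1]
      exact Vt_A' _ _
    · rw [e, B_1, ps_A, h1, h2]
      rfl

/-- the black end of the last edge before its white end. -/
theorem front_endO {v : Pt} (hv : De (v, ((-1, 0) : Pt))) {p : ℤ × ℤ} (h : ps (v + (-1, 0)) = sh p (0, 0, false)) :
    ps v = sh p (0, 0, true) := by
  obtain ⟨-, h1, h2⟩ := hv
  simp only at h1 h2
  rcases vt_cases h1 with e | e
  · exfalso
    rw [vt_iff] at h2
    rw [e] at h2
    simp only [_root_.EXL.A, Prod.fst_add, Prod.snd_add] at h2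
    omega
  · rw [e, B_1, ps_A] at h
    have h3 : co v = 0 + p.1 := congrArg Prod.fst h
    have h4 : ri v = 0 + p.2 := congrArg (fun p : V => p.2.1) h
    rw [e, ps_B]
    unfold sh
    exact Prod.ext h3 (Prod.ext h4 rfl)

/-! ### the classes -/

/-- the classes of C are the classes modulo P. -/
def ClsO (C : Nm) (P : ℤ × ℤ) : Prop :=
  ∀ u v : Pt, Vt u → Vt v → (C.nm u = C.nm v ↔ ∃ t : ℤ, ps u = sh (t • P) (ps v))

/-- the half edge of the last step. -/
def pEO (C : Nm) (u : ℤ × ℤ) : Pt × Pt := (C.nm (_root_.EXL.A u.1 u.2), (1, 0))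

theorem rv_iffO {C : Nm} {u : ℤ × ℤ} (hC : ClsO C (per u)) (t : List Bool) : C.rv (C.le (pL 0) t) = pEO C u ↔
    (∃ s : ℤ, wv t t.length = sh (s • per u + u) (0, 0, true)) ∧ dx (pL 0).2 t t.length = (-1, 0) := by
  have e1 : C.rv (C.le (pL 0) t) = (C.nm (vx (pL 0).1 (pL 0).2 t t.length + dx (pL 0).2 t t.length),
      -dx (pL 0).2 t t.length) := by
    unfold Nm.rv Nm.le Nm.nb
    simp only
    rw [C.add]
  have hA : ps (_root_.EXL.A u.1 u.2) = sh u (0, 0, false) := by
    rw [ps_A]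
    unfold sh
    refine Prod.ext ?_ (Prod.ext ?_ rfl)
    · simp only
      ring
    · simp only
      ring
  rw [e1]
  unfold pEO
  constructor
  · intro h
    have h2 : -dx (pL 0).2 t t.length = (1, 0) := congrArg Prod.snd h
    have h3 : dx (pL 0).2 t t.length = (-1, 0) := by
      rw [← neg_neg (dx (pL 0).2 t t.length), h2]
      rfl
    have h4 := congrArg Prod.fst h
    simp only at h4
    rw [h3] at h4
    have hd := de_w t t.length
    rw [h3] at hd
    obtain ⟨s, hs⟩ := (hC _ _ hd.2.2 (Vt_A' _ _)).1 h4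
    rw [hA, sh_sh] at hs
    exact ⟨⟨s, front_endO hd hs⟩, h3⟩
  · rintro ⟨⟨s, h1⟩, h2⟩
    have hd := de_w t t.length
    rw [h2] at hd
    obtain ⟨-, h3⟩ := back_endO hd.2.1 h1
    rw [h2]
    refine Prod.ext ?_ rfl
    simp only
    refine (hC _ _ hd.2.2 (Vt_A' _ _)).2 ⟨s, ?_⟩
    rw [hA, sh_sh]
    exact h3

/-- **the words of the domains.** -/
theorem mem_wordsO {C : Nm} {u : ℤ × ℤ} (hC : ClsO C (per u)) {Ω : ℕ → Finset Pt}
    (hΩ : ∀ F : Finset Pt, (∀ v ∈ F, Vt v ∧ C.nm v = v) → ∃ m, F ⊆ Ω m) (t : List Bool) :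
    ((∃ m, C.Arr (Ω m) (pL 0) t) ∧ C.rv (C.le (pL 0) t) = pEO C u) ↔ ∃ n, t ∈ WdO u n := by
  have hnm : ∀ i j, C.nm (vx (pL 0).1 (pL 0).2 t i) = C.nm (vx (pL 0).1 (pL 0).2 t j) ↔
      ∃ s : ℤ, wv t i = sh (s • per u) (wv t j) := fun i j => hC _ _ (de_w t i).2.1 (de_w t j).2.1
  rw [rv_iffO hC]
  constructor
  · rintro ⟨⟨m, hm⟩, h1, h2⟩
    have hl : t.length ≠ 0 := by
      intro h0
      rw [h0] at h2
      have : dx (pL 0).2 t 0 = (1, -1) := rfl
      rw [this] at h2
      exact absurd h2 (by decide)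
    obtain ⟨n, hn⟩ := Nat.exists_eq_succ_of_ne_zero hl
    refine ⟨n, hn, fun i j hi hij hj s hs => ?_, h1, h2⟩
    have := hm.inj i j hi hij hj
    rw [Ne, hnm] at this
    exact this ⟨s, hs⟩
  · rintro ⟨n, hn, h0, h1, h2⟩
    refine ⟨?_, h1, h2⟩
    classical
    obtain ⟨m, hm⟩ := hΩ ((Finset.range (t.length + 1)).image fun i => C.nm (vx (pL 0).1 (pL 0).2 t i)) (by
      intro v hv
      rw [Finset.mem_image] at hv
      obtain ⟨i, -, rfl⟩ := hv
      exact ⟨Nm.vt_nm.2 (de_w t i).2.1, C.idem _⟩)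
    refine ⟨m, fun i h3 h4 => hm ?_, fun i j hi hij hj => ?_⟩
    · rw [Finset.mem_image]
      exact ⟨i, Finset.mem_range.2 (by omega), rfl⟩
    · rw [Ne, hnm]
      rintro ⟨s, hs⟩
      exact h0 i j hi hij hj s hs

/-! ### the bijection -/

theorem neO {u : ℤ × ℤ} {n : ℕ} {t : List Bool} (ht : t ∈ WdO u n) : ∀ i j, 1 ≤ i → 1 ≤ j → i ≤ n + 1 → j ≤ n + 1 →
    ∀ s : ℤ, wv t i = sh (s • per u) (wv t j) → i = j := by
  intro i j hi hj hi' hj' s e
  obtain ⟨h1, h2, -, -⟩ := ht
  rcases lt_trichotomy i j with h | h | h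
  · exact absurd e (h2 i j hi h (by omega) s)
  · exact h
  · refine absurd ?_ (h2 j i hj h (by omega) (-s))
    rw [e, sh_sh, neg_smul, neg_add_cancel, sh_zero]

theorem wkO_mem {u : ℤ × ℤ} {n : ℕ} {t : List Bool} (ht : t ∈ WdO u n) : wk n t ∈ sawsO u n := by
  have hne := neO ht
  obtain ⟨h1, h2, ⟨s0, h3⟩, h4⟩ := ht
  rw [h1] at h3 h4
  refine ⟨wv_one t, ⟨s0, h3⟩, ?_, ?_⟩
  · intro i j s hij
    have := hne (i.val + 1) (j.val + 1) (by omega) (by omega) (by omega) (by omega) s hij
    exact Fin.ext (by omega)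
  · intro i
    have hi := i.2
    have e1 : wk n t i.castSucc = wv t (i.val + 1) := rfl
    have e2 : wk n t i.succ = wv t (i.val + 2) := rfl
    rw [e1, e2]
    refine ⟨wv_adj t _, fun s => ⟨fun e => ?_, fun e => ?_⟩⟩
    · -- the first cut edge
      unfold cut at e
      rw [Sym2.eq_iff] at e
      rcases e with ⟨a1, a2⟩ | ⟨a1, a2⟩
      · rw [← wv_one t] at a2
        have := hne _ _ (by omega) le_rfl (by omega) (by omega) s a2
        omega
      · rw [← wv_one t] at a1
        have a4 := hne _ _ (by omega) le_rfl (by omega) (by omega) s a1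
        rw [a4] at a1
        have a5 : i.val = 0 := by omega
        have a6 : (s • per u : ℤ × ℤ) = 0 := by
          have : sh (s • per u) (wv t 1) = sh 0 (wv t 1) := by
            rw [sh_zero]
            exact a1.symm
          exact sh_inj this
        rw [a5, a6, sh_zero] at a2
        refine wv_ne_back t 0 ?_
        rw [wv_zero]
        exact a2
    · -- the last cut edge
      unfold cutO at e
      rw [Sym2.eq_iff] at e
      have hsub : (s • per u + u : ℤ × ℤ) = (s - s0) • per u + (s0 • per u + u) := by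
        rw [← add_assoc, ← add_smul]
        congr 2
        ring
      have hend : sh (s • per u + u) (0, 0, true) = sh ((s - s0) • per u) (wv t (n + 1)) := by
        rw [h3, sh_sh, hsub]
      rcases e with ⟨a1, a2⟩ | ⟨a1, a2⟩
      · have a2' := a2
        rw [hend] at a2
        have a4 := hne _ _ (by omega) (by omega) (by omega) (by omega) _ a2
        have a5 : i.val + 1 = n := by omega
        rw [a5] at a1
        have a7 : vx (pL 0).1 (pL 0).2 t (n + 1) + -dx (pL 0).2 t n = vx (pL 0).1 (pL 0).2 t n := by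
          rw [vx_s, add_neg_cancel_right]
        have a8 : i.val + 2 = n + 1 := by omega
        rw [a8] at a2'
        obtain ⟨b1, b2⟩ := back_endO (de_w t (n + 1)).2.1 a2'
        have b3 : ps (vx (pL 0).1 (pL 0).2 t (n + 1) + (-1, 0)) = ps (vx (pL 0).1 (pL 0).2 t n) := by
          rw [b2, ← a1]
          rfl
        have b4 := ps_inj b1.2.2 (de_w t n).2.1 b3
        rw [← a7] at b4
        have b5 := add_left_cancel b4
        rw [← h4, dx_s] at b5
        exact turn_ne' _ (de_w t n).1 _ b5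
      · rw [hend] at a1
        have := hne _ _ (by omega) (by omega) (by omega) (by omega) _ a1
        omega

theorem wkO_inj {u : ℤ × ℤ} {n : ℕ} {s t : List Bool} (hs : s ∈ WdO u n) (ht : t ∈ WdO u n) (h : wk n s = wk n t) :
    s = t := by
  obtain ⟨s1, -, -, s4⟩ := hs
  obtain ⟨t1, -, -, t4⟩ := ht
  have key : ∀ i, i ≤ n → vx (pL 0).1 (pL 0).2 s i = vx (pL 0).1 (pL 0).2 t i ∧
      dx (pL 0).2 s i = dx (pL 0).2 t i ∧ (∀ j, j < i → tf s j = tf t j) := by
    intro i
    induction i with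
    | zero => exact fun _ => ⟨rfl, rfl, fun j hj => absurd hj (by omega)⟩
    | succ i ih =>
      intro hi
      obtain ⟨a1, a2, a3⟩ := ih (by omega)
      have b1 : vx (pL 0).1 (pL 0).2 s (i + 1) = vx (pL 0).1 (pL 0).2 t (i + 1) := by
        rw [vx_s, vx_s, a1, a2]
      have b2 : wv s (i + 2) = wv t (i + 2) := congrFun h ⟨i + 1, by omega⟩
      have b3 : dx (pL 0).2 s (i + 1) = dx (pL 0).2 t (i + 1) := by
        have b4 : vx (pL 0).1 (pL 0).2 s (i + 2) = vx (pL 0).1 (pL 0).2 t (i + 2) :=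
          ps_inj (de_w s (i + 2)).2.1 (de_w t (i + 2)).2.1 b2
        rw [show i + 2 = i + 1 + 1 by ring, vx_s s (i + 1), vx_s t (i + 1), b1] at b4
        exact add_left_cancel b4
      refine ⟨b1, b3, fun j hj => ?_⟩
      rcases Nat.lt_succ_iff_lt_or_eq.1 hj with hj' | rfl
      · exact a3 j hj'
      · rw [dx_s, dx_s, a2] at b3
        exact CylSaw.turn_inj _ (de_w t _).1 _ _ b3
  obtain ⟨a1, a2, a3⟩ := key n le_rfl
  refine CylSaw.tf_ext (by omega) fun i hi => ?_
  rcases Nat.lt_or_ge i n with hj | hj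
  · exact a3 i hj
  · have hin : i = n := by omega
    subst hin
    rw [s1] at s4
    rw [t1] at t4
    rw [← t4, dx_s, dx_s, a2] at s4
    exact CylSaw.turn_inj _ (de_w t _).1 _ _ s4

theorem wkO_surj {u : ℤ × ℤ} {n : ℕ} {x : Fin (n + 1) → V} (hx : x ∈ sawsO u n) :
    ∃ t ∈ WdO u n, wk n t = x := by
  obtain ⟨h2, ⟨s0, h3⟩, h1, h4⟩ := hx
  have hinj : ∀ i j, x i = x j → i = j := fun i j e => h1 i j 0 (by rw [zero_smul, sh_zero]; exact e)
  have key : ∀ j, j ≤ n → ∃ t : List Bool, t.length = j ∧ ∀ i (hi : i ≤ j) (hn : i ≤ n),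
      wv t (i + 1) = x ⟨i, by omega⟩ := by
    intro j
    induction j with
    | zero =>
      intro _
      refine ⟨[], rfl, fun i hi hn => ?_⟩
      have : i = 0 := by omega
      subst this
      rw [wv_one]
      exact h2.symm
    | succ j ih =>
      intro hj
      obtain ⟨t, t1, t2⟩ := ih (by omega)
      obtain ⟨a2, a3⟩ := h4 ⟨j, by omega⟩
      have e1 : x (Fin.castSucc ⟨j, by omega⟩) = wv t (j + 1) := (t2 j le_rfl (by omega)).symm
      have e2 : x (Fin.succ ⟨j, by omega⟩) = x ⟨j + 1, by omega⟩ := rfl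
      rw [e1, e2] at a2 a3
      obtain ⟨d, d1, d2⟩ := adj_lift (v := vx (pL 0).1 (pL 0).2 t (j + 1)) (de_w t (j + 1)).2.1 a2
      have hst : De (vx (pL 0).1 (pL 0).2 t j + dx (pL 0).2 t j, d) := d1
      rcases step_cases (de_w t j) hst with b1 | ⟨b, b1⟩
      · exfalso
        have b2 : x ⟨j + 1, by omega⟩ = wv t j := by
          rw [d2, b1, vx_s, add_neg_cancel_right]
          rfl
        rcases Nat.eq_zero_or_pos j with hj0 | hj0
        · subst hj0
          rw [wv_zero] at b2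
          apply (a3 0).1
          rw [wv_one, b2]
          unfold cut
          rw [zero_smul, sh_zero, sh_zero]
          exact Sym2.eq_swap
        · have b3 := t2 (j - 1) (by omega) (by omega)
          rw [Nat.sub_add_cancel hj0] at b3
          rw [b3] at b2
          have b4 := congrArg Fin.val (hinj _ _ b2)
          simp only at b4
          omega
      · refine ⟨t ++ [b], by simp [t1], fun i hi hn => ?_⟩
        unfold wv
        rcases Nat.lt_or_ge i (j + 1) with hij | hij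
        · rw [vx_append (by omega)]
          exact t2 i (by omega) hn
        · have hij' : i = j + 1 := by omega
          subst hij'
          rw [vx_s, vx_append (by omega), dx_s, dx_append (by omega)]
          have b4 : tf (t ++ [b]) j = b := by
            have := tf_append_right (t := t) (s := [b]) 0
            rw [add_zero, t1] at this
            rw [this]
            rfl
          rw [b4, ← b1]
          exact d2.symm
  obtain ⟨t, t1, t2⟩ := key n le_rfl
  have hlast : wv t (n + 1) = sh (s0 • per u + u) (0, 0, true) := (t2 n le_rfl le_rfl).trans h3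
  obtain ⟨c1, c2⟩ := back_endO (v := vx (pL 0).1 (pL 0).2 t (n + 1)) (de_w t (n + 1)).2.1 hlast
  have hst : De (vx (pL 0).1 (pL 0).2 t n + dx (pL 0).2 t n, ((-1, 0) : Pt)) := c1
  have hn0 : n ≠ 0 := by
    rintro rfl
    rw [wv_one] at hlast
    have h5 := congrArg (fun p : V => p.2.2) hlast
    exact absurd h5 (by simp [sh])
  obtain ⟨m, hm⟩ := Nat.exists_eq_succ_of_ne_zero hn0
  rcases step_cases (de_w t n) hst with b1 | ⟨b, b1⟩
  · exfalso
    have b2 : wv t n = sh (s0 • per u + u) (0, 0, false) := by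
      rw [← c2, b1, vx_s, add_neg_cancel_right]
      rfl
    have a1 := ((h4 ⟨m, by omega⟩).2 s0).2
    apply a1
    have e1 : x (Fin.castSucc ⟨m, by omega⟩) = wv t n :=
      (t2 m (by omega) (by omega)).symm.trans (congrArg (wv t) hm.symm)
    have e2 : x (Fin.succ ⟨m, by omega⟩) = wv t (n + 1) := by
      rw [t2 n le_rfl le_rfl]
      exact congrArg x (Fin.ext (by simp [hm]))
    rw [e1, e2, b2, hlast]
    rfl
  · have hv : ∀ i, i ≤ n + 1 → wv (t ++ [b]) i = wv t i := fun i hi => by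
      unfold wv
      rw [vx_append (by omega)]
    have htf : tf (t ++ [b]) n = b := by
      have := tf_append_right (t := t) (s := [b]) 0
      rw [add_zero, t1] at this
      rw [this]
      rfl
    have hll : (t ++ [b]).length = n + 1 := by simp [t1]
    refine ⟨t ++ [b], ⟨hll, ?_, ⟨s0, ?_⟩, ?_⟩, ?_⟩
    · intro i j hi hij hj s
      rw [hll] at hj
      rw [hv i (by omega), hv j hj]
      have f1 := t2 (i - 1) (by omega) (by omega)
      have f2 := t2 (j - 1) (by omega) (by omega)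
      rw [Nat.sub_add_cancel hi] at f1
      rw [Nat.sub_add_cancel (by omega : 1 ≤ j)] at f2
      rw [f1, f2]
      intro e
      have := congrArg Fin.val (h1 _ _ s e)
      simp only at this
      omega
    · rw [hll, hv _ le_rfl]
      exact hlast
    · rw [hll, dx_s, dx_append (by omega), htf]
      exact b1.symm
    · funext i
      have := t2 i.val (by omega) (by omega)
      unfold wk
      rw [hv _ (by omega), this]

/-- **The words are the walks.** -/
theorem card_wordsO {u : ℤ × ℤ} (n : ℕ) : (WdO u n).ncard = (sawsO u n).ncard :=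
  Set.ncard_congr (fun t _ => wk n t) (fun _ ht => wkO_mem ht) (fun _ _ hs ht h => wkO_inj hs ht h)
    (fun _ hx => by
      obtain ⟨t, ht, e⟩ := wkO_surj hx
      exact ⟨t, ht, e⟩)

/-! ### the sum -/

/-- **a limit of the sums over the words is the generating function of the walks.** -/
theorem hasSum_genO {C : Nm} {u : ℤ × ℤ} (hC : ClsO C (per u)) {Ω : ℕ → Finset Pt} (hmono : Monotone Ω)
    (hΩ : ∀ F : Finset Pt, (∀ v ∈ F, Vt v ∧ C.nm v = v) → ∃ m, F ⊆ Ω m) {W : ℝ}
    (hW : Tendsto (fun m => C.Ws xc (Ω m) {pEO C u} (pL 0)) atTop (𝓝 W)) :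
    HasSum (fun n : ℕ => ((sawsO u n).ncard : ℝ) * zc ^ (n + 1)) W := by
  classical
  obtain ⟨Fm, hFm⟩ : ∃ Fm : ℕ → Finset (List Bool), Fm = fun m => (C.arr (Ω m) (pL 0)).filter
      (fun t => C.rv (C.le (pL 0) t) ∈ ({pEO C u} : Finset (Pt × Pt))) := ⟨_, rfl⟩
  have hmem : ∀ m t, t ∈ Fm m ↔ C.Arr (Ω m) (pL 0) t ∧ C.rv (C.le (pL 0) t) = pEO C u := by
    intro m t
    rw [hFm, Finset.mem_filter, Nm.mem_arr, Finset.mem_singleton]
  have hgf : ∀ m, gf (Fm m : Set (List Bool)) = ENNReal.ofReal (C.Ws xc (Ω m) {pEO C u} (pL 0)) := by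
    intro m
    rw [gf_finset, hFm]
    rfl
  have hmF : Monotone fun m => (Fm m : Set (List Bool)) := by
    intro m m' h t ht
    rw [Finset.mem_coe, hmem] at ht ⊢
    exact ⟨GLD.arr_mono (hmono h) ht.1, ht.2⟩
  have hU : (⋃ n, WdO u n) = ⋃ m, (Fm m : Set (List Bool)) := by
    ext t
    rw [Set.mem_iUnion, Set.mem_iUnion, ← mem_wordsO hC hΩ]
    constructor
    · rintro ⟨⟨m, hm⟩, h⟩
      exact ⟨m, (hmem m t).2 ⟨hm, h⟩⟩
    · rintro ⟨m, hm⟩
      rw [Finset.mem_coe, hmem] at hm
      exact ⟨⟨m, hm.1⟩, hm.2⟩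
  have hWm : Monotone fun m => C.Ws xc (Ω m) {pEO C u} (pL 0) := fun _ _ h => GLD.Ws_mono (hmono h) _ _ xc_pos.le
  have hle : ∀ m, C.Ws xc (Ω m) {pEO C u} (pL 0) ≤ W := fun m => hWm.ge_of_tendsto hW m
  have hW0 : 0 ≤ W := le_trans (Finset.sum_nonneg fun _ _ => pow_nonneg xc_pos.le _) (hle 0)
  have hall : gf (⋃ n, WdO u n) = ENNReal.ofReal W := by
    refine le_antisymm ?_ ?_
    · refine gf_le_of_mono_union _ hmF hU.le fun m => ?_
      rw [hgf]
      exact ENNReal.ofReal_le_ofReal (hle m)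
    · have h1 : Tendsto (fun m => ENNReal.ofReal (C.Ws xc (Ω m) {pEO C u} (pL 0))) atTop (𝓝 (ENNReal.ofReal W)) :=
        (ENNReal.continuous_ofReal.tendsto W).comp hW
      refine le_of_tendsto' h1 fun m => ?_
      rw [← hgf, hU]
      exact gf_mono (Set.subset_iUnion (fun m => (Fm m : Set (List Bool))) m)
  have hd : ∀ i j : ℕ, i ≠ j → Disjoint (WdO u i) (WdO u j) := by
    intro i j hij
    rw [Set.disjoint_left]
    intro t h1 h2
    have := h1.1.symm.trans h2.1
    omega
  rw [gf_disj hd] at hall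
  have h2 : ∀ n, gf (WdO u n) = ENNReal.ofReal (((sawsO u n).ncard : ℝ) * zc ^ (n + 1)) := fun n => by
    rw [gf_len' (n := n + 1) fun t ht => ht.1, card_wordsO, zc_eq]
  simp only [h2] at hall
  have hnn : ∀ n : ℕ, 0 ≤ ((sawsO u n).ncard : ℝ) * zc ^ (n + 1) := fun n => by
    rw [zc_eq]
    exact mul_nonneg (Nat.cast_nonneg _) (pow_nonneg xc_pos.le _)
  have h3 : Summable fun n : ℕ => ((sawsO u n).ncard : ℝ) * zc ^ (n + 1) := by
    have h4 := ENNReal.summable_toReal (f := fun n : ℕ => ENNReal.ofReal (((sawsO u n).ncard : ℝ) * zc ^ (n + 1)))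
      (by rw [hall]; exact ENNReal.ofReal_ne_top)
    refine h4.congr fun n => ?_
    rw [ENNReal.toReal_ofReal (hnn n)]
  have h5 := ENNReal.ofReal_tsum_of_nonneg hnn h3
  rw [hall] at h5
  have h6 : ∑' n : ℕ, ((sawsO u n).ncard : ℝ) * zc ^ (n + 1) = W :=
    (ENNReal.ofReal_eq_ofReal_iff (tsum_nonneg hnn) hW0).1 h5
  rw [← h6]
  exact h3.hasSum

end Pool.Agent.HexTwo
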