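import Pool.Agent.STR.RRS

/-!
# The regular two-point function of a stair is the limit of the gas, all lines shifted by a constant (DUAL, D1)

`RRSc`: as `RRS`, the lines tend to `phS D r + s` for any constant `s`: with `s = lam / 2 - y0` the normal rows have
the rapidity `-y0` and the mirrored rows the rapidity `lam - y0`.
-/

set_option autoImplicit false

namespace Pool.Agent.STR

open _root_.Pool.Agent.EXL hiding cc
open _root_.Pool.Agent.EXL.Pat _root_.Pool.Agent.NUF _root_.Pool.Agent.NUU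
  _root_.Pool.Agent.NUT2 _root_.Pool.Agent.NUBD Filter Topology
open _root_.Pool.Agent.NU5 hiding r0 rk
open NUTP (th)
open _root_.Pool.Agent.EXL.Fm (lam)
open Pool.Agent.NUN (cc Xr Xl)
open Pool.Agent.NUNC (dd)

variable {D : Stp} {k : ℕ} {β : Type*} {l : Filter β} {X Y : β → Fin (k - 1) → ℂ} {ra rb rq rg : β → ℂ}

theorem zmS_tendsto_c (c : ℂ) (hX : ∀ i, Tendsto (fun t => X t i) l (𝓝 (phS D (k + 1 + i.val) + c)))
    (hY : ∀ i, Tendsto (fun t => Y t i) l (𝓝 (phS D (1 + i.val) + c)))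
    (ha : Tendsto ra l (𝓝 (phS D 0 + c))) (hb : Tendsto rb l (𝓝 (phS D 0 + c)))
    (hq : Tendsto rq l (𝓝 (phS D k + c))) (hg : Tendsto rg l (𝓝 (phS D k + c))) (r : Fin (2 * k)) (s : Bool) :
    Tendsto (fun t => -lam / 2 + c - zmk k (X t) (Y t) (ra t) (rb t) (rq t) (rg t) (Sum.inl (r, s))) l
      (𝓝 (zD D (2 * k) (Sum.inl (r, s)))) := by
  rw [zD_phS, show -lam / 2 - phS D r.val = -lam / 2 + c - (phS D r.val + c) by ring]
  refine tendsto_const_nhds.sub ?_
  by_cases h0 : r.val = 0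
  · rw [h0]
    have e : ∀ t, zmk k (X t) (Y t) (ra t) (rb t) (rq t) (rg t) (Sum.inl (r, s)) =
        if s then rb t else ra t := fun t => by
      unfold zmk
      simp only [dif_pos h0]
    simp only [e]
    cases s
    · exact ha
    · exact hb
  by_cases h1 : r.val < k
  · have e : ∀ t, zmk k (X t) (Y t) (ra t) (rb t) (rq t) (rg t) (Sum.inl (r, s)) =
        Y t ⟨r.val - 1, by omega⟩ := fun t => by
      unfold zmk
      simp only [dif_neg h0, dif_pos h1]
    simp only [e]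
    have := hY ⟨r.val - 1, by omega⟩
    rw [show 1 + (⟨r.val - 1, by omega⟩ : Fin (k - 1)).val = r.val by simp; omega] at this
    exact this
  by_cases h2 : r.val = k
  · rw [h2]
    have e : ∀ t, zmk k (X t) (Y t) (ra t) (rb t) (rq t) (rg t) (Sum.inl (r, s)) =
        if s then rg t else rq t := fun t => by
      unfold zmk
      simp only [dif_neg h0, dif_neg h1, dif_pos h2]
    simp only [e]
    cases s
    · exact hq
    · exact hg
  · have e : ∀ t, zmk k (X t) (Y t) (ra t) (rb t) (rq t) (rg t) (Sum.inl (r, s)) =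
        X t ⟨r.val - k - 1, by omega⟩ := fun t => by
      unfold zmk
      simp only [dif_neg h0, dif_neg h1, dif_neg h2]
    simp only [e]
    have := hX ⟨r.val - k - 1, by omega⟩
    rw [show k + 1 + (⟨r.val - k - 1, by omega⟩ : Fin (k - 1)).val = r.val by simp; omega] at this
    exact this

/-- **The gas of two cut rows tends to `BS ^ 2 * WS`**, every stair with regular rings. -/
theorem RRSc (c : ℂ) (hk : 1 ≤ k) (hM : MajB D (2 * k))
    (hX : ∀ i, Tendsto (fun t => X t i) l (𝓝 (phS D (k + 1 + i.val) + c)))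
    (hY : ∀ i, Tendsto (fun t => Y t i) l (𝓝 (phS D (1 + i.val) + c)))
    (ha : Tendsto ra l (𝓝 (phS D 0 + c))) (hb : Tendsto rb l (𝓝 (phS D 0 + c)))
    (hq : Tendsto rq l (𝓝 (phS D k + c))) (hg : Tendsto rg l (𝓝 (phS D k + c)))
    (hgen : ∀ᶠ t in l, NUTP.G th (NUTP.ea (ra t) :: NUTP.ea (rb t) :: NUTP.ea (rq t) ::
      NUTP.ea (rg t) :: ((List.ofFn fun i => NUTP.ea (X t i)) ++ List.ofFn fun i => NUTP.ea (Y t i)))) :
    Tendsto (fun t => gasR (List.ofFn fun i => NUTP.ea (X t i)) (List.ofFn fun i => NUTP.ea (Y t i))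
      (NUTP.ea (ra t)) (NUTP.ea (rb t)) (NUTP.ea (rq t)) (NUTP.ea (rg t))) l
      (𝓝 (BS D k ^ 2 * WS D hk)) := by
  have nr : ((List.finRange (2 * k)).map (xr (n := 2 * k))).Nodup :=
    (List.nodup_append.1 (all_nodup (2 * k))).1
  have nl : ((List.finRange (2 * k)).map (xl (n := 2 * k))).Nodup :=
    (List.nodup_append.1 (all_nodup (2 * k))).2.1
  have nl' := List.nodup_reverse.2 nl
  have n1 : ∀ j : Fin 4, (Sum.inr j : St (2 * k)) ∉ (List.finRange (2 * k)).map xr := by simp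
  have n2 : ∀ j : Fin 4, (Sum.inr j : St (2 * k)) ∉ ((List.finRange (2 * k)).map xl).reverse := by simp
  have hRr : RegR (Sum.inr 0) (Sum.inr 1) (zD D (2 * k)) ((List.finRange (2 * k)).map xr) := hM.regR
  have hRl : RegR (Sum.inr 0) (Sum.inr 1) (zD D (2 * k)) ((List.finRange (2 * k)).map xl).reverse := hM.regL
  have hUr : UDRing (Sum.inr 0) (Sum.inr 1) ((List.finRange (2 * k)).map (xr (n := 2 * k))) :=
    udRingAll (St (2 * k)) _ _ (Sum.inr 2) _ nr (by simp) (by simp) (by simp) (n1 0) (n1 1) (n1 2)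
  have hUl : UDRing (Sum.inr 0) (Sum.inr 1) ((List.finRange (2 * k)).map (xl (n := 2 * k))).reverse :=
    udRingAll (St (2 * k)) _ _ (Sum.inr 2) _ nl' (by simp) (by simp) (by simp) (n2 0) (n2 1) (n2 2)
  have hrf : UDRefl ((List.finRange (2 * k)).map (xl (n := 2 * k))).reverse := udRefl nl' (udRingAll _)
  set zt : β → St (2 * k) → ℂ := fun t => zmk k (X t) (Y t) (ra t) (rb t) (rq t) (rg t) with hzt
  have hT := zmS_tendsto_c c hX hY ha hb hq hg
  have hzr : ∀ j ∈ rowsR (Ik k) (Jk k) (xr (NU5.r0 k hk)) (xr (NU5.rk k hk)),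
      Tendsto (fun t => -lam / 2 + c - zt t j) l (𝓝 (zD D (2 * k) j)) := by
    rw [rowsR_k]
    intro j hj
    obtain ⟨r, -, rfl⟩ := List.mem_map.1 hj
    exact hT r false
  have hzl : ∀ j ∈ rowsL (Ik k) (Jk k) (xl (NU5.r0 k hk)) (xl (NU5.rk k hk)),
      Tendsto (fun t => -lam / 2 + c - zt t j) l (𝓝 (zD D (2 * k) j)) := by
    rw [rowsL_k]
    intro j hj
    obtain ⟨r, -, rfl⟩ := List.mem_map.1 hj
    exact hT r true
  have hends := fun t => zmk_ends hk (X t) (Y t) (ra t) (rb t) (rq t) (rg t)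
  have hgen' : ∀ᶠ t in l, NUTP.G th (NUTP.ea (zt t (xr (NU5.r0 k hk))) :: NUTP.ea (zt t (xl (NU5.r0 k hk))) ::
      NUTP.ea (zt t (xr (NU5.rk k hk))) :: NUTP.ea (zt t (xl (NU5.rk k hk))) ::
        ((Ik k).map (li (zt t)) ++ (Jk k).map (li (zt t)))) := hgen.mono fun t ht => by
    rw [hzt]
    simp only [(hends t).1, (hends t).2.1, (hends t).2.2.1, (hends t).2.2.2, zmk_I, zmk_J]
    exact ht
  have hsame : ∀ t, ∀ s ∈ Ik k ++ Jk k, zt t s.2 = zt t s.1 := fun t => zmk_same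
  have hnr : (rowsR (Ik k) (Jk k) (xr (NU5.r0 k hk)) (xr (NU5.rk k hk))).Nodup := (Ok_k hk).nd1
  have hnl : (rowsL (Ik k) (Jk k) (xl (NU5.r0 k hk)) (xl (NU5.rk k hk))).Nodup := (Ok_k hk).nd2
  have e : ∀ t i, -lam / 2 + c - zt t i = -zt t i + (-lam / 2 + c) := fun t i => by ring
  have hGr : ∀ᶠ t in l, Gz (fun i => -lam / 2 + c - zt t i)
      (rowsR (Ik k) (Jk k) (xr (NU5.r0 k hk)) (xr (NU5.rk k hk))) := hgen'.mono fun t ht => by
    simp only [e]
    exact (Gz_neg (G_rowsR ht)).shift _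
  have hGl : ∀ᶠ t in l, Gz (fun i => -lam / 2 + c - zt t i)
      (rowsL (Ik k) (Jk k) (xl (NU5.r0 k hk)) (xl (NU5.rk k hk))).reverse := hgen'.mono fun t ht => by
    simp only [e]
    exact (Gz_neg (Gz_rev (G_rowsL (hsame t) ht))).shift _
  have hBr := BE_tendsto (β := β) hnr hGr hzr
  have hBl := BE_tendsto (β := β) (List.nodup_reverse.2 hnl) hGl
    fun j hj => hzl j (List.mem_reverse.1 hj)
  have key := RR_tendsto (x := -lam / 2 + c) latData gasDataS (Ok_k hk) (c := Sum.inr 0) (d := Sum.inr 1)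
    (by simp) (spare_notMem hk 0) (spare_notMem hk 1) hsame hgen' hzr hzl (fun j _ => okR_zD D _ j)
    (fun j _ => okR_zD D _ j) (by rw [rowsR_k]; exact hRr) (by rw [rowsL_k]; exact hRl)
    (by rw [rowsR_k]; exact hUr) (by rw [rowsL_k]; exact hUl) (by rw [rowsL_k]; exact hrf) hBr hBl
  have e1 : BD (zD D (2 * k)) (rowsR (Ik k) (Jk k) (xr (NU5.r0 k hk)) (xr (NU5.rk k hk))) = BS D k := by
    rw [rowsR_k]
    rfl
  have e2 : BD (zD D (2 * k)) (rowsL (Ik k) (Jk k) (xl (NU5.r0 k hk)) (xl (NU5.rk k hk))).reverse = BS D k := by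
    rw [rowsL_k]
    exact BS_left D k
  have e3 : WR (Sum.inr 0) (Sum.inr 1) (zD D (2 * k)) (Ik k) (Jk k) (xr (NU5.r0 k hk)) (xl (NU5.r0 k hk))
      (xr (NU5.rk k hk)) (xl (NU5.rk k hk)) = WS D hk := by
    unfold WS
    rw [Ik_eq hk, Jk_eq hk]
    rfl
  rw [e1, e2, e3] at key
  rw [sq]
  refine key.congr fun t => ?_
  rw [hzt]
  simp only [(hends t).1, (hends t).2.1, (hends t).2.2.1, (hends t).2.2.2, zmk_I, zmk_J]

end Pool.Agent.STR
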