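import Pool.Agent.STR.Front
import Pool.Agent.STR.Dom
import Pool.Agent.MXR.Sort

/-!
# The rings of a stair, sorted

The network of the rings `n - 1, .., 0` and `-m, .., -1` of the stair `D` is the product of the vertex operators of
the vertices and the contractions of the edges of the cylinder `Cs N b`.
-/

set_option autoImplicit false

namespace Pool.Agent.STR

open Pool.Agent.EXL hiding cc
open Pool.Agent.EXL.Pat Pool.Agent.EXL.Net HexObs HexObs.LP
open Pool.Agent.NUF.Cyl (UO PO PL seam UO_apply PO_apply UO_Crv_comm PO_Crv_comm PO_Co_comm PO_comm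
  commute_list_map Nm lX_hf)
open Pool.Agent.MXR (V V_inj V_dR V_dL V_dU dR dL dU io io_io neg_dR neg_dL neg_dU rt lf vt rt_inj lf_inj vt_inj
  he he_true he_false ed_true ed_false vO Ends CoS_vO z_eq rings mem_rings pairwise_rings prod_sort prod_sort3
  prod_flatMap')

variable {K : Type*} [CommRing K]

/-! ### the stair -/

theorem Stp.os (D : Stp) (i : ℤ) : (D.o i = D.d i ∧ D.d (i + 1) = D.d i + 1) ∨
    (D.o i = D.d i - 1 ∧ D.d (i + 1) = D.d i - 1) :=
  (D.cases i).imp (fun h => h.2) fun h => h.2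

/-! ### items -/

/-- the items of the contractions of a cell of the right part. -/
def rH (D : Stp) (k i : ℤ) : List (ℤ × ℤ × Bool) :=
  [(2 * k + D.d i, i, true), (2 * k + D.o i + 1, i, false), (2 * k + D.o i, i, false)]

/-- the items of the contractions of a cell of the left part. -/
def lH (D : Stp) (k i : ℤ) : List (ℤ × ℤ × Bool) :=
  [(2 * k + D.d (i + 1), i, true), (2 * k + D.o i - 1, i, false), (2 * k + D.o i, i, false)]

/-- the vertices of a cell. -/
def pV (D : Stp) (k i : ℤ) : List (ℤ × ℤ) := [(2 * k + D.o i, i), (2 * k + D.o i + 1, i)]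

variable (D : Stp)

theorem io_right (k i : ℤ) : io (2 * k + D.d i) i = i - 1 := by
  unfold io
  have := D.par i
  rw [if_pos (by omega)]

theorem io_left (k i : ℤ) : io (2 * k + D.d (i + 1)) i = i + 1 := by
  unfold io
  have := D.par (i + 1)
  rw [if_neg (by omega)]

theorem rCell_list (y : K) (k i : ℤ) : rCell D y k i = ((pV D k i).map (vO K y)).prod *
    ((rH D k i).map (fun t => (CoS (Net.ed (he t)) : Op Lab K))).prod := by
  unfold rCell pV rH
  simp only [List.map_cons, List.map_nil, List.prod_cons, List.prod_nil, mul_one]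
  rw [ed_true, ed_false, ed_false, io_right]
  have e1 : (CoS s(vt (2 * k + D.d i) i, vt (2 * k + D.d i) (i - 1)) : Op Lab K) =
      Co (vt (2 * k + D.d i) (i - 1)) (vt (2 * k + D.d i) i) := Co_symm _ _
  have e2 : (CoS s(rt (2 * k + D.o i + 1) i, lf (2 * k + D.o i + 1 + 1) i) : Op Lab K) =
      Co (lf (2 * (k + 1) + D.o i) i) (rt (2 * k + D.o i + 1) i) := by
    have : 2 * k + D.o i + 1 + 1 = 2 * (k + 1) + D.o i := by ring
    rw [this]
    exact Co_symm _ _
  rw [e1, e2]
  simp only [mul_assoc]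
  rfl

theorem lCell_list (y : K) (k i : ℤ) : lCell D y k i = ((pV D k i).map (vO K y)).prod *
    ((lH D k i).map (fun t => (CoS (Net.ed (he t)) : Op Lab K))).prod := by
  unfold lCell pV lH
  simp only [List.map_cons, List.map_nil, List.prod_cons, List.prod_nil, mul_one]
  rw [ed_true, ed_false, ed_false, io_left]
  have e1 : (CoS s(vt (2 * k + D.d (i + 1)) i, vt (2 * k + D.d (i + 1)) (i + 1)) : Op Lab K) =
      Co (vt (2 * k + D.d (i + 1)) (i + 1)) (vt (2 * k + D.d (i + 1)) i) := Co_symm _ _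
  have e2 : (CoS s(rt (2 * k + D.o i - 1) i, lf (2 * k + D.o i - 1 + 1) i) : Op Lab K) =
      Co (rt (2 * (k - 1) + D.o i + 1) i) (lf (2 * k + D.o i) i) := by
    have h1 : 2 * k + D.o i - 1 + 1 = 2 * k + D.o i := by ring
    have h2 : 2 * (k - 1) + D.o i + 1 = 2 * k + D.o i - 1 := by ring
    rw [h1, h2]
    rfl
  rw [e1, e2]
  simp only [mul_assoc]
  rfl

/-! ### the rows of a ring -/

/-- vertices of a ring. -/
def rV (N : ℕ) (k : ℤ) : List (ℤ × ℤ) := (List.range N).flatMap (fun i : ℕ => pV D k i)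

def lV (N : ℕ) (k : ℤ) : List (ℤ × ℤ) := (List.range N).reverse.flatMap (fun i : ℕ => pV D k i)

/-- items of a ring. -/
def rHs (N : ℕ) (k : ℤ) : List (ℤ × ℤ × Bool) := (List.range N).flatMap (fun i : ℕ => rH D k i)

def lHs (N : ℕ) (k : ℤ) : List (ℤ × ℤ × Bool) := (List.range N).reverse.flatMap (fun i : ℕ => lH D k i)

variable {D}

theorem mem_rV {N : ℕ} {k : ℤ} {w : ℤ × ℤ} : w ∈ rV D N k ↔ ∃ i : ℕ, i < N ∧ w ∈ pV D k i := by
  unfold rV
  simp [List.mem_flatMap]

theorem mem_lV {N : ℕ} {k : ℤ} {w : ℤ × ℤ} : w ∈ lV D N k ↔ ∃ i : ℕ, i < N ∧ w ∈ pV D k i := by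
  unfold lV
  simp [List.mem_flatMap]

theorem mem_rHs {N : ℕ} {k : ℤ} {t : ℤ × ℤ × Bool} : t ∈ rHs D N k ↔ ∃ i : ℕ, i < N ∧ t ∈ rH D k i := by
  unfold rHs
  simp [List.mem_flatMap]

theorem mem_lHs {N : ℕ} {k : ℤ} {t : ℤ × ℤ × Bool} : t ∈ lHs D N k ↔ ∃ i : ℕ, i < N ∧ t ∈ lH D k i := by
  unfold lHs
  simp [List.mem_flatMap]

theorem mem_pV {k i : ℤ} {w : ℤ × ℤ} : w ∈ pV D k i ↔ w = (2 * k + D.o i, i) ∨ w = (2 * k + D.o i + 1, i) := by
  simp [pV]

theorem mem_rH {k i : ℤ} {t : ℤ × ℤ × Bool} : t ∈ rH D k i ↔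
    t = (2 * k + D.d i, i, true) ∨ t = (2 * k + D.o i + 1, i, false) ∨ t = (2 * k + D.o i, i, false) := by
  simp [rH]

theorem mem_lH {k i : ℤ} {t : ℤ × ℤ × Bool} : t ∈ lH D k i ↔
    t = (2 * k + D.d (i + 1), i, true) ∨ t = (2 * k + D.o i - 1, i, false) ∨ t = (2 * k + D.o i, i, false) := by
  simp [lH]

variable (D)

theorem rrows_sort (y : K) (N : ℕ) (k : ℤ) :
    ((List.range N).map (fun i : ℕ => rCell D y k (i : ℤ))).prod = ((rV D N k).map (vO K y)).prod *
      ((rHs D N k).map (fun t => (CoS (Net.ed (he t)) : Op Lab K))).prod := by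
  unfold rV rHs
  rw [prod_flatMap', prod_flatMap']
  simp only [rCell_list]
  apply prod_sort
  refine List.pairwise_lt_range.imp fun {a b} hab => ?_
  refine (commute_list_map (X := ((rH D k a).map (fun t => (CoS (Net.ed (he t)) : Op Lab K))).prod)
    fun w hw => (commute_list_map fun t ht => ?_).symm)
  refine (CoS_vO y ?_).symm
  rw [mem_pV] at hw
  rw [mem_rH] at ht
  unfold Ends
  rcases ht with rfl | rfl | rfl
  · simp only [if_true, io_right]
    rcases hw with rfl | rfl <;> simp only [ne_eq, Prod.mk.injEq] <;> omega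
  · simp only [if_false, Bool.false_eq_true]
    rcases hw with rfl | rfl <;> simp only [ne_eq, Prod.mk.injEq] <;> omega
  · simp only [if_false, Bool.false_eq_true]
    rcases hw with rfl | rfl <;> simp only [ne_eq, Prod.mk.injEq] <;> omega

theorem lrows_sort (y : K) (N : ℕ) (k : ℤ) :
    ((List.range N).reverse.map (fun i : ℕ => lCell D y k (i : ℤ))).prod = ((lV D N k).map (vO K y)).prod *
      ((lHs D N k).map (fun t => (CoS (Net.ed (he t)) : Op Lab K))).prod := by
  unfold lV lHs
  rw [prod_flatMap', prod_flatMap']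
  simp only [lCell_list]
  apply prod_sort
  rw [List.pairwise_reverse]
  refine List.pairwise_lt_range.imp fun {a b} hab => ?_
  refine (commute_list_map (X := ((lH D k b).map (fun t => (CoS (Net.ed (he t)) : Op Lab K))).prod)
    fun w hw => (commute_list_map fun t ht => ?_).symm)
  refine (CoS_vO y ?_).symm
  rw [mem_pV] at hw
  rw [mem_lH] at ht
  unfold Ends
  rcases ht with rfl | rfl | rfl
  · simp only [if_true, io_left]
    rcases hw with rfl | rfl <;> simp only [ne_eq, Prod.mk.injEq] <;> omega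
  · simp only [if_false, Bool.false_eq_true]
    rcases hw with rfl | rfl <;> simp only [ne_eq, Prod.mk.injEq] <;> omega
  · simp only [if_false, Bool.false_eq_true]
    rcases hw with rfl | rfl <;> simp only [ne_eq, Prod.mk.injEq] <;> omega

/-! ### the edges of the cylinder -/

section cyl

variable {N b : ℕ} {hN : 1 ≤ N}

theorem Ced_true (x i : ℤ) : (Cs N b hN).ed (he (x, i, true)) =
    s(vt x i, vt (x - sh N b * (io x i / N)) (io x i % N)) := by
  rw [he_true]
  unfold Nm.ed
  rw [rv_U]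
  rfl

theorem Ced_false {x i : ℤ} (h1 : 0 ≤ i) (h2 : i < N) :
    (Cs N b hN).ed (he (x, i, false)) = s(rt x i, lf (x + 1) i) := by
  rw [he_false]
  unfold Nm.ed
  rw [rv_R h1 h2]
  rfl

/-- the vertical edge below a vertex of the cylinder. -/
theorem Ced_dn {x i : ℤ} (h : (x - i) % 2 = 0) (h1 : 1 ≤ i) (h2 : i < N) :
    (Cs N b hN).ed (he (x, i, true)) = s(vt x i, vt x (i - 1)) := by
  have e : io x i = i - 1 := by
    unfold io
    rw [if_pos h]
  rw [Ced_true, e, Int.ediv_eq_zero_of_lt (by omega) (by omega), Int.emod_eq_of_lt (by omega) (by omega),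
    mul_zero, sub_zero]

theorem Ced_dn0 {x : ℤ} (h : x % 2 = 0) :
    (Cs N b hN).ed (he (x, 0, true)) = s(vt x 0, vt (x + sh N b) ((N : ℤ) - 1)) := by
  have e : io x 0 = -1 := by
    unfold io
    rw [if_pos (by omega)]
    ring
  have hN' : (0 : ℤ) < N := by exact_mod_cast hN
  have e1 : (-1 : ℤ) / N = -1 := by
    rw [Int.ediv_eq_iff_of_pos hN'] 
    constructor <;> omega
  have e2 : (-1 : ℤ) % N = N - 1 := by
    have := Int.mul_ediv_add_emod (-1) N
    rw [e1] at this
    linarith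
  rw [Ced_true, e, e1, e2]
  congr 3
  ring

theorem Ced_up {x i : ℤ} (h : (x - i) % 2 ≠ 0) (h1 : 0 ≤ i) (h2 : i + 1 < N) :
    (Cs N b hN).ed (he (x, i, true)) = s(vt x i, vt x (i + 1)) := by
  have e : io x i = i + 1 := by
    unfold io
    rw [if_neg h]
  rw [Ced_true, e, Int.ediv_eq_zero_of_lt (by omega) (by omega), Int.emod_eq_of_lt (by omega) (by omega),
    mul_zero, sub_zero]

theorem Ced_up0 {x : ℤ} (h : (x - ((N : ℤ) - 1)) % 2 ≠ 0) :
    (Cs N b hN).ed (he (x, (N : ℤ) - 1, true)) = s(vt x ((N : ℤ) - 1), vt (x - sh N b) 0) := by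
  have e : io x ((N : ℤ) - 1) = N := by
    unfold io
    rw [if_neg h]
    ring
  have hN' : (N : ℤ) ≠ 0 := by omega
  rw [Ced_true, e, Int.ediv_self hN', Int.emod_self, mul_one]

end cyl

/-! ### the seam -/

theorem rHs_cons {N : ℕ} (hN : 1 ≤ N) (k : ℤ) : ∃ HR : List (ℤ × ℤ × Bool),
    rHs D N k = (2 * k + D.d 0, 0, true) :: HR ∧
    ∀ t ∈ HR, 0 ≤ t.2.1 ∧ t.2.1 < N ∧ (t.2.2 = true → 1 ≤ t.2.1 ∧ (t.1 - t.2.1) % 2 = 0) := by
  obtain ⟨M, rfl⟩ : ∃ M, N = M + 1 := ⟨N - 1, by omega⟩
  refine ⟨(2 * k + D.o 0 + 1, 0, false) :: (2 * k + D.o 0, 0, false) ::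
    ((List.range M).map Nat.succ).flatMap (fun i : ℕ => rH D k i), ?_, ?_⟩
  · unfold rHs
    rw [List.range_succ_eq_map, List.flatMap_cons]
    unfold rH
    simp
  · intro t ht
    simp only [List.mem_cons, List.mem_flatMap, List.mem_map, List.mem_range] at ht
    rcases ht with rfl | rfl | ⟨i, ⟨a, ha, rfl⟩, ht⟩
    · exact ⟨le_rfl, by push_cast; omega, fun h => by simp at h⟩
    · exact ⟨le_rfl, by push_cast; omega, fun h => by simp at h⟩
    · rw [mem_rH] at ht
      rcases ht with rfl | rfl | rfl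
      · refine ⟨by positivity, by push_cast; omega, fun _ => ⟨by push_cast; omega, ?_⟩⟩
        have := D.par ((Nat.succ a : ℕ) : ℤ)
        simp only
        omega
      · exact ⟨by positivity, by push_cast; omega, fun h => by simp at h⟩
      · exact ⟨by positivity, by push_cast; omega, fun h => by simp at h⟩

theorem lHs_cons {N : ℕ} (hN : 1 ≤ N) (k : ℤ) : ∃ HR : List (ℤ × ℤ × Bool),
    lHs D N k = (2 * k + D.d N, (N : ℤ) - 1, true) :: HR ∧
    ∀ t ∈ HR, 0 ≤ t.2.1 ∧ t.2.1 < N ∧ (t.2.2 = true → t.2.1 < N - 1 ∧ (t.1 - t.2.1) % 2 ≠ 0) := by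
  obtain ⟨M, rfl⟩ : ∃ M, N = M + 1 := ⟨N - 1, by omega⟩
  refine ⟨(2 * k + D.o M - 1, M, false) :: (2 * k + D.o M, M, false) ::
    (List.range M).reverse.flatMap (fun i : ℕ => lH D k i), ?_, ?_⟩
  · unfold lHs
    rw [List.range_succ, List.reverse_append, List.flatMap_append]
    have h1 : ((M + 1 : ℕ) : ℤ) - 1 = M := by push_cast; ring
    have h2 : ((M + 1 : ℕ) : ℤ) = (M : ℤ) + 1 := by push_cast; ring
    rw [h1, h2]
    simp only [List.reverse_cons, List.reverse_nil, List.nil_append, List.flatMap_cons, List.flatMap_nil,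
      List.append_nil]
    unfold lH
    simp
  · intro t ht
    simp only [List.mem_cons, List.mem_flatMap, List.mem_reverse, List.mem_range] at ht
    rcases ht with rfl | rfl | ⟨i, hi, ht⟩
    · exact ⟨by positivity, by push_cast; omega, fun h => by simp at h⟩
    · exact ⟨by positivity, by push_cast; omega, fun h => by simp at h⟩
    · rw [mem_lH] at ht
      rcases ht with rfl | rfl | rfl
      · refine ⟨by positivity, by push_cast; omega, fun _ => ⟨by push_cast; omega, ?_⟩⟩
        have := D.par ((i : ℤ) + 1)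
        simp only
        omega
      · exact ⟨by positivity, by push_cast; omega, fun h => by simp at h⟩
      · exact ⟨by positivity, by push_cast; omega, fun h => by simp at h⟩

variable {N b : ℕ} {hN : 1 ≤ N}

/-- PO of a label that is not on the cylinder. -/
def Bad (N : ℕ) (a : Lab) : Prop := ∃ (x i : ℤ) (d : Pt), (i < 0 ∨ (N : ℤ) ≤ i) ∧ a = hf (V x i, d)

theorem bad_z : Bad N (lX 1) := ⟨0, -1, _, Or.inl (by omega), z_eq⟩

theorem bad_vt {x i : ℤ} (h : i < 0 ∨ (N : ℤ) ≤ i) : Bad N (vt x i) := ⟨x, i, _, h, rfl⟩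

theorem Bad.comm_V {a : Lab} (h : Bad N a) (y : K) {w : ℤ × ℤ} (h1 : 0 ≤ w.2) (h2 : w.2 < N) :
    Commute (PO a : Op Lab K) (vO K y w) := by
  obtain ⟨x, i, d, h3, rfl⟩ := h
  apply PO_Crv_comm
  rw [Ne, V_inj]
  omega

theorem Bad.comm_H {a : Lab} (h : Bad N a) {t : ℤ × ℤ × Bool} (h1 : 0 ≤ t.2.1) (h2 : t.2.1 < N) :
    Commute (PO a : Op Lab K) (CoS ((Cs N b hN).ed (he t))) := by
  obtain ⟨x, i, d, h3, rfl⟩ := h
  obtain ⟨x', i', c⟩ := t
  simp only at h1 h2
  have hN' : (0 : ℤ) < N := by exact_mod_cast hN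
  have key : ∀ (x' i' : ℤ) (d' : Pt), 0 ≤ i' → i' < N → (hf (V x i, d) : Lab) ≠ hf (V x' i', d') := by
    intro x' i' d' h1 h2 e
    rw [Sum.inl.injEq, Prod.mk.injEq, V_inj] at e
    omega
  cases c
  · rw [Ced_false h1 h2]
    exact PO_Co_comm (key _ _ _ h1 h2) (key _ _ _ h1 h2)
  · rw [Ced_true]
    exact PO_Co_comm (key _ _ _ h1 h2) (key _ _ _ (Int.emod_nonneg _ (by omega))
      (Int.emod_lt_of_pos _ (by omega)))

theorem UO_V_comm {a c : Lab} (ha : Bad N a) (hb : Bad N c) (y : K) {w : ℤ × ℤ} (h1 : 0 ≤ w.2)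
    (h2 : w.2 < N) : Commute (UO a c : Op Lab K) (vO K y w) := by
  obtain ⟨x, i, d, h3, rfl⟩ := ha
  obtain ⟨x', i', d', h3', rfl⟩ := hb
  apply UO_Crv_comm
  · simp only
    rw [Ne, V_inj]
    omega
  · simp only
    rw [Ne, V_inj]
    omega

theorem range_mem {k : ℤ} {w : ℤ × ℤ} (h : w ∈ rV D N k ∨ w ∈ lV D N k) : 0 ≤ w.2 ∧ w.2 < N := by
  rw [mem_rV, mem_lV, or_self] at h
  obtain ⟨i, hi, h⟩ := h
  rw [mem_pV] at h
  rcases h with rfl | rfl
  · exact ⟨Int.natCast_nonneg i, Int.ofNat_lt.2 hi⟩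
  · exact ⟨Int.natCast_nonneg i, Int.ofNat_lt.2 hi⟩

/-- the sorted form of a ring of the right part. -/
theorem rRing_sort (hS : D.d N = D.d 0 + sh N b) (y : K) (k : ℤ) : rRing D y N k =
    (PO (lX 1) * PO (vt (2 * k + D.d 0) (-1))) * ((rV D N k).map (vO K y)).prod *
      ((rHs D N k).map (fun t => (CoS ((Cs N b hN).ed (he t)) : Op Lab K))).prod := by
  obtain ⟨HR, h1, h2⟩ := rHs_cons D hN k
  have hp := D.par 0
  have hpN := D.par N
  unfold rRing
  rw [rrows_sort, h1, List.map_cons, List.prod_cons, List.map_cons, List.prod_cons]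
  have e1 : (HR.map (fun t => (CoS ((Cs N b hN).ed (he t)) : Op Lab K))) =
      HR.map (fun t => CoS (Net.ed (he t))) := by
    refine List.map_congr_left (fun t ht => ?_)
    obtain ⟨a1, a2, a3⟩ := h2 t ht
    obtain ⟨x, i, c⟩ := t
    simp only at a1 a2 a3
    cases c
    · rw [Ced_false a1 a2, ed_false]
    · obtain ⟨a4, a5⟩ := a3 rfl
      have : io x i = i - 1 := by
        unfold io
        rw [if_pos a5]
      rw [Ced_dn a5 a4 a2, ed_true, this]
  have e2 : (CoS (Net.ed (he (2 * k + D.d 0, 0, true))) : Op Lab K) =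
      Co (vt (2 * k + D.d 0) (-1)) (vt (2 * k + D.d 0) 0) := by
    rw [ed_true]
    have : io (2 * k + D.d 0) 0 = -1 := by
      have := io_right D k 0
      rw [this]
      ring
    rw [this]
    exact Co_symm _ _
  have e3 : (CoS ((Cs N b hN).ed (he (2 * k + D.d 0, 0, true))) : Op Lab K) =
      Co (vt (2 * k + D.d 0) 0) (vt (2 * k + D.d N) ((N : ℤ) - 1)) := by
    rw [Ced_dn0 (by omega)]
    have : 2 * k + D.d 0 + sh N b = 2 * k + D.d N := by
      rw [hS]
      ring
    rw [this]
    rfl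
  rw [e1, e2, e3]
  set Vp := ((rV D N k).map (vO K y)).prod with hV
  set H := (HR.map (fun t => (CoS (Net.ed (he t)) : Op Lab K))).prod with hH
  have c1 : Commute (UO (lX 1) (vt (2 * k + D.d 0) (-1)) : Op Lab K) Vp := by
    apply commute_list_map
    intro w hw
    obtain ⟨a1, a2⟩ := range_mem D (Or.inl hw)
    exact UO_V_comm (N := N) bad_z (bad_vt (Or.inl (by omega))) y a1 a2
  have c3 : Commute (PO (lX 1) : Op Lab K) Vp := by
    apply commute_list_map
    intro w hw
    obtain ⟨a1, a2⟩ := range_mem D (Or.inl hw)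
    exact Bad.comm_V (N := N) bad_z y a1 a2
  have c4 : Commute (PO (vt (2 * k + D.d 0) (-1)) : Op Lab K) Vp := by
    apply commute_list_map
    intro w hw
    obtain ⟨a1, a2⟩ := range_mem D (Or.inl hw)
    exact Bad.comm_V (N := N) (bad_vt (Or.inl (by omega))) y a1 a2
  have c2 : Commute (Co (lX 1) (vt (2 * k + D.d N) ((N : ℤ) - 1)) : Op Lab K) H := by
    apply commute_list_map
    intro t ht
    obtain ⟨a1, a2, a3⟩ := h2 t ht
    obtain ⟨x, i, c⟩ := t
    simp only at a1 a2 a3
    cases c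
    · rw [ed_false]
      exact Co_comm (by simp) (by simp) (by simp) (by simp)
    · obtain ⟨a4, a5⟩ := a3 rfl
      have : io x i = i - 1 := by
        unfold io
        rw [if_pos a5]
      rw [ed_true, this]
      refine Co_comm (by simp) (by simp) ?_ ?_
      · simp only [Ne, vt_inj, not_and]
        intro h3 h4
        omega
      · simp only [Ne, vt_inj, not_and]
        intro h3 h4
        omega
  have e4 := seam (K := K) (z := lX 1) (s := vt (2 * k + D.d 0) (-1)) (a := vt (2 * k + D.d 0) 0)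
    (n := vt (2 * k + D.d N) ((N : ℤ) - 1)) (by
    simp
    omega)
  calc _ = (UO (lX 1) (vt (2 * k + D.d 0) (-1)) * Vp) * (Co (vt (2 * k + D.d 0) (-1)) (vt (2 * k + D.d 0) 0) *
        (H * Co (lX 1) (vt (2 * k + D.d N) ((N : ℤ) - 1)))) := by
        simp only [mul_assoc]
    _ = Vp * (UO (lX 1) (vt (2 * k + D.d 0) (-1)) * Co (vt (2 * k + D.d 0) (-1)) (vt (2 * k + D.d 0) 0) *
        Co (lX 1) (vt (2 * k + D.d N) ((N : ℤ) - 1))) * H := by
        rw [c1.eq, ← c2.eq]
        simp only [mul_assoc]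
    _ = (Vp * (PO (lX 1) * PO (vt (2 * k + D.d 0) (-1)))) *
        (Co (vt (2 * k + D.d 0) 0) (vt (2 * k + D.d N) ((N : ℤ) - 1)) * H) := by
        rw [e4]
        simp only [mul_assoc]
    _ = _ := by rw [← (c3.mul_left c4).eq]

/-- the sorted form of a ring of the left part. -/
theorem lRing_sort (hS : D.d N = D.d 0 + sh N b) (y : K) (k : ℤ) : lRing D y N k =
    (PO (lX 1) * PO (vt (2 * k + D.d N) N)) * ((lV D N k).map (vO K y)).prod *
      ((lHs D N k).map (fun t => (CoS ((Cs N b hN).ed (he t)) : Op Lab K))).prod := by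
  obtain ⟨HR, h1, h2⟩ := lHs_cons D hN k
  have hp := D.par 0
  have hpN := D.par N
  unfold lRing
  rw [lrows_sort, h1, List.map_cons, List.prod_cons, List.map_cons, List.prod_cons]
  have e1 : (HR.map (fun t => (CoS ((Cs N b hN).ed (he t)) : Op Lab K))) =
      HR.map (fun t => CoS (Net.ed (he t))) := by
    refine List.map_congr_left (fun t ht => ?_)
    obtain ⟨a1, a2, a3⟩ := h2 t ht
    obtain ⟨x, i, c⟩ := t
    simp only at a1 a2 a3
    cases c
    · rw [Ced_false a1 a2, ed_false]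
    · obtain ⟨a4, a5⟩ := a3 rfl
      have : io x i = i + 1 := by
        unfold io
        rw [if_neg a5]
      rw [Ced_up a5 a1 (by omega), ed_true, this]
  have e2 : (CoS (Net.ed (he (2 * k + D.d N, (N : ℤ) - 1, true))) : Op Lab K) =
      Co (vt (2 * k + D.d N) N) (vt (2 * k + D.d N) ((N : ℤ) - 1)) := by
    rw [ed_true]
    have : io (2 * k + D.d N) ((N : ℤ) - 1) = N := by
      have := io_left D k ((N : ℤ) - 1)
      rw [sub_add_cancel] at this
      exact this
    rw [this]
    exact Co_symm _ _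
  have e3 : (CoS ((Cs N b hN).ed (he (2 * k + D.d N, (N : ℤ) - 1, true))) : Op Lab K) =
      Co (vt (2 * k + D.d N) ((N : ℤ) - 1)) (vt (2 * k + D.d 0) 0) := by
    rw [Ced_up0 (by omega)]
    have : 2 * k + D.d N - sh N b = 2 * k + D.d 0 := by
      rw [hS]
      ring
    rw [this]
    rfl
  rw [e1, e2, e3]
  set Vp := ((lV D N k).map (vO K y)).prod with hV
  set H := (HR.map (fun t => (CoS (Net.ed (he t)) : Op Lab K))).prod with hH
  have c1 : Commute (UO (lX 1) (vt (2 * k + D.d N) N) : Op Lab K) Vp := by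
    apply commute_list_map
    intro w hw
    obtain ⟨a1, a2⟩ := range_mem D (Or.inr hw)
    exact UO_V_comm (N := N) bad_z (bad_vt (Or.inr le_rfl)) y a1 a2
  have c3 : Commute (PO (lX 1) : Op Lab K) Vp := by
    apply commute_list_map
    intro w hw
    obtain ⟨a1, a2⟩ := range_mem D (Or.inr hw)
    exact Bad.comm_V (N := N) bad_z y a1 a2
  have c4 : Commute (PO (vt (2 * k + D.d N) N) : Op Lab K) Vp := by
    apply commute_list_map
    intro w hw
    obtain ⟨a1, a2⟩ := range_mem D (Or.inr hw)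
    exact Bad.comm_V (N := N) (bad_vt (Or.inr le_rfl)) y a1 a2
  have c2 : Commute (Co (lX 1) (vt (2 * k + D.d 0) 0) : Op Lab K) H := by
    apply commute_list_map
    intro t ht
    obtain ⟨a1, a2, a3⟩ := h2 t ht
    obtain ⟨x, i, c⟩ := t
    simp only at a1 a2 a3
    cases c
    · rw [ed_false]
      exact Co_comm (by simp) (by simp) (by simp) (by simp)
    · obtain ⟨a4, a5⟩ := a3 rfl
      have : io x i = i + 1 := by
        unfold io
        rw [if_neg a5]
      rw [ed_true, this]
      refine Co_comm (by simp) (by simp) ?_ ?_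
      · simp only [Ne, vt_inj, not_and]
        intro h3 h4
        omega
      · simp only [Ne, vt_inj, not_and]
        intro h3 h4
        omega
  have e4 := seam (K := K) (z := lX 1) (s := vt (2 * k + D.d N) N) (a := vt (2 * k + D.d N) ((N : ℤ) - 1))
    (n := vt (2 * k + D.d 0) 0) (by
    simp
    omega)
  calc _ = (UO (lX 1) (vt (2 * k + D.d N) N) * Vp) *
        (Co (vt (2 * k + D.d N) N) (vt (2 * k + D.d N) ((N : ℤ) - 1)) *
        (H * Co (lX 1) (vt (2 * k + D.d 0) 0))) := by
        simp only [mul_assoc]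
    _ = Vp * (UO (lX 1) (vt (2 * k + D.d N) N) *
        Co (vt (2 * k + D.d N) N) (vt (2 * k + D.d N) ((N : ℤ) - 1)) * Co (lX 1) (vt (2 * k + D.d 0) 0)) * H := by
        rw [c1.eq, ← c2.eq]
        simp only [mul_assoc]
    _ = (Vp * (PO (lX 1) * PO (vt (2 * k + D.d N) N))) *
        (Co (vt (2 * k + D.d N) ((N : ℤ) - 1)) (vt (2 * k + D.d 0) 0) * H) := by
        rw [e4]
        simp only [mul_assoc]
    _ = _ := by rw [← (c3.mul_left c4).eq]

/-! ### all rings -/

/-- the vertices of the ring k. -/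
def vL (N : ℕ) (k : ℤ) : List (ℤ × ℤ) := if 0 ≤ k then rV D N k else lV D N k

/-- the items of the ring k. -/
def cL (N : ℕ) (k : ℤ) : List (ℤ × ℤ × Bool) := if 0 ≤ k then rHs D N k else lHs D N k

/-- the ring k. -/
noncomputable def ring (y : K) (N : ℕ) (k : ℤ) : Op Lab K := if 0 ≤ k then rRing D y N k else lRing D y N k

theorem tot_rings (y : K) (N n m : ℕ) : rTot D y N n * lTot D y N m = ((rings n m).map (ring D y N)).prod := by
  have h1 : ∀ n : ℕ, rTot D y N n =
      (((List.range n).reverse.map (fun j : ℕ => (j : ℤ))).map (ring D y N)).prod := by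
    intro n
    induction n with
    | zero => rfl
    | succ n ih =>
      have e : rTot D y N (n + 1) = rRing D y N n * rTot D y N n := rfl
      rw [e, ih, List.range_succ, List.reverse_append]
      simp only [List.reverse_cons, List.reverse_nil, List.nil_append, List.cons_append, List.map_cons,
        List.prod_cons]
      have e3 : ring D y N (n : ℤ) = rRing D y N n := by
        unfold ring
        rw [if_pos (Int.natCast_nonneg n)]
      rw [e3]
  have h2 : ∀ m : ℕ, lTot D y N m =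
      (((List.range m).reverse.map (fun j : ℕ => -(j : ℤ) - 1)).map (ring D y N)).prod := by
    intro m
    induction m with
    | zero => rfl
    | succ m ih =>
      have e : lTot D y N (m + 1) = lRing D y N (-(m : ℤ) - 1) * lTot D y N m := rfl
      rw [e, ih, List.range_succ, List.reverse_append]
      simp only [List.reverse_cons, List.reverse_nil, List.nil_append, List.cons_append, List.map_cons,
        List.prod_cons]
      have e3 : ring D y N (-(m : ℤ) - 1) = lRing D y N (-(m : ℤ) - 1) := by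
        unfold ring
        rw [if_neg (by omega)]
      rw [e3]
  unfold rings
  rw [List.map_append, List.prod_append, h1, h2]

theorem mem_vL {k : ℤ} {w : ℤ × ℤ} : w ∈ vL D N k ↔ ∃ i : ℕ, i < N ∧ w ∈ pV D k i := by
  unfold vL
  split_ifs
  · exact mem_rV
  · exact mem_lV

/-- the projections of a ring. -/
noncomputable def pR (K : Type*) [CommRing K] (D : Stp) (N : ℕ) (k : ℤ) : Op Lab K :=
  if 0 ≤ k then PO (lX 1) * PO (vt (2 * k + D.d 0) (-1)) else PO (lX 1) * PO (vt (2 * k + D.d N) N)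

theorem ring_sort (hS : D.d N = D.d 0 + sh N b) (y : K) (k : ℤ) : ring D y N k =
    pR K D N k * ((vL D N k).map (vO K y)).prod *
      ((cL D N k).map (fun t => (CoS ((Cs N b hN).ed (he t)) : Op Lab K))).prod := by
  unfold ring pR vL cL
  by_cases h : 0 ≤ k
  · rw [if_pos h, if_pos h, if_pos h, if_pos h]
    exact rRing_sort D hS y k
  · rw [if_neg h, if_neg h, if_neg h, if_neg h]
    exact lRing_sort D hS y k

theorem pR_bad (k : ℤ) : ∃ a c : Lab, Bad N a ∧ Bad N c ∧ pR K D N k = PO a * PO c := by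
  unfold pR
  by_cases h : 0 ≤ k
  · rw [if_pos h]
    exact ⟨_, _, bad_z, bad_vt (Or.inl (by omega)), rfl⟩
  · rw [if_neg h]
    exact ⟨_, _, bad_z, bad_vt (Or.inr le_rfl), rfl⟩

theorem mem_cL {k : ℤ} {t : ℤ × ℤ × Bool} : t ∈ cL D N k ↔
    ∃ i : ℕ, i < N ∧ ((0 ≤ k ∧ t ∈ rH D k i) ∨ (k < 0 ∧ t ∈ lH D k i)) := by
  unfold cL
  by_cases h : 0 ≤ k
  · rw [if_pos h, mem_rHs]
    have h' : ¬ k < 0 := by omega
    simp [h, h']
  · rw [if_neg h, mem_lHs]
    have h' : k < 0 := by omega
    simp [h, h']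

theorem cL_range {k : ℤ} {t : ℤ × ℤ × Bool} (h : t ∈ cL D N k) : 0 ≤ t.2.1 ∧ t.2.1 < N := by
  rw [mem_cL] at h
  obtain ⟨i, hi, ⟨-, h⟩ | ⟨-, h⟩⟩ := h
  · rw [mem_rH] at h
    rcases h with rfl | rfl | rfl <;> exact ⟨Int.natCast_nonneg i, Int.ofNat_lt.2 hi⟩
  · rw [mem_lH] at h
    rcases h with rfl | rfl | rfl <;> exact ⟨Int.natCast_nonneg i, Int.ofNat_lt.2 hi⟩

theorem vL_range {k : ℤ} {w : ℤ × ℤ} (h : w ∈ vL D N k) : 0 ≤ w.2 ∧ w.2 < N := by
  rw [mem_vL] at h
  obtain ⟨i, hi, h⟩ := h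
  rw [mem_pV] at h
  rcases h with rfl | rfl <;> exact ⟨Int.natCast_nonneg i, Int.ofNat_lt.2 hi⟩

/-- the other end of the vertical edge of an item lies in the same ring. -/
theorem vert (hS : D.d N = D.d 0 + sh N b) {x i : ℤ} (h1 : 0 ≤ i) (h2 : i < N) (c : ℤ) :
    2 * c ≤ x - D.o i ↔ 2 * c ≤ x - sh N b * (io x i / N) - D.o (io x i % N) := by
  have hN' : (0 : ℤ) < N := by omega
  have a0 := D.par i
  by_cases h : (x - i) % 2 = 0
  · have e : io x i = i - 1 := by
      unfold io
      rw [if_pos h]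
    have a1 := D.os i
    rw [e]
    by_cases c0 : i = 0
    · subst c0
      have e1 : (0 - 1 : ℤ) / N = -1 := by
        rw [Int.ediv_eq_iff_of_pos hN']
        constructor <;> omega
      have e2 : (0 - 1 : ℤ) % N = N - 1 := by
        have := Int.mul_ediv_add_emod (0 - 1) N
        rw [e1] at this
        linarith
      rw [e1, e2]
      have a2 := D.os ((N : ℤ) - 1)
      rw [sub_add_cancel] at a2
      omega
    · rw [Int.ediv_eq_zero_of_lt (by omega) (by omega), Int.emod_eq_of_lt (by omega) (by omega)]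
      have a2 := D.os (i - 1)
      rw [sub_add_cancel] at a2
      omega
  · have e : io x i = i + 1 := by
      unfold io
      rw [if_neg h]
    have a1 := D.os i
    have a3 := D.par (i + 1)
    rw [e]
    by_cases c0 : i + 1 = N
    · rw [c0, Int.ediv_self hN'.ne', Int.emod_self]
      have a2 := D.os 0
      rw [c0] at a1 a3
      omega
    · rw [Int.ediv_eq_zero_of_lt (by omega) (by omega), Int.emod_eq_of_lt (by omega) (by omega)]
      have a2 := D.os (i + 1)
      omega

/-- the coordinates of the items of a ring. -/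
theorem cL_coord {k : ℤ} {t : ℤ × ℤ × Bool} (h : t ∈ cL D N k) :
    (t.2.2 = true → (t.1 - D.o t.2.1) / 2 = k ∧ ((t.1 - t.2.1) % 2 = 0 ↔ 0 ≤ k)) ∧
    (t.2.2 = false → (0 ≤ k → (t.1 - D.o t.2.1) / 2 = k) ∧ (k < 0 → (t.1 - D.o t.2.1 + 1) / 2 = k)) := by
  rw [mem_cL] at h
  obtain ⟨i, hi, ⟨h0, h⟩ | ⟨h0, h⟩⟩ := h
  · rw [mem_rH] at h
    have a1 := D.os i
    have a2 := D.par i
    rcases h with rfl | rfl | rfl
    · refine ⟨fun _ => ?_, fun h => by simp at h⟩
      simp only
      omega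
    · refine ⟨fun h => by simp at h, fun _ => ?_⟩
      simp only
      omega
    · refine ⟨fun h => by simp at h, fun _ => ?_⟩
      simp only
      omega
  · rw [mem_lH] at h
    have a1 := D.os i
    have a2 := D.par (i + 1)
    rcases h with rfl | rfl | rfl
    · refine ⟨fun _ => ?_, fun h => by simp at h⟩
      simp only
      omega
    · refine ⟨fun h => by simp at h, fun _ => ?_⟩
      simp only
      omega
    · refine ⟨fun h => by simp at h, fun _ => ?_⟩
      simp only
      omega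

/-- a ring commutes with the vertices of a later ring. -/
theorem later_comm (hS : D.d N = D.d 0 + sh N b) (y : K) {a c : ℤ}
    (h : (0 ≤ a ∧ c < a) ∨ (a < 0 ∧ a < c ∧ c < 0)) :
    Commute (((cL D N a).map (fun t => (CoS ((Cs N b hN).ed (he t)) : Op Lab K))).prod)
      (((vL D N c).map (vO K y)).prod) := by
  refine commute_list_map fun w hw => ?_
  refine (commute_list_map fun t ht => ?_).symm
  obtain ⟨a1, a2⟩ := cL_range D ht
  obtain ⟨b1, b2⟩ := cL_coord D ht
  rw [mem_vL] at hw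
  obtain ⟨i, hi, hw⟩ := hw
  rw [mem_pV] at hw
  have hw1 : 2 * c ≤ w.1 - D.o w.2 ∧ w.1 - D.o w.2 ≤ 2 * c + 1 := by
    rcases hw with rfl | rfl <;> simp only <;> omega
  obtain ⟨x, j, e⟩ := t
  simp only at a1 a2 b1 b2
  have key : ∀ {x' i' : ℤ}, (2 * c + 2 ≤ x' - D.o i' ∨ x' - D.o i' < 2 * c) → V x' i' ≠ V w.1 w.2 := by
    intro x' i' h e
    rw [V_inj] at e
    rw [e.1, e.2] at h
    omega
  cases e
  · have b3 := b2 rfl
    rw [Ced_false a1 a2]
    exact Crv_Co_comm y (h := (V x j, dR x j)) (k := (V (x + 1) j, dL (x + 1) j)) (key (by omega))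
      (key (by omega))
  · have b3 := b1 rfl
    have v1 := vert D hS (x := x) a1 a2 (c + 1)
    have v2 := vert D hS (x := x) a1 a2 c
    rw [Ced_true]
    exact Crv_Co_comm y (h := (V x j, dU x j))
      (k := (V (x - sh N b * (io x j / N)) (io x j % N), dU (x - sh N b * (io x j / N)) (io x j % N)))
      (key (by omega)) (key (by omega))

/-- all vertices. -/
def vA (N n m : ℕ) : List (ℤ × ℤ) := (rings n m).flatMap (vL D N)

/-- all items. -/
def cA (N n m : ℕ) : List (ℤ × ℤ × Bool) := (rings n m).flatMap (cL D N)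

/-- **The network of all rings, sorted, at the empty state.** -/
theorem tot_sort (hS : D.d N = D.d 0 + sh N b) (y : K) (n m : ℕ) (G : Pat Lab → K) :
    (rTot D y N n * lTot D y N m) G Pat.empty =
      (((vA D N n m).map (vO K y)).prod *
        ((cA D N n m).map (fun t => (CoS ((Cs N b hN).ed (he t)) : Op Lab K))).prod) G Pat.empty := by
  rw [tot_rings]
  have e1 : (rings n m).map (ring D y N) = (rings n m).map (fun k => pR K D N k *
      ((vL D N k).map (vO K y)).prod *
      ((cL D N k).map (fun t => (CoS ((Cs N b hN).ed (he t)) : Op Lab K))).prod) :=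
    List.map_congr_left fun k _ => ring_sort D hS y k
  rw [e1, prod_sort3]
  · unfold vA cA
    rw [prod_flatMap', prod_flatMap']
    rw [Module.End.mul_apply]
    have key : ∀ (l : List ℤ) (F : Pat Lab → K), (l.map (pR K D N)).prod F Pat.empty = F Pat.empty := by
      intro l
      induction l with
      | nil => intro F; rfl
      | cons k l ih =>
        intro F
        rw [List.map_cons, List.prod_cons, Module.End.mul_apply]
        obtain ⟨a, c, -, -, e⟩ := pR_bad (K := K) (N := N) D k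
        rw [e, Module.End.mul_apply, PO_apply, if_pos (show (Pat.empty : Pat Lab).f a = a from rfl), PO_apply,
          if_pos (show (Pat.empty : Pat Lab).f c = c from rfl)]
        exact ih F
    exact key _ _
  · exact (pairwise_rings n m).imp fun {a c} h => later_comm D hS y h
  · intro a _ c _
    obtain ⟨e, f, he', hf', e1⟩ := pR_bad (K := K) (N := N) D a
    rw [e1]
    refine commute_list_map fun w hw => ?_
    obtain ⟨a1, a2⟩ := vL_range D hw
    exact (he'.comm_V y a1 a2).mul_left (hf'.comm_V y a1 a2)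
  · intro a _ c _
    obtain ⟨e, f, he', hf', e1⟩ := pR_bad (K := K) (N := N) D a
    rw [e1]
    refine commute_list_map fun t ht => ?_
    obtain ⟨a1, a2⟩ := cL_range D ht
    exact (he'.comm_H a1 a2).mul_left (hf'.comm_H a1 a2)

end Pool.Agent.STR
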