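import Pool.Agent.STR.PubMain

/-!
# A stair for every direction of the sector (project ISO, T9)

`stD n b`: periodic with the half period `n`, in every half period `n - b` normal rows, then `b` mirrored rows.
-/

set_option autoImplicit false

namespace Pool.Agent.STR

/-- the stair in one half period. -/
def stf (n b : ℕ) (r : ℤ) : ℤ := min r (2 * ((n : ℤ) - b) - r)

theorem stf_succ (n b : ℕ) (r : ℤ) : stf n b (r + 1) = stf n b r + 1 ∨ stf n b (r + 1) = stf n b r - 1 := by
  unfold stf
  rcases le_or_gt (r + 1) ((n : ℤ) - b) with h | h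
  · left
    rw [min_eq_left (by omega), min_eq_left (by omega)]
  · right
    rw [min_eq_right (by omega), min_eq_right (by omega)]
    ring

theorem stf_n {n b : ℕ} : stf n b n = n - 2 * b := by
  unfold stf
  rw [min_eq_right (by omega)]
  ring

theorem stf_zero {n b : ℕ} (hb : b ≤ n) : stf n b 0 = 0 := by
  unfold stf
  rw [min_eq_left (by omega)]

/-- the values of the stair. -/
def std (n b : ℕ) (i : ℤ) : ℤ := ((n : ℤ) - 2 * b) * (i / n) + stf n b (i % n)

theorem std_add {n b : ℕ} (hn : 1 ≤ n) (i : ℤ) : std n b (i + n) = std n b i + ((n : ℤ) - 2 * b) := by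
  unfold std
  rw [Int.add_emod_right]
  have h : (i + (n : ℤ)) / n = i / n + 1 := by
    have := Int.add_mul_ediv_right i 1 (c := (n : ℤ)) (by omega)
    rwa [one_mul] at this
  rw [h]
  ring

theorem std_of {n b : ℕ} {i : ℤ} (h1 : 0 ≤ i) (h2 : i < n) : std n b i = stf n b i := by
  unfold std
  rw [Int.ediv_eq_zero_of_lt h1 h2, Int.emod_eq_of_lt h1 h2, mul_zero, zero_add]

theorem std_succ {n b : ℕ} (hn : 1 ≤ n) (hb : b ≤ n) (i : ℤ) :
    std n b (i + 1) = std n b i + 1 ∨ std n b (i + 1) = std n b i - 1 := by
  have hn0 : (0 : ℤ) < n := by omega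
  have e := Int.mul_ediv_add_emod i n
  have h1 := Int.emod_nonneg i hn0.ne'
  have h2 := Int.emod_lt_of_pos i hn0
  rcases lt_or_ge (i % n + 1) (n : ℤ) with h | h
  · have d : (i + 1) / (n : ℤ) = i / n := by
      have e1 : i + 1 = (i % n + 1) + i / n * n := by linarith
      rw [e1, Int.add_mul_ediv_right _ _ hn0.ne', Int.ediv_eq_zero_of_lt (by omega) h, zero_add]
    have r : (i + 1) % (n : ℤ) = i % n + 1 := by
      have e1 : i + 1 = (i % n + 1) + i / n * n := by linarith
      rw [e1, Int.add_mul_emod_self_right, Int.emod_eq_of_lt (by omega) h]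
    unfold std
    rw [d, r]
    rcases stf_succ n b (i % n) with h3 | h3 <;> rw [h3]
    · left; ring
    · right; ring
  · have h3 : i % (n : ℤ) = n - 1 := by omega
    have e1 : i + 1 = 0 + (i / n + 1) * n := by
      rw [h3] at e
      linarith
    have d : (i + 1) / (n : ℤ) = i / n + 1 := by
      rw [e1, Int.add_mul_ediv_right _ _ hn0.ne']
      simp
    have r : (i + 1) % (n : ℤ) = 0 := by
      rw [e1, Int.add_mul_emod_self_right]
      rfl
    unfold std
    rw [d, r, h3, stf_zero hb]
    have h4 := stf_succ n b ((n : ℤ) - 1)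
    rw [sub_add_cancel, stf_n] at h4
    rcases h4 with h4 | h4
    · left; linarith
    · right; linarith

/-- **The stair with `n - b` normal rows and `b` mirrored rows in every half period.** -/
def stD (n b : ℕ) (hn : 1 ≤ n) (hb : b ≤ n) : Stp where
  d := std n b
  st := std_succ hn hb
  pr := by
    rw [std_of le_rfl (by omega), stf_zero hb]
    rfl

theorem two_stD {n b : ℕ} (hn : 1 ≤ n) (hb : b + 1 ≤ n) : Two (stD n b hn (by omega)) n b := by
  have hb' : b ≤ n := by omega
  have d0 : std n b 0 = 0 := by rw [std_of le_rfl (by omega), stf_zero hb']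
  have dn : std n b (n : ℤ) = n - 2 * b := by
    have := std_add (b := b) hn 0
    rwa [zero_add, d0, zero_add] at this
  have d1 : std n b 1 = 1 := by
    rcases Nat.lt_or_ge 1 n with h | h
    · rw [std_of (by norm_num) (by exact_mod_cast h)]
      unfold stf
      rw [min_eq_left (by omega)]
    · have h1 : n = 1 := by omega
      subst h1
      have h2 : b = 0 := by omega
      subst h2
      have e : ((1 : ℕ) : ℤ) = 1 := rfl
      rw [e] at dn
      rw [dn]
      norm_num
  have dn1 : std n b ((n : ℤ) + 1) = std n b n + 1 := by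
    have := std_add (b := b) hn 1
    rw [add_comm (1 : ℤ) (n : ℤ), d1] at this
    rw [this, dn]
    ring
  refine ⟨d0, dn, ?_, ?_, ?_⟩
  · have := std_add (b := b) hn n
    rw [dn] at this
    show std n b (2 * n) = _
    rw [two_mul, this]
    ring
  · show decide (std n b (0 + 1) < std n b 0) = false
    rw [zero_add, d1, d0]
    decide
  · show decide (std n b ((n : ℤ) + 1) < std n b n) = false
    rw [dn1, decide_eq_false_iff_not]
    omega

end Pool.Agent.STR
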