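import Pool.Agent.STR.PubFin

/-!
# The symmetries of the walks modulo a period, all multiples of a translation at once (project ISO, T9)

`redj`: as `HexTwo.red` for all multiples of `w`.  `two_point_dir3`: a limit along every direction `(-b, m)` gives the
limit for every edge type and the multiples of every translation of its cone.
-/

set_option autoImplicit false

namespace Pool.Agent.HexTwo

theorem redj_zero' {w : ℤ × ℤ} (h1 : 0 < w.2) (h2 : 0 < w.1 + w.2) : ∃ b m : ℕ, b + 1 ≤ m ∧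
    qf (-(b : ℤ), (m : ℤ)) = qf w ∧ ∀ (j : ℤ) n, (saws3 0 (j • w) n).ncard =
      (saws3 0 (j • (-(b : ℤ), (m : ℤ))) n).ncard := by
  obtain ⟨x, r⟩ := w
  simp only at h1 h2
  rcases le_or_gt x 0 with h | h
  · obtain ⟨b, hb⟩ := Int.eq_ofNat_of_zero_le (show 0 ≤ -x by omega)
    obtain ⟨m, hm⟩ := Int.eq_ofNat_of_zero_le h1.le
    have e : ((x, r) : ℤ × ℤ) = (-(b : ℤ), (m : ℤ)) := Prod.ext (by simp only; omega) hm
    exact ⟨b, m, by omega, by rw [e], fun j n => by rw [e]⟩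
  · obtain ⟨b, hb⟩ := Int.eq_ofNat_of_zero_le h.le
    obtain ⟨m, hm⟩ := Int.eq_ofNat_of_zero_le h2.le
    have e : -rft ((x, r) : ℤ × ℤ) = (-(b : ℤ), (m : ℤ)) := by
      simp only [rft]
      refine Prod.ext ?_ ?_
      · show -x = -(b : ℤ)
        omega
      · show -(-x - r) = (m : ℤ)
        omega
    refine ⟨b, m, by omega, ?_, fun j n => ?_⟩
    · rw [← e, qf_neg, qf_rft]
    · rw [← e, smul_neg, saws3_neg, ← mor_rf.smul, card_rf]

theorem redj_zero {w : ℤ × ℤ} (h : Cone 0 w) : ∃ b m : ℕ, b + 1 ≤ m ∧ qf (-(b : ℤ), (m : ℤ)) = qf w ∧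
    ∀ (j : ℤ) n, (saws3 0 (j • w) n).ncard = (saws3 0 (j • (-(b : ℤ), (m : ℤ))) n).ncard := by
  have h' : 0 < w.2 * (w.1 + w.2) := h
  rcases pos_and_pos_or_neg_and_neg_of_mul_pos h' with ⟨h1, h2⟩ | ⟨h1, h2⟩
  · exact redj_zero' h1 h2
  · obtain ⟨b, m, h3, h4, h5⟩ := redj_zero' (w := -w) (by simp only [Prod.snd_neg]; omega)
      (by simp only [Prod.fst_neg, Prod.snd_neg]; omega)
    refine ⟨b, m, h3, by rw [h4, qf_neg], fun j n => ?_⟩
    rw [← h5, smul_neg, saws3_neg]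

/-- **Every edge type and every translation of its cone, with all multiples.** -/
theorem redj (k : Fin 3) {w : ℤ × ℤ} (h : Cone k w) : ∃ b m : ℕ, b + 1 ≤ m ∧ qf (-(b : ℤ), (m : ℤ)) = qf w ∧
    ∀ (j : ℤ) n, (saws3 k (j • w) n).ncard = (saws (j • (-(b : ℤ), (m : ℤ))) n).ncard := by
  have h1 : ∀ {w : ℤ × ℤ}, Cone 1 w → ∃ b m : ℕ, b + 1 ≤ m ∧ qf (-(b : ℤ), (m : ℤ)) = qf w ∧
      ∀ (j : ℤ) n, (saws3 1 (j • w) n).ncard = (saws3 0 (j • (-(b : ℤ), (m : ℤ))) n).ncard := by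
    intro w hw
    obtain ⟨b, m, h3, h4, h5⟩ := redj_zero (cone_rit 0 hw)
    refine ⟨b, m, h3, by rw [h4, qf_rit], fun j n => ?_⟩
    rw [← h5, ← (mor_ri 0).smul]
    exact card_ri 0 _ n
  have h2 : ∀ {w : ℤ × ℤ}, Cone 2 w → ∃ b m : ℕ, b + 1 ≤ m ∧ qf (-(b : ℤ), (m : ℤ)) = qf w ∧
      ∀ (j : ℤ) n, (saws3 2 (j • w) n).ncard = (saws3 0 (j • (-(b : ℤ), (m : ℤ))) n).ncard := by
    intro w hw
    obtain ⟨b, m, h3, h4, h5⟩ := h1 (cone_rit 1 hw)
    refine ⟨b, m, h3, by rw [h4, qf_rit], fun j n => ?_⟩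
    rw [← h5, ← (mor_ri 1).smul]
    exact card_ri 1 _ n
  fin_cases k
  · exact redj_zero h
  · exact h1 h
  · exact h2 h

theorem qf_smul (j : ℤ) (w : ℤ × ℤ) : qf (j • w) = j ^ 2 * qf w := by
  simp only [qf, Prod.smul_fst, Prod.smul_snd, smul_eq_mul]
  ring

end Pool.Agent.HexTwo

namespace Pool.Agent.STR

open Pool.Agent.HexTwo Filter Topology

/-- **All edges, all directions, one constant (limits along the directions).** -/
theorem two_point_dir3 {a A : ℝ} (h : ∀ b m : ℕ, b + 1 ≤ m → Tendsto (fun j : ℕ => GS (j * b) (j * m) *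
      (qf (-((j * b : ℕ) : ℤ), ((j * m : ℕ) : ℤ)) : ℝ) ^ a) atTop (𝓝 A)) :
    ∀ (k : Fin 3) (w : ℤ × ℤ), Cone k w → ∃ G : ℕ → ℝ, (∀ j : ℕ, 1 ≤ j →
        HasSum (fun n : ℕ => ((saws3 k ((j : ℤ) • w) n).ncard : ℝ) * zc ^ (n + 1)) (G j)) ∧
      Tendsto (fun j : ℕ => G j * (qf ((j : ℤ) • w) : ℝ) ^ a) atTop (𝓝 A) := by
  intro k w hw
  obtain ⟨b, m, h1, h2, h3⟩ := redj k hw
  obtain ⟨G, h4, h5⟩ := two_point_dir h1 (h b m h1)
  refine ⟨G, fun j hj => ?_, ?_⟩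
  · simp only [h3]
    exact h4 j hj
  · have e : ∀ j : ℕ, qf ((j : ℤ) • w) = qf ((j : ℤ) • (-(b : ℤ), (m : ℤ))) := fun j => by
      rw [qf_smul, qf_smul, h2]
    simp only [e]
    exact h5

end Pool.Agent.STR
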