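import Pool.Agent.STR.Sort
import Pool.Agent.MXR.Word

/-!
# The rings of a stair are sums over words
-/

set_option autoImplicit false

namespace Pool.Agent.STR

open Pool.Agent.EXL hiding cc
open Pool.Agent.EXL.Pat Pool.Agent.EXL.Net HexObs HexObs.LP
open Pool.Agent.NUF.Cyl (Nm Co_eq_glue glue_congr)
open Pool.Agent.NUN (cc Xr Xl)
open Pool.Agent.NUNC (dd)
open Pool.Agent.MXR (V V_inj V_dR V_dL V_dU dR dL dU io io_io neg_dR neg_dL neg_dU rt lf vt rt_inj lf_inj vt_inj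
  he he_true he_false vO rings mem_rings pairwise_rings V_injective De_V two_ended)

variable {K : Type*} [CommRing K] {N b : ℕ} {hN : 1 ≤ N} (D : Stp)

/-! ### vertices -/

theorem nodup_vL (N : ℕ) (k : ℤ) : (vL D N k).Nodup := by
  have key : (List.range N).Pairwise (fun a b => List.Disjoint (pV D k (a : ℕ)) (pV D k (b : ℕ))) := by
    refine List.pairwise_lt_range.imp fun {a b} hab => ?_
    intro w h1 h2
    rw [mem_pV] at h1 h2
    rcases h1 with rfl | rfl <;> rcases h2 with h2 | h2 <;> rw [Prod.mk.injEq] at h2 <;> omega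
  have key2 : ∀ i : ℕ, (pV D k (i : ℤ)).Nodup := by
    intro i
    unfold pV
    simp
  unfold vL
  split_ifs
  · unfold rV
    rw [List.nodup_flatMap]
    exact ⟨fun i _ => key2 i, key⟩
  · unfold lV
    rw [List.nodup_flatMap]
    refine ⟨fun i _ => key2 i, ?_⟩
    rw [List.pairwise_reverse]
    exact key.imp fun {a b} h => h.symm

theorem mem_vA {n m : ℕ} {w : ℤ × ℤ} :
    w ∈ vA D N n m ↔ (-(2 * m : ℤ) ≤ w.1 - D.o w.2 ∧ w.1 - D.o w.2 < 2 * n) ∧ 0 ≤ w.2 ∧ w.2 < N := by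
  unfold vA
  rw [List.mem_flatMap]
  constructor
  · rintro ⟨k, hk, h⟩
    rw [mem_rings] at hk
    rw [mem_vL] at h
    obtain ⟨i, hi, h⟩ := h
    rw [mem_pV] at h
    rcases h with rfl | rfl <;> simp only <;> omega
  · rintro ⟨⟨h1, h2⟩, h3, h4⟩
    refine ⟨(w.1 - D.o w.2) / 2, mem_rings.2 (by omega), ?_⟩
    rw [mem_vL]
    refine ⟨w.2.toNat, by omega, ?_⟩
    have e : ((w.2.toNat : ℕ) : ℤ) = w.2 := by omega
    rw [mem_pV, e]
    rcases Int.emod_two_eq_zero_or_one (w.1 - D.o w.2) with h | h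
    · left
      refine Prod.ext ?_ rfl
      simp only
      omega
    · right
      refine Prod.ext ?_ rfl
      simp only
      omega

theorem nodup_vA (N n m : ℕ) : (vA D N n m).Nodup := by
  unfold vA
  rw [List.nodup_flatMap]
  refine ⟨fun k _ => nodup_vL D N k, ?_⟩
  refine (pairwise_rings n m).imp fun {a b} hab => ?_
  intro w h1 h2
  rw [mem_vL] at h1 h2
  obtain ⟨i, -, h1⟩ := h1
  obtain ⟨j, -, h2⟩ := h2
  rw [mem_pV] at h1 h2
  have e1 : 2 * a ≤ w.1 - D.o w.2 ∧ w.1 - D.o w.2 ≤ 2 * a + 1 := by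
    rcases h1 with rfl | rfl <;> simp only <;> omega
  have e2 : 2 * b ≤ w.1 - D.o w.2 ∧ w.1 - D.o w.2 ≤ 2 * b + 1 := by
    rcases h2 with rfl | rfl <;> simp only <;> omega
  omega

theorem CR_vA (y : K) (n m : ℕ) : ((vA D N n m).map (vO K y)).prod = CR y (Dm D N n m) := by
  classical
  have h1 : ((vA D N n m).map fun w : ℤ × ℤ => V w.1 w.2).Nodup := (nodup_vA D _ n m).map V_injective
  have h2 : ((vA D N n m).map fun w : ℤ × ℤ => V w.1 w.2).toFinset = Dm D N n m := by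
    ext v
    rw [List.mem_toFinset, List.mem_map]
    constructor
    · rintro ⟨w, hw, rfl⟩
      rw [mem_vA] at hw
      exact mem_Dm.2 hw
    · intro hv
      obtain ⟨x, i, rfl, h3⟩ := exists_of_mem_Dm hv
      exact ⟨(x, i), (mem_vA D).2 h3, rfl⟩
  have h3 : (CR y ((vA D N n m).map fun w : ℤ × ℤ => V w.1 w.2).toFinset : Op Lab K) =
      (((vA D N n m).map fun w : ℤ × ℤ => V w.1 w.2).map (Crv y)).prod :=
    Finset.noncommProd_toFinset _ _ _ h1
  rw [h2, List.map_map] at h3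
  rw [h3]
  rfl

/-! ### edges -/

/-- all items: the rings and the cut between the rings `-1` and `0`. -/
def iA (N n m : ℕ) : List (ℤ × ℤ × Bool) :=
  cA D N n m ++ (List.range N).map (fun i : ℕ => (D.o (i : ℤ) - 1, (i : ℤ), false))

theorem nodup_cL (N : ℕ) (k : ℤ) : (cL D N k).Nodup := by
  unfold cL
  split_ifs
  · unfold rHs
    rw [List.nodup_flatMap]
    refine ⟨fun i _ => ?_, ?_⟩
    · unfold rH
      simp
    · refine List.pairwise_lt_range.imp fun {a b} hab => ?_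
      intro t h1 h2
      rw [mem_rH] at h1 h2
      rcases h1 with rfl | rfl | rfl <;> rcases h2 with h2 | h2 | h2 <;>
        rw [Prod.mk.injEq, Prod.mk.injEq] at h2 <;> omega
  · unfold lHs
    rw [List.nodup_flatMap]
    refine ⟨fun i _ => ?_, ?_⟩
    · unfold lH
      simp
    · rw [List.pairwise_reverse]
      refine List.pairwise_lt_range.imp fun {a b} hab => ?_
      intro t h1 h2
      rw [mem_lH] at h1 h2
      rcases h1 with rfl | rfl | rfl <;> rcases h2 with h2 | h2 | h2 <;>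
        rw [Prod.mk.injEq, Prod.mk.injEq] at h2 <;> omega

theorem nodup_iA (N n m : ℕ) : (iA D N n m).Nodup := by
  unfold iA
  rw [List.nodup_append]
  refine ⟨?_, ?_, ?_⟩
  · unfold cA
    rw [List.nodup_flatMap]
    refine ⟨fun k _ => nodup_cL D N k, ?_⟩
    refine (pairwise_rings n m).imp fun {a b} hab => ?_
    intro t h1 h2
    obtain ⟨a1, a2⟩ := cL_coord D h1
    obtain ⟨b1, b2⟩ := cL_coord D h2
    obtain ⟨x, i, c⟩ := t
    cases c
    · obtain ⟨a3, a4⟩ := a2 rfl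
      obtain ⟨b3, b4⟩ := b2 rfl
      simp only at a3 a4 b3 b4
      omega
    · have a3 := (a1 rfl).1
      have b3 := (b1 rfl).1
      simp only at a3 b3
      omega
  · refine List.Nodup.map ?_ List.nodup_range
    intro a b h
    rw [Prod.mk.injEq, Prod.mk.injEq] at h
    omega
  · intro t h1 t' h2 e
    subst e
    unfold cA at h1
    rw [List.mem_flatMap] at h1
    obtain ⟨k, hk, h1⟩ := h1
    obtain ⟨-, a2⟩ := cL_coord D h1
    rw [List.mem_map] at h2
    obtain ⟨i, hi, rfl⟩ := h2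
    obtain ⟨a3, a4⟩ := a2 rfl
    simp only at a3 a4
    omega

theorem mem_iA {n m : ℕ} {x i : ℤ} {e : Bool} : (x, i, e) ∈ iA D N n m ↔
    (0 ≤ i ∧ i < N) ∧
      (e = true → (-(2 * m : ℤ) ≤ x - D.o i ∧ x - D.o i < 2 * n) ∧ ((x - i) % 2 = 0 ↔ 0 ≤ x - D.o i)) ∧
      (e = false → -(2 * m : ℤ) - 1 ≤ x - D.o i ∧ x - D.o i < 2 * n) := by
  unfold iA cA
  rw [List.mem_append, List.mem_flatMap, List.mem_map]
  constructor
  · rintro (⟨k, hk, h⟩ | ⟨j, hj, e⟩)
    · obtain ⟨a1, a2⟩ := cL_coord D h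
      obtain ⟨a3, a4⟩ := cL_range D h
      rw [mem_rings] at hk
      simp only at a1 a2 a3 a4
      refine ⟨⟨a3, a4⟩, fun hb => ?_, fun hb => ?_⟩
      · obtain ⟨a5, a6⟩ := a1 hb
        rw [a6]
        omega
      · obtain ⟨a5, a6⟩ := a2 hb
        omega
    · rw [List.mem_range] at hj
      rw [Prod.mk.injEq, Prod.mk.injEq] at e
      obtain ⟨rfl, rfl, rfl⟩ := e
      exact ⟨⟨by positivity, by exact_mod_cast hj⟩, fun h => by simp at h, fun _ => by omega⟩
  · rintro ⟨⟨h1, h2⟩, h3, h4⟩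
    obtain ⟨i, rfl⟩ := Int.eq_ofNat_of_zero_le h1
    have hi : i < N := by exact_mod_cast h2
    have a0 := D.os i
    have ap := D.par i
    cases e
    · have h5 := h4 rfl
      by_cases c : x - D.o i = -1
      · have c' : x = D.o i - 1 := by omega
        subst c'
        exact Or.inr ⟨i, List.mem_range.2 hi, rfl⟩
      · left
        by_cases c0 : 0 ≤ x - D.o i
        · refine ⟨(x - D.o i) / 2, mem_rings.2 (by omega), ?_⟩
          rw [mem_cL]
          refine ⟨i, hi, Or.inl ⟨by omega, ?_⟩⟩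
          rw [mem_rH]
          rcases Int.emod_two_eq_zero_or_one (x - D.o i) with h | h
          · right; right
            refine Prod.ext ?_ rfl
            simp only
            omega
          · right; left
            refine Prod.ext ?_ rfl
            simp only
            omega
        · refine ⟨(x - D.o i + 1) / 2, mem_rings.2 (by omega), ?_⟩
          rw [mem_cL]
          refine ⟨i, hi, Or.inr ⟨by omega, ?_⟩⟩
          rw [mem_lH]
          rcases Int.emod_two_eq_zero_or_one (x - D.o i) with h | h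
          · right; right
            refine Prod.ext ?_ rfl
            simp only
            omega
          · right; left
            refine Prod.ext ?_ rfl
            simp only
            omega
    · obtain ⟨h5, h6⟩ := h3 rfl
      left
      refine ⟨(x - D.o i) / 2, mem_rings.2 (by omega), ?_⟩
      rw [mem_cL]
      by_cases c0 : 0 ≤ x - D.o i
      · refine ⟨i, hi, Or.inl ⟨by omega, ?_⟩⟩
        rw [mem_rH]
        left
        refine Prod.ext ?_ rfl
        simp only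
        have := h6.2 c0
        omega
      · refine ⟨i, hi, Or.inr ⟨by omega, ?_⟩⟩
        rw [mem_lH]
        left
        refine Prod.ext ?_ rfl
        simp only
        have : ¬ (x - (i : ℤ)) % 2 = 0 := fun h => c0 (h6.1 h)
        omega

/-- the parity at the other end of a vertical edge. -/
theorem par_vert {x i : ℤ} (h1 : 0 ≤ i) (h2 : i < N) :
    ((x - sh N b * (io x i / N)) - io x i % N) % 2 = 0 ↔ ¬ (x - i) % 2 = 0 := by
  have hN' : (0 : ℤ) < N := by omega
  have hsh : sh N b = N - 2 * b := rfl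
  by_cases h : (x - i) % 2 = 0
  · have e : io x i = i - 1 := by
      unfold io
      rw [if_pos h]
    rw [e]
    by_cases c0 : i = 0
    · subst c0
      have e1 : (0 - 1 : ℤ) / N = -1 := by
        rw [Int.ediv_eq_iff_of_pos hN']
        constructor <;> omega
      have e2 : (0 - 1 : ℤ) % N = N - 1 := by
        have := Int.mul_ediv_add_emod (0 - 1) N
        rw [e1] at this
        linarith
      rw [e1, e2]
      omega
    · rw [Int.ediv_eq_zero_of_lt (by omega) (by omega), Int.emod_eq_of_lt (a := i - 1) (b := (N : ℤ)) (by omega) (by omega)]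
      omega
  · have e : io x i = i + 1 := by
      unfold io
      rw [if_neg h]
    rw [e]
    by_cases c0 : i + 1 = N
    · rw [c0, Int.ediv_self hN'.ne', Int.emod_self]
      omega
    · rw [Int.ediv_eq_zero_of_lt (by omega) (by omega), Int.emod_eq_of_lt (a := i + 1) (b := (N : ℤ)) (by omega) (by omega)]
      omega

/-- the edges of different items are different. -/
theorem ed_inj (hS : D.d N = D.d 0 + sh N b) {n m : ℕ} {t t' : ℤ × ℤ × Bool} (ht : t ∈ iA D N n m)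
    (ht' : t' ∈ iA D N n m) (e : (Cs N b hN).ed (he t) = (Cs N b hN).ed (he t')) : t = t' := by
  obtain ⟨x, i, c⟩ := t
  obtain ⟨x', i', c'⟩ := t'
  rw [mem_iA] at ht ht'
  obtain ⟨⟨a1, a2⟩, a3, a4⟩ := ht
  obtain ⟨⟨c1, c2⟩, c3, c4⟩ := ht'
  cases c <;> cases c'
  · rw [Ced_false a1 a2, Ced_false c1 c2, Sym2.eq_iff] at e
    rcases e with ⟨e, -⟩ | ⟨e, -⟩
    · rw [rt_inj] at e
      rw [e.1, e.2]
    · simp at e
  · rw [Ced_false a1 a2, Ced_true, Sym2.eq_iff] at e
    rcases e with ⟨e, -⟩ | ⟨e, -⟩ <;> simp at e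
  · rw [Ced_true, Ced_false c1 c2, Sym2.eq_iff] at e
    rcases e with ⟨e, -⟩ | ⟨e, -⟩ <;> simp at e
  · rw [Ced_true, Ced_true, Sym2.eq_iff] at e
    rcases e with ⟨e, -⟩ | ⟨e, -⟩
    · rw [vt_inj] at e
      rw [e.1, e.2]
    · exfalso
      rw [vt_inj] at e
      obtain ⟨e1, e2⟩ := e
      have h1 := (a3 rfl).2
      have h2 := (c3 rfl).2
      have h3 := vert D hS (x := x') c1 c2 0
      have h4 := par_vert (b := b) (x := x') c1 c2
      rw [← e1, ← e2] at h3 h4
      omega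

theorem nodup_ed (hS : D.d N = D.d 0 + sh N b) {n m : ℕ} :
    ((iA D N n m).map (fun t => (Cs N b hN).ed (he t))).Nodup :=
  List.Nodup.map_on (fun _ ht _ ht' e => ed_inj D hS ht ht' e) (nodup_iA D _ n m)

/-- the edges of the domain. -/
noncomputable def Ed (N b : ℕ) (hN : 1 ≤ N) (l : List (ℤ × ℤ × Bool)) : Finset (Sym2 Lab) := by
  classical
  exact (l.map (fun t => (Cs N b hN).ed (he t))).toFinset

theorem mem_Ed {l : List (ℤ × ℤ × Bool)} {e : Sym2 Lab} :
    e ∈ Ed N b hN l ↔ ∃ t ∈ l, (Cs N b hN).ed (he t) = e := by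
  unfold Ed
  rw [List.mem_toFinset, List.mem_map]

theorem De_he {x i : ℤ} {c : Bool} (h1 : 0 ≤ i) (h2 : i < N) : (Cs N b hN).De (he (x, i, c)) := by
  cases c
  · exact ⟨De_V.2 (Or.inl rfl), nm_V h1 h2⟩
  · exact ⟨De_V.2 (Or.inr (Or.inr rfl)), nm_V h1 h2⟩

theorem De_mem {n m : ℕ} {t : ℤ × ℤ × Bool} (ht : t ∈ iA D N n m) : (Cs N b hN).De (he t) := by
  obtain ⟨x, i, c⟩ := t
  rw [mem_iA] at ht
  exact De_he ht.1.1 ht.1.2

variable {D}

theorem Edg_Ed {n m : ℕ} {l : List (ℤ × ℤ × Bool)} (hl : ∀ t ∈ l, t ∈ iA D N n m) :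
    (Cs N b hN).Edg (Ed N b hN l) := by
  intro e he'
  obtain ⟨t, ht, rfl⟩ := mem_Ed.1 he'
  exact ⟨he t, De_mem D (hl t ht), rfl⟩

theorem CO_Ed (hS : D.d N = D.d 0 + sh N b) {n m : ℕ} {l : List (ℤ × ℤ × Bool)}
    (hl : ∀ t ∈ l, t ∈ iA D N n m) (hn : l.Nodup) :
    (l.map (fun t => (CoS ((Cs N b hN).ed (he t)) : Op Lab K))).prod = Nm.CO K (Ed N b hN l) (Edg_Ed hl) := by
  classical
  have h1 : (l.map (fun t => (Cs N b hN).ed (he t))).Nodup :=
    List.Nodup.map_on (fun _ ht _ ht' e => ed_inj D hS (hl _ ht) (hl _ ht') e) hn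
  have h3 : Nm.CO K (Ed N b hN l) (Edg_Ed hl) =
      ((l.map (fun t => (Cs N b hN).ed (he t))).map (CoS : Sym2 Lab → Op Lab K)).prod :=
    Finset.noncommProd_toFinset _ _ _ h1
  rw [h3, List.map_map]
  rfl

/-- all edges at the vertices of the domain. -/
theorem incl (hS : D.d N = D.d 0 + sh N b) {n m : ℕ} {w : Pt} (hw : w ∈ Dm D N n m) {d : Pt}
    (hd : (Cs N b hN).De (w, d)) : (Cs N b hN).ed (w, d) ∈ Ed N b hN (iA D N n m) := by
  obtain ⟨x, i, rfl, h1, h2, h3⟩ := exists_of_mem_Dm hw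
  have hN' : (0 : ℤ) < N := by omega
  rcases De_V.1 hd.1 with rfl | rfl | rfl
  · refine mem_Ed.2 ⟨(x, i, false), (mem_iA D).2 ⟨⟨h2, h3⟩, fun h => by simp at h,
      fun _ => by omega⟩, rfl⟩
  · refine mem_Ed.2 ⟨(x - 1, i, false), (mem_iA D).2 ⟨⟨h2, h3⟩, fun h => by simp at h,
      fun _ => by omega⟩, ?_⟩
    rw [← Nm.ed_rv (h := (V x i, dL x i)) hd.2, rv_L h2 h3]
    rfl
  · by_cases c : (x - i) % 2 = 0 ↔ 0 ≤ x - D.o i
    · exact mem_Ed.2 ⟨(x, i, true), (mem_iA D).2 ⟨⟨h2, h3⟩, fun _ => ⟨h1, c⟩,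
        fun h => by simp at h⟩, rfl⟩
    · have v0 := vert D hS (x := x) h2 h3 0
      have v1 := vert D hS (x := x) h2 h3 (-(m : ℤ))
      have v2 := vert D hS (x := x) h2 h3 n
      have v3 := par_vert (b := b) (x := x) h2 h3
      refine mem_Ed.2 ⟨(x - sh N b * (io x i / N), io x i % N, true),
        (mem_iA D).2 ⟨⟨Int.emod_nonneg _ (by omega), Int.emod_lt_of_pos _ (by omega)⟩,
        fun _ => ⟨by omega, ?_⟩, fun h => by simp at h⟩, ?_⟩
      · rw [v3]
        omega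
      · rw [← Nm.ed_rv (h := (V x i, dU x i)) hd.2, rv_U]
        rfl

/-! ### the word formula -/

variable (D)

/-- the items of the cut without the rows i, j. -/
def gI (N : ℕ) (i j : ℤ) : List (ℤ × ℤ × Bool) :=
  ((List.range N).filter (fun a : ℕ => (a : ℤ) ≠ i ∧ (a : ℤ) ≠ j)).map
    (fun a : ℕ => (D.o (a : ℤ) - 1, (a : ℤ), false))

theorem mem_gI {i j x a : ℤ} {c : Bool} : (x, a, c) ∈ gI D N i j ↔
    x - D.o a = -1 ∧ c = false ∧ (0 ≤ a ∧ a < N) ∧ a ≠ i ∧ a ≠ j := by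
  unfold gI
  rw [List.mem_map]
  constructor
  · rintro ⟨d, hc, e⟩
    rw [List.mem_filter, List.mem_range] at hc
    rw [Prod.mk.injEq, Prod.mk.injEq] at e
    obtain ⟨rfl, rfl, rfl⟩ := e
    have h2 := of_decide_eq_true hc.2
    exact ⟨by ring, rfl, ⟨by positivity, by exact_mod_cast hc.1⟩, h2⟩
  · rintro ⟨h0, rfl, ⟨h1, h2⟩, h3⟩
    obtain ⟨d, rfl⟩ := Int.eq_ofNat_of_zero_le h1
    refine ⟨d, ?_, ?_⟩
    · rw [List.mem_filter, List.mem_range]
      exact ⟨by exact_mod_cast h2, decide_eq_true h3⟩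
    · refine Prod.ext ?_ rfl
      simp only
      omega

/-- all items without the two cut edges. -/
def iB (N n m : ℕ) (i j : ℤ) : List (ℤ × ℤ × Bool) := cA D N n m ++ gI D N i j

theorem mem_iB {n m : ℕ} {i j x a : ℤ} {c : Bool} : (x, a, c) ∈ iB D N n m i j ↔
    (x, a, c) ∈ iA D N n m ∧ ¬ (c = false ∧ x - D.o a = -1 ∧ (a = i ∨ a = j)) := by
  unfold iB iA
  rw [List.mem_append, List.mem_append, mem_gI, List.mem_map]
  constructor
  · rintro (h | ⟨h0, rfl, ⟨h1, h2⟩, h3, h4⟩)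
    · refine ⟨Or.inl h, ?_⟩
      rintro ⟨rfl, h0, -⟩
      unfold cA at h
      rw [List.mem_flatMap] at h
      obtain ⟨k, hk, h⟩ := h
      obtain ⟨-, a2⟩ := cL_coord D h
      obtain ⟨a3, a4⟩ := a2 rfl
      simp only at a3 a4
      omega
    · refine ⟨Or.inr ⟨a.toNat, List.mem_range.2 (by omega), ?_⟩, by omega⟩
      have e : ((a.toNat : ℕ) : ℤ) = a := by omega
      rw [e, Prod.mk.injEq]
      exact ⟨by omega, rfl⟩
  · rintro ⟨h | ⟨d, hc, e⟩, h2⟩
    · exact Or.inl h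
    · rw [Prod.mk.injEq, Prod.mk.injEq] at e
      obtain ⟨rfl, rfl, rfl⟩ := e
      rw [List.mem_range] at hc
      exact Or.inr ⟨by ring, rfl, ⟨by positivity, by exact_mod_cast hc⟩, by
        constructor <;> intro h <;> exact h2 ⟨rfl, by ring, by tauto⟩⟩

variable {D}

theorem iB_sub {n m : ℕ} {i j : ℤ} : ∀ t ∈ iB D N n m i j, t ∈ iA D N n m := by
  rintro ⟨x, a, c⟩ h
  exact ((mem_iB D).1 h).1

variable (D)

theorem nodup_iB (n m : ℕ) (i j : ℤ) : (iB D N n m i j).Nodup := by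
  have h := nodup_iA D N n m
  unfold iA at h
  unfold iB
  refine h.sublist (List.Sublist.append_left ?_ _)
  unfold gI
  exact List.Sublist.map _ List.filter_sublist

/-- **The word formula of the sorted network.** -/
theorem word (hS : D.d N = D.d 0 + sh N b) (y : K) {n m : ℕ} {i j : ℤ} (i0 : 0 ≤ i) (i1 : i < N)
    (j0 : 0 ≤ j) (j1 : j < N) (hij : i ≠ j) :
    (CR y (Dm0 D N n m i j) * Nm.CO K (Ed N b hN (iB D N n m i j)) (Edg_Ed iB_sub))
        (HS.ind (cup (lf (D.o i) i) (lf (D.o j) j) Pat.empty)) Pat.empty =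
      (Cs N b hN).Ws y (Dm0 D N n m i j) {(V (D.o j - 1) j, dR (D.o j - 1) j)}
        (V (D.o i - 1) i, dR (D.o i - 1) i) := by
  classical
  have hp : (Cs N b hN).De (V (D.o i - 1) i, dR (D.o i - 1) i) := ⟨De_V.2 (Or.inl rfl), nm_V i0 i1⟩
  have hq : (Cs N b hN).De (V (D.o j - 1) j, dR (D.o j - 1) j) := ⟨De_V.2 (Or.inl rfl), nm_V j0 j1⟩
  have m0 : (D.o i - 1, i, false) ∈ iA D N n m :=
    (mem_iA D).2 ⟨⟨i0, i1⟩, fun h => by simp at h, fun _ => by omega⟩
  have m1 : (D.o j - 1, j, false) ∈ iA D N n m :=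
    (mem_iA D).2 ⟨⟨j0, j1⟩, fun h => by simp at h, fun _ => by omega⟩
  have a1 : V (D.o i - 1) i ∉ Dm0 D N n m i j := by
    rw [mem_Dm0]
    rintro ⟨-, h⟩
    exact h ⟨rfl, Or.inl rfl⟩
  have a2 : V (D.o j - 1) j ∉ Dm0 D N n m i j := by
    rw [mem_Dm0]
    rintro ⟨-, h⟩
    exact h ⟨rfl, Or.inr rfl⟩
  have r1 : (Cs N b hN).rv (V (D.o i - 1) i, dR (D.o i - 1) i) = (V (D.o i) i, dL (D.o i) i) := by
    rw [rv_R i0 i1, sub_add_cancel]
  have r2 : (Cs N b hN).rv (V (D.o j - 1) j, dR (D.o j - 1) j) = (V (D.o j) j, dL (D.o j) j) := by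
    rw [rv_R j0 j1, sub_add_cancel]
  have e1 : (Cs N b hN).ed (V (D.o i - 1) i, dR (D.o i - 1) i) ∉ Ed N b hN (iB D N n m i j) := by
    intro h
    obtain ⟨t, ht, e⟩ := mem_Ed.1 h
    have h1 : t = (D.o i - 1, i, false) := ed_inj D hS (iB_sub t ht) m0 e
    subst h1
    exact ((mem_iB D).1 ht).2 ⟨rfl, by ring, Or.inl rfl⟩
  have e2 : (Cs N b hN).ed (V (D.o j - 1) j, dR (D.o j - 1) j) ∉ Ed N b hN (iB D N n m i j) := by
    intro h
    obtain ⟨t, ht, e⟩ := mem_Ed.1 h
    have h1 : t = (D.o j - 1, j, false) := ed_inj D hS (iB_sub t ht) m1 e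
    subst h1
    exact ((mem_iB D).1 ht).2 ⟨rfl, by ring, Or.inr rfl⟩
  have eE : Ed N b hN (iA D N n m) = insert ((Cs N b hN).ed (V (D.o i - 1) i, dR (D.o i - 1) i))
      (insert ((Cs N b hN).ed (V (D.o j - 1) j, dR (D.o j - 1) j)) (Ed N b hN (iB D N n m i j))) := by
    ext e
    rw [Finset.mem_insert, Finset.mem_insert, mem_Ed, mem_Ed]
    constructor
    · rintro ⟨⟨x, a, c⟩, ht, rfl⟩
      by_cases h : c = false ∧ x - D.o a = -1 ∧ (a = i ∨ a = j)
      · obtain ⟨rfl, h0, rfl | rfl⟩ := h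
        · left
          have : x = D.o a - 1 := by omega
          rw [this]
          rfl
        · right; left
          have : x = D.o a - 1 := by omega
          rw [this]
          rfl
      · exact Or.inr (Or.inr ⟨(x, a, c), (mem_iB D).2 ⟨ht, h⟩, rfl⟩)
    · rintro (rfl | rfl | ⟨t, ht, rfl⟩)
      · exact ⟨_, m0, rfl⟩
      · exact ⟨_, m1, rfl⟩
      · exact ⟨t, iB_sub t ht, rfl⟩
  have hne : (V (D.o i - 1) i, dR (D.o i - 1) i) ≠ (V (D.o j - 1) j, dR (D.o j - 1) j) := by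
    rw [Ne, Prod.mk.injEq, V_inj]
    exact fun h => hij h.1.2
  have hne' : (Cs N b hN).rv (V (D.o i - 1) i, dR (D.o i - 1) i) ≠ (V (D.o j - 1) j, dR (D.o j - 1) j) := by
    rw [r1, Ne, Prod.mk.injEq, V_inj]
    exact fun h => hij h.1.2
  have h1 := two_ended y (Edg_Ed iB_sub) hp hq a1 a2 hne hne' e1 e2 (Ed N b hN (iA D N n m))
    (Edg_Ed fun _ h => h) eE
  rw [r1, r2] at h1
  refine h1.trans ?_
  refine Nm.main y {(V (D.o j - 1) j, dR (D.o j - 1) j)} _ (Dm0 D N n m i j) rfl _ (Edg_Ed fun _ h => h)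
    (V (D.o i - 1) i, dR (D.o i - 1) i) hp a1 ?_ ?_ ?_ ?_
  · rw [eE]
    exact Finset.mem_insert_self _ _
  · intro w hw d hd
    refine incl hS ?_ hd
    unfold Dm0 at hw
    exact Finset.mem_of_mem_erase (Finset.mem_of_mem_erase hw)
  · intro h hh
    rw [Finset.mem_singleton] at hh
    rw [hh]
    exact a2
  · rw [Finset.mem_singleton]
    exact hne

end Pool.Agent.STR
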